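import Pool.Agent.H58.AFF.Wr
import Pool.Agent.H1.PLN.Pur

/-!
# Lemma PLANE: many lines through one point on which a polynomial vanishes

`FanStmt` of `H1/PLN/Pur.lean`: the lowest form which is not small gives a polynomial in the slope
of degree at most `r`, which is small at the slopes of all the lines.
-/

set_option autoImplicit false

namespace Pool.AFF

open Finset Polynomial

/-- The coefficients of a polynomial from its values in a window. -/
theorem cf_win (n : ℕ) : ∃ C : ℝ, 1 ≤ C ∧ ∀ (q : ℝ[X]) (lam S : ℝ), q.natDegree ≤ n → 0 < lam →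
    (∀ u, |u| ≤ lam → |q.eval u| ≤ S) → ∀ m, |q.coeff m| * lam ^ m ≤ C * S := by
  have hn : (0 : ℝ) < n + 1 := by positivity
  refine ⟨(n + 1) * (2 / (1 / ((n : ℝ) + 1))) ^ (n + 1), ?_, ?_⟩
  · have h1 : (1 : ℝ) ≤ 2 / (1 / ((n : ℝ) + 1)) := by
      rw [le_div_iff₀ (by positivity), one_mul, div_le_iff₀ hn]
      linarith
    have h2 := one_le_pow₀ (n := n + 1) h1
    nlinarith [Nat.cast_nonneg (α := ℝ) n]
  intro q lam S hq hlam h m
  have hS : 0 ≤ S := (abs_nonneg _).trans (h 0 (by rw [abs_zero]; exact hlam.le))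
  rcases Nat.lt_or_ge m (n + 1) with hm | hm
  · have hsep : ∀ i j : Fin (n + 1), i ≠ j → 1 ≤ |((i : ℕ) : ℝ) - ((j : ℕ) : ℝ)| := by
      intro i j hij
      have hne : ((i : ℕ) : ℤ) - ((j : ℕ) : ℤ) ≠ 0 := by
        intro h0
        apply hij
        apply Fin.ext
        omega
      have := Int.one_le_abs hne
      exact_mod_cast this
    have hi : ∀ i : Fin (n + 1), 0 ≤ ((i : ℕ) : ℝ) / (n + 1) ∧ ((i : ℕ) : ℝ) / (n + 1) ≤ 1 := by
      intro i
      have h1 : ((i : ℕ) : ℝ) ≤ n := by exact_mod_cast Nat.lt_succ_iff.1 i.2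
      refine ⟨by positivity, ?_⟩
      rw [div_le_one hn]
      linarith
    have h2 := cf_le (n := n + 1) (fun b => q.coeff b * lam ^ b)
      (fun i => ((i : ℕ) : ℝ) / (n + 1)) (κ := 1 / ((n : ℝ) + 1)) (M := S) (by positivity)
      ((div_le_one hn).2 (by linarith [Nat.cast_nonneg (α := ℝ) n])) (fun i => by
        rw [abs_of_nonneg (hi i).1]
        exact (hi i).2) (fun i j hij => by
        rw [← sub_div, abs_div, abs_of_pos hn]
        exact div_le_div_of_nonneg_right (hsep i j hij) hn.le) (fun i => by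
        have e1 : ∑ b ∈ range (n + 1), q.coeff b * lam ^ b * (((i : ℕ) : ℝ) / (n + 1)) ^ b =
            q.eval (lam * (((i : ℕ) : ℝ) / (n + 1))) := by
          rw [eval_eq_sum_range' (show q.natDegree < n + 1 by omega)]
          refine Finset.sum_congr rfl fun b _ => ?_
          rw [mul_pow, mul_assoc]
        rw [e1]
        refine h _ ?_
        rw [abs_mul, abs_of_pos hlam, abs_of_nonneg (hi i).1]
        exact mul_le_of_le_one_right hlam.le (hi i).2) hm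
    push_cast at h2
    rw [abs_mul, abs_of_pos (pow_pos hlam m)] at h2
    exact h2
  · rw [coeff_eq_zero_of_natDegree_lt (by omega), abs_zero, zero_mul]
    positivity

/-- A maximal separated set. -/
theorem sepset {ι : Type} [Fintype ι] (x : ι → ℝ) {ρ : ℝ} (hρ : 0 ≤ ρ) : ∃ S : Finset ι,
    (∀ i ∈ S, ∀ j ∈ S, i ≠ j → ρ < |x i - x j|) ∧ ∀ i, ∃ j ∈ S, |x i - x j| ≤ ρ := by
  classical
  obtain ⟨S, hS, hmax⟩ := Finset.exists_max_image
    ((univ : Finset (Finset ι)).filter fun S => ∀ i ∈ S, ∀ j ∈ S, i ≠ j → ρ < |x i - x j|)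
    Finset.card ⟨∅, by simp⟩
  rw [Finset.mem_filter] at hS
  refine ⟨S, hS.2, fun i => ?_⟩
  by_contra hc
  push Not at hc
  have hi : i ∉ S := by
    intro hi
    have := hc i hi
    rw [sub_self, abs_zero] at this
    linarith
  have h1 := hmax (insert i S) (by
    rw [Finset.mem_filter]
    refine ⟨Finset.mem_univ _, fun a ha b hb hab => ?_⟩
    rcases Finset.mem_insert.1 ha with ha | ha
    · rcases Finset.mem_insert.1 hb with hb | hb
      · exact absurd (ha.trans hb.symm) hab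
      · rw [ha]
        exact hc b hb
    · rcases Finset.mem_insert.1 hb with hb | hb
      · rw [hb, abs_sub_comm]
        exact hc a ha
      · exact hS.2 a ha b hb hab)
  rw [Finset.card_insert_of_notMem hi] at h1
  omega

/-- Few separated values: a popular value. -/
theorem popul {ι : Type} [Fintype ι] (x : ι → ℝ) {ρ : ℝ} (hρ : 0 ≤ ρ) {r n : ℕ}
    (hno : ∀ g : Fin (r + 1) → ι, (∀ a b, a ≠ b → ρ < |x (g a) - x (g b)|) → False)
    (hM : r * n < Fintype.card ι) : ∃ (i₀ : ι) (I : Finset ι), n < I.card ∧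
      ∀ i ∈ I, |x i - x i₀| ≤ ρ := by
  classical
  obtain ⟨S, h1, h2⟩ := sepset x hρ
  have hS : S.card ≤ r := by
    by_contra hc
    obtain ⟨S', hS', hc'⟩ := Finset.exists_subset_card_eq (show r + 1 ≤ S.card by omega)
    let g : Fin (r + 1) ≃ S' := (S'.equivFinOfCardEq hc').symm
    refine hno (fun a => (g a : ι)) fun a b hab => ?_
    refine h1 _ (hS' (g a).2) _ (hS' (g b).2) fun hh => hab ?_
    exact g.injective (Subtype.ext hh)
  choose f hf1 hf2 using h2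
  obtain ⟨y, _, hy⟩ := Finset.exists_lt_card_fiber_of_mul_lt_card_of_maps_to
    (s := (univ : Finset ι)) (t := S) (f := f) (n := n) (fun a _ => hf1 a) (by
      rw [Finset.card_univ]
      exact (Nat.mul_le_mul_right n hS).trans_lt hM)
  refine ⟨y, _, hy, fun i hi => ?_⟩
  have := (Finset.mem_filter.1 hi).2
  rw [← this]
  exact hf2 i

/-- The polynomial along a line through the point. -/
noncomputable def lpl {K : ℕ} (b : (Fin 2 → Fin (K + 1)) → Polynomial ℝ) (s₀ e w : ℝ) : ℝ[X] :=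
  ∑ a, C (e ^ (a 0 : ℕ) * w ^ (a 1 : ℕ)) * (X ^ ((a 0 : ℕ) + a 1) * taylor s₀ (b a))

theorem eval_lpl {K : ℕ} (b : (Fin 2 → Fin (K + 1)) → Polynomial ℝ) (s₀ e w u : ℝ) :
    (lpl b s₀ e w).eval u = Pool.PLN.Ev b (s₀ + u) (e * u) (w * u) := by
  unfold lpl Pool.PLN.Ev
  rw [eval_finsetSum]
  refine Finset.sum_congr rfl fun a _ => ?_
  rw [eval_mul, eval_C, eval_mul, eval_pow, eval_X, taylor_eval, add_comm u s₀, mul_pow, mul_pow,
    pow_add]
  ring

theorem natDegree_lpl {K : ℕ} (b : (Fin 2 → Fin (K + 1)) → Polynomial ℝ) (s₀ e w : ℝ)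
    (hb : ∀ a, (b a).natDegree ≤ K) : (lpl b s₀ e w).natDegree ≤ 3 * K := by
  unfold lpl
  refine natDegree_sum_le_of_forall_le _ _ fun a _ => ?_
  refine (natDegree_C_mul_le _ _).trans (natDegree_mul_le.trans ?_)
  rw [natDegree_X_pow, natDegree_taylor]
  have h0 := Nat.lt_succ_iff.1 (a 0).2
  have h1 := Nat.lt_succ_iff.1 (a 1).2
  have h2 := hb a
  omega

theorem coeff_lpl {K : ℕ} (b : (Fin 2 → Fin (K + 1)) → Polynomial ℝ) (s₀ e w : ℝ) (m : ℕ) :
    (lpl b s₀ e w).coeff m = ∑ a, e ^ (a 0 : ℕ) * w ^ (a 1 : ℕ) *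
      (if (a 0 : ℕ) + a 1 ≤ m then (taylor s₀ (b a)).coeff (m - ((a 0 : ℕ) + a 1)) else 0) := by
  unfold lpl
  rw [finsetSum_coeff]
  refine Finset.sum_congr rfl fun a _ => ?_
  rw [coeff_C_mul, coeff_X_pow_mul']

/-- The form of order `m` at the point. -/
noncomputable def frm {K : ℕ} (b : (Fin 2 → Fin (K + 1)) → Polynomial ℝ) (s₀ : ℝ) (m : ℕ)
    (e w : ℝ) : ℝ :=
  ∑ a ∈ (univ : Finset (Fin 2 → Fin (K + 1))).filter (fun a => (a 0 : ℕ) + a 1 = m),
    (b a).eval s₀ * (e ^ (a 0 : ℕ) * w ^ (a 1 : ℕ))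

/-- The form is the coefficient up to the lower forms. -/
theorem frm_eq {K : ℕ} (b : (Fin 2 → Fin (K + 1)) → Polynomial ℝ) (s₀ e w : ℝ) (m : ℕ) :
    frm b s₀ m e w = (lpl b s₀ e w).coeff m -
      ∑ a ∈ (univ : Finset (Fin 2 → Fin (K + 1))).filter (fun a => (a 0 : ℕ) + a 1 < m),
        e ^ (a 0 : ℕ) * w ^ (a 1 : ℕ) * (taylor s₀ (b a)).coeff (m - ((a 0 : ℕ) + a 1)) := by
  classical
  rw [coeff_lpl, eq_sub_iff_add_eq]
  unfold frm
  have h1 : ∀ a : Fin 2 → Fin (K + 1), e ^ (a 0 : ℕ) * w ^ (a 1 : ℕ) *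
      (if (a 0 : ℕ) + a 1 ≤ m then (taylor s₀ (b a)).coeff (m - ((a 0 : ℕ) + a 1)) else 0) =
      (if (a 0 : ℕ) + a 1 = m then (b a).eval s₀ * (e ^ (a 0 : ℕ) * w ^ (a 1 : ℕ)) else 0) +
      (if (a 0 : ℕ) + a 1 < m then e ^ (a 0 : ℕ) * w ^ (a 1 : ℕ) *
        (taylor s₀ (b a)).coeff (m - ((a 0 : ℕ) + a 1)) else 0) := by
    intro a
    rcases lt_trichotomy ((a 0 : ℕ) + a 1) m with h | h | h
    · rw [if_pos h.le, if_neg h.ne, if_pos h, zero_add]
    · rw [if_pos h.le, if_pos h, if_neg (by omega), add_zero, h, Nat.sub_self, taylor_coeff_zero]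
      ring
    · rw [if_neg (by omega), if_neg (by omega), if_neg (by omega), mul_zero, add_zero]
  simp only [h1]
  rw [Finset.sum_add_distrib, ← Finset.sum_filter, ← Finset.sum_filter]

/-- The coefficients of the form in the slope. -/
noncomputable def cfr {K : ℕ} (b : (Fin 2 → Fin (K + 1)) → Polynomial ℝ) (s₀ : ℝ) (m k : ℕ) : ℝ :=
  ∑ a ∈ ((univ : Finset (Fin 2 → Fin (K + 1))).filter (fun a => (a 0 : ℕ) + a 1 = m)).filter
    (fun a => (a 1 : ℕ) = k), (b a).eval s₀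

theorem cfr_eq {K : ℕ} (b : (Fin 2 → Fin (K + 1)) → Polynomial ℝ) (s₀ : ℝ)
    (a : Fin 2 → Fin (K + 1)) : cfr b s₀ ((a 0 : ℕ) + a 1) (a 1) = (b a).eval s₀ := by
  classical
  unfold cfr
  have h1 : ((univ : Finset (Fin 2 → Fin (K + 1))).filter
      (fun a' => (a' 0 : ℕ) + a' 1 = (a 0 : ℕ) + a 1)).filter (fun a' => (a' 1 : ℕ) = a 1) =
      {a} := by
    ext a'
    rw [Finset.mem_filter, Finset.mem_filter, Finset.mem_singleton]
    constructor
    · rintro ⟨⟨_, h1⟩, h2⟩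
      funext i
      fin_cases i
      · apply Fin.ext
        show (a' 0 : ℕ) = a 0
        omega
      · apply Fin.ext
        exact h2
    · rintro rfl
      exact ⟨⟨Finset.mem_univ _, rfl⟩, rfl⟩
  rw [h1, Finset.sum_singleton]

/-- The form in the slope. -/
theorem frm_slope {K : ℕ} (b : (Fin 2 → Fin (K + 1)) → Polynomial ℝ) (s₀ : ℝ) (m : ℕ) {e w : ℝ}
    (he : e ≠ 0) : frm b s₀ m e w = e ^ m * ∑ k ∈ range (m + 1), cfr b s₀ m k * (w / e) ^ k := by
  classical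
  have h1 : frm b s₀ m e w = e ^ m *
      ∑ a ∈ (univ : Finset (Fin 2 → Fin (K + 1))).filter (fun a => (a 0 : ℕ) + a 1 = m),
        (b a).eval s₀ * (w / e) ^ (a 1 : ℕ) := by
    unfold frm
    rw [Finset.mul_sum]
    refine Finset.sum_congr rfl fun a ha => ?_
    have h2 := (Finset.mem_filter.1 ha).2
    have h3 : w ^ (a 1 : ℕ) = (w / e) ^ (a 1 : ℕ) * e ^ (a 1 : ℕ) := by
      rw [← mul_pow, div_mul_cancel₀ _ he]
    have h4 : e ^ m = e ^ (a 0 : ℕ) * e ^ (a 1 : ℕ) := by rw [← pow_add, h2]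
    rw [h3, h4]
    ring
  rw [h1]
  congr 1
  rw [← Finset.sum_fiberwise_of_maps_to (t := range (m + 1)) (g := fun a => (a 1 : ℕ))
    (fun a ha => by
      have h2 := (Finset.mem_filter.1 ha).2
      rw [Finset.mem_range]
      omega)]
  refine Finset.sum_congr rfl fun k _ => ?_
  unfold cfr
  rw [Finset.sum_mul]
  refine Finset.sum_congr rfl fun a ha => ?_
  rw [(Finset.mem_filter.1 ha).2]

/-- The bound of the form of order `m` on the lines. -/
theorem frm_le (K : ℕ) : ∃ C : ℝ, 1 ≤ C ∧ ∀ (b : (Fin 2 → Fin (K + 1)) → Polynomial ℝ)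
    (s₀ lam ε H τ e w : ℝ) (m : ℕ), (∀ a, (b a).natDegree ≤ K) → 0 < lam → lam ≤ 1 → 0 ≤ τ →
    1 ≤ H → |e| ≤ 1 → |w| ≤ 1 →
    (∀ a, ∀ s, |s - s₀| ≤ lam → |(b a).eval s| ≤ H * |(b a).eval s₀|) →
    (∀ a : Fin 2 → Fin (K + 1), (a 0 : ℕ) + a 1 < m → |(b a).eval s₀| ≤ τ) →
    (∀ s, |s - s₀| ≤ lam → |Pool.PLN.Ev b s (e * (s - s₀)) (w * (s - s₀))| ≤ ε) →
    |frm b s₀ m e w| * lam ^ m ≤ C * (ε + H * τ) := by
  classical
  obtain ⟨C₁, hC₁, h₁⟩ := cf_win (3 * K)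
  obtain ⟨C₂, hC₂, h₂⟩ := cf_win K
  obtain ⟨c, hc⟩ : ∃ c : ℝ, c = ((univ : Finset (Fin 2 → Fin (K + 1))).card : ℝ) := ⟨_, rfl⟩
  have hc0 : 0 ≤ c := by
    rw [hc]
    positivity
  refine ⟨C₁ + c * C₂, by nlinarith, ?_⟩
  intro b s₀ lam ε H τ e w m hb hlam hlam1 hτ hH he hw hdom hlow hln
  have hε : 0 ≤ ε := by
    have := hln s₀ (by rw [sub_self, abs_zero]; exact hlam.le)
    exact (abs_nonneg _).trans this
  have hH0 : 0 ≤ H := by linarith
  have h3 : |(lpl b s₀ e w).coeff m| * lam ^ m ≤ C₁ * ε := by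
    refine h₁ _ lam ε (natDegree_lpl b s₀ e w hb) hlam (fun u hu => ?_) m
    rw [eval_lpl]
    have h4 := hln (s₀ + u) (by rwa [add_sub_cancel_left])
    rwa [add_sub_cancel_left] at h4
  have h5 : ∀ a : Fin 2 → Fin (K + 1), (a 0 : ℕ) + a 1 < m →
      |e ^ (a 0 : ℕ) * w ^ (a 1 : ℕ) * (taylor s₀ (b a)).coeff (m - ((a 0 : ℕ) + a 1))| * lam ^ m ≤
      C₂ * (H * τ) := by
    intro a ha
    have h6 : |(taylor s₀ (b a)).coeff (m - ((a 0 : ℕ) + a 1))| *
        lam ^ (m - ((a 0 : ℕ) + a 1)) ≤ C₂ * (H * |(b a).eval s₀|) := by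
      refine h₂ _ lam _ (by rw [natDegree_taylor]; exact hb a) hlam (fun u hu => ?_) _
      rw [taylor_eval]
      exact hdom a _ (by rwa [add_sub_cancel_right])
    have h7 : |e ^ (a 0 : ℕ) * w ^ (a 1 : ℕ)| ≤ 1 := by
      rw [abs_mul, abs_pow, abs_pow]
      exact mul_le_one₀ (pow_le_one₀ (abs_nonneg _) he) (by positivity)
        (pow_le_one₀ (abs_nonneg _) hw)
    have h8 : lam ^ m ≤ lam ^ (m - ((a 0 : ℕ) + a 1)) :=
      pow_le_pow_of_le_one hlam.le hlam1 (Nat.sub_le _ _)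
    rw [abs_mul]
    calc |e ^ (a 0 : ℕ) * w ^ (a 1 : ℕ)| * |(taylor s₀ (b a)).coeff (m - ((a 0 : ℕ) + a 1))| *
          lam ^ m
        ≤ 1 * |(taylor s₀ (b a)).coeff (m - ((a 0 : ℕ) + a 1))| *
          lam ^ (m - ((a 0 : ℕ) + a 1)) := by
          refine mul_le_mul (mul_le_mul_of_nonneg_right h7 (abs_nonneg _)) h8 (by positivity)
            (by positivity)
      _ ≤ C₂ * (H * |(b a).eval s₀|) := by rwa [one_mul]
      _ ≤ C₂ * (H * τ) := by
          refine mul_le_mul_of_nonneg_left (mul_le_mul_of_nonneg_left (hlow a ha) hH0) (by linarith)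
  rw [frm_eq]
  have h9 := abs_sub ((lpl b s₀ e w).coeff m)
    (∑ a ∈ (univ : Finset (Fin 2 → Fin (K + 1))).filter (fun a => (a 0 : ℕ) + a 1 < m),
        e ^ (a 0 : ℕ) * w ^ (a 1 : ℕ) * (taylor s₀ (b a)).coeff (m - ((a 0 : ℕ) + a 1)))
  have h10 : |∑ a ∈ (univ : Finset (Fin 2 → Fin (K + 1))).filter (fun a => (a 0 : ℕ) + a 1 < m),
        e ^ (a 0 : ℕ) * w ^ (a 1 : ℕ) * (taylor s₀ (b a)).coeff (m - ((a 0 : ℕ) + a 1))| *
        lam ^ m ≤ c * (C₂ * (H * τ)) := by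
    refine (mul_le_mul_of_nonneg_right (Finset.abs_sum_le_sum_abs _ _) (by positivity)).trans ?_
    rw [Finset.sum_mul]
    refine (Finset.sum_le_sum fun a ha => h5 a (Finset.mem_filter.1 ha).2).trans ?_
    rw [Finset.sum_const, nsmul_eq_mul, hc]
    refine mul_le_mul_of_nonneg_right ?_ (by positivity)
    exact_mod_cast Finset.card_le_card (Finset.filter_subset _ _)
  calc _ ≤ (|(lpl b s₀ e w).coeff m| + |∑ a ∈ (univ : Finset (Fin 2 → Fin (K + 1))).filter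
        (fun a => (a 0 : ℕ) + a 1 < m),
        e ^ (a 0 : ℕ) * w ^ (a 1 : ℕ) * (taylor s₀ (b a)).coeff (m - ((a 0 : ℕ) + a 1))|) *
        lam ^ m := mul_le_mul_of_nonneg_right h9 (by positivity)
    _ ≤ C₁ * ε + c * (C₂ * (H * τ)) := by
        rw [add_mul]
        exact add_le_add h3 h10
    _ ≤ (C₁ + c * C₂) * (ε + H * τ) := by
        have e1 : 0 ≤ C₁ * (H * τ) := by positivity
        have e2 : 0 ≤ c * C₂ * ε := by positivity
        nlinarith

/-- **P1 of PLANE.** -/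
theorem fanStmt : Pool.PLN.FanStmt := by
  classical
  intro r
  refine ⟨(2 * r + 2) * (r + 1), fun K => ?_⟩
  obtain ⟨C₁, hC₁, h₁⟩ := frm_le K
  obtain ⟨G, hG⟩ : ∃ G : ℝ, G = (r + 1) * 2 ^ (r + 2) * C₁ := ⟨_, rfl⟩
  have hG1 : 1 ≤ G := by
    rw [hG]
    have e1 : (1 : ℝ) ≤ 2 ^ (r + 2) := one_le_pow₀ (by norm_num)
    have e2 : (1 : ℝ) ≤ (r + 1) * 2 ^ (r + 2) := by nlinarith [Nat.cast_nonneg (α := ℝ) r]
    nlinarith
  have hG0 : 0 < G := by linarith
  have hGr : 1 ≤ G ^ (r + 1) := one_le_pow₀ hG1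
  refine ⟨2 * G ^ (r + 1), by linarith, ?_⟩
  intro b s₀ lam ε H B κ ρ hb hlam hlam1 hε hH hB hB1 hκ hκ1 hρ hρ1 hex hdom hsm M n e w hew hln
    hM
  have hH0 : 0 < H := by linarith
  obtain ⟨W, hW⟩ : ∃ W : ℝ, W = κ ^ (2 * r + 1) * ρ ^ (r + 1) * lam ^ r := ⟨_, rfl⟩
  have hW0 : 0 < W := by
    rw [hW]
    positivity
  have hW1 : W ≤ 1 := by
    rw [hW]
    exact mul_le_one₀ (mul_le_one₀ (pow_le_one₀ hκ.le hκ1) (by positivity)
      (pow_le_one₀ hρ.le hρ1)) (by positivity) (pow_le_one₀ hlam.le hlam1)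
  obtain ⟨Q, hQ⟩ : ∃ Q : ℝ, Q = G * H / W := ⟨_, rfl⟩
  have hQ1 : 1 ≤ Q := by
    rw [hQ, le_div_iff₀ hW0]
    nlinarith
  have hQ0 : 0 < Q := by linarith
  -- the numbers
  have hnum : Q ^ (r + 1) * ε * H < B := by
    have h2 : (lam * B * κ * ρ) ^ ((2 * r + 2) * (r + 1)) ≤ W ^ (r + 1) * B := by
      have e1 : (lam * B * κ * ρ) ^ ((2 * r + 2) * (r + 1)) =
          (κ ^ ((2 * r + 2) * (r + 1)) * ρ ^ ((2 * r + 2) * (r + 1)) *
            lam ^ ((2 * r + 2) * (r + 1))) * B ^ ((2 * r + 2) * (r + 1)) := by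
        rw [mul_pow, mul_pow, mul_pow]
        ring
      have e2 : W ^ (r + 1) = κ ^ ((2 * r + 1) * (r + 1)) * ρ ^ ((r + 1) * (r + 1)) *
          lam ^ (r * (r + 1)) := by
        rw [hW, mul_pow, mul_pow, ← pow_mul, ← pow_mul, ← pow_mul]
      rw [e1, e2]
      refine mul_le_mul (mul_le_mul (mul_le_mul ?_ ?_ (by positivity) (by positivity)) ?_
        (by positivity) (by positivity)) ?_ (by positivity) (by positivity)
      · exact pow_le_pow_of_le_one hκ.le hκ1 (Nat.mul_le_mul_right _ (by omega))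
      · exact pow_le_pow_of_le_one hρ.le hρ1 (Nat.mul_le_mul_right _ (by omega))
      · exact pow_le_pow_of_le_one hlam.le hlam1 (Nat.mul_le_mul_right _ (by omega))
      · have e3 : B ^ ((2 * r + 2) * (r + 1)) ≤ B ^ 1 :=
          pow_le_pow_of_le_one hB.le hB1 (Nat.mul_pos (by omega) (by omega))
        rwa [pow_one] at e3
    have h3 : 2 * (G ^ (r + 1) * H ^ (r + 2) * ε) ≤ W ^ (r + 1) * B := by
      refine le_trans ?_ (hsm.trans h2)
      have e1 : H ^ (r + 2) ≤ H ^ ((2 * r + 2) * (r + 1)) := by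
        refine pow_le_pow_right₀ hH ?_
        nlinarith
      calc 2 * (G ^ (r + 1) * H ^ (r + 2) * ε) = 2 * G ^ (r + 1) * H ^ (r + 2) * ε := by ring
        _ ≤ 2 * G ^ (r + 1) * H ^ ((2 * r + 2) * (r + 1)) * ε := by
          refine mul_le_mul_of_nonneg_right (mul_le_mul_of_nonneg_left e1 (by positivity)) hε
    have h4 : Q ^ (r + 1) * ε * H = G ^ (r + 1) * H ^ (r + 2) * ε / W ^ (r + 1) := by
      rw [hQ, div_pow, mul_pow]
      ring
    rw [h4, div_lt_iff₀ (pow_pos hW0 _)]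
    have h5 : 0 < W ^ (r + 1) * B := by positivity
    nlinarith
  -- the first form above its threshold
  obtain ⟨a₁, ha₁r, s₁, hs₁, hBs⟩ := hex
  have hex' : ∃ m, ∃ a : Fin 2 → Fin (K + 1), (a 0 : ℕ) + a 1 = m ∧
      Q ^ (m + 1) * ε < |(b a).eval s₀| := by
    refine ⟨_, a₁, rfl, ?_⟩
    have h2 := hdom a₁ s₁ hs₁
    have h3 : Q ^ ((a₁ 0 : ℕ) + a₁ 1 + 1) * ε * H ≤ Q ^ (r + 1) * ε * H := by
      refine mul_le_mul_of_nonneg_right (mul_le_mul_of_nonneg_right ?_ hε) hH0.le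
      exact pow_le_pow_right₀ hQ1 (by omega)
    have h4 : Q ^ ((a₁ 0 : ℕ) + a₁ 1 + 1) * ε * H < |(b a₁).eval s₀| * H := by
      calc _ ≤ _ := h3
        _ < B := hnum
        _ ≤ H * |(b a₁).eval s₀| := hBs.trans h2
        _ = _ := by ring
    exact lt_of_mul_lt_mul_right h4 hH0.le
  obtain ⟨m, hm⟩ : ∃ m, m = Nat.find hex' := ⟨_, rfl⟩
  obtain ⟨a, ham, ha⟩ := Nat.find_spec hex'
  rw [← hm] at ham ha
  have hmr : m ≤ r := by
    rw [hm]
    refine (Nat.find_le (n := (a₁ 0 : ℕ) + a₁ 1) ?_).trans ha₁r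
    refine ⟨a₁, rfl, ?_⟩
    have h2 := hdom a₁ s₁ hs₁
    have h3 : Q ^ ((a₁ 0 : ℕ) + a₁ 1 + 1) * ε * H ≤ Q ^ (r + 1) * ε * H := by
      refine mul_le_mul_of_nonneg_right (mul_le_mul_of_nonneg_right ?_ hε) hH0.le
      exact pow_le_pow_right₀ hQ1 (by omega)
    have h4 : Q ^ ((a₁ 0 : ℕ) + a₁ 1 + 1) * ε * H < |(b a₁).eval s₀| * H := by
      calc _ ≤ _ := h3
        _ < B := hnum
        _ ≤ H * |(b a₁).eval s₀| := hBs.trans h2
        _ = _ := by ring
    exact lt_of_mul_lt_mul_right h4 hH0.le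
  have hlow : ∀ a' : Fin 2 → Fin (K + 1), (a' 0 : ℕ) + a' 1 < m →
      |(b a').eval s₀| ≤ Q ^ m * ε := by
    intro a' ha'
    have h2 := Nat.find_min hex' (m := (a' 0 : ℕ) + a' 1) (by rwa [← hm])
    push Not at h2
    refine (h2 a' rfl).trans ?_
    exact mul_le_mul_of_nonneg_right (pow_le_pow_right₀ hQ1 (by omega)) hε
  -- the slopes
  obtain ⟨x, hx⟩ : ∃ x : Fin M → ℝ, x = fun i => w i / e i := ⟨_, rfl⟩
  have he0 : ∀ i, e i ≠ 0 := fun i h0 => by
    have := (hew i).1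
    rw [h0, abs_zero] at this
    linarith
  have hxb : ∀ i, |x i| ≤ 1 / κ := by
    intro i
    rw [hx]
    show |w i / e i| ≤ _
    rw [abs_div]
    exact div_le_div₀ zero_le_one (hew i).2.2 hκ (hew i).1
  have hval : ∀ i, |∑ k ∈ range (m + 1), cfr b s₀ m k * x i ^ k| ≤
      2 * C₁ * H * (Q ^ m * ε) / (κ ^ r * lam ^ r) := by
    intro i
    have h2 := h₁ b s₀ lam ε H (Q ^ m * ε) (e i) (w i) m hb hlam hlam1 (by positivity) hH
      (hew i).2.1 (hew i).2.2 hdom hlow (hln i)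
    rw [frm_slope b s₀ m (he0 i), abs_mul, abs_pow] at h2
    have h3 : ε + H * (Q ^ m * ε) ≤ 2 * H * (Q ^ m * ε) := by
      have e1 : 1 ≤ Q ^ m := one_le_pow₀ hQ1
      have e2 : ε ≤ H * (Q ^ m * ε) := by
        have e3 : ε ≤ Q ^ m * ε := le_mul_of_one_le_left hε e1
        have e4 : Q ^ m * ε ≤ H * (Q ^ m * ε) := le_mul_of_one_le_left (by positivity) hH
        linarith
      linarith
    have h4 : κ ^ r * lam ^ r ≤ |e i| ^ m * lam ^ m := by
      refine mul_le_mul ?_ (pow_le_pow_of_le_one hlam.le hlam1 hmr) (by positivity)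
        (by positivity)
      exact (pow_le_pow_of_le_one hκ.le hκ1 hmr).trans (pow_le_pow_left₀ hκ.le (hew i).1 m)
    rw [le_div_iff₀ (by positivity)]
    show |∑ k ∈ range (m + 1), cfr b s₀ m k * x i ^ k| * (κ ^ r * lam ^ r) ≤ _
    have h5 : x i = w i / e i := by rw [hx]
    rw [h5]
    calc |∑ k ∈ range (m + 1), cfr b s₀ m k * (w i / e i) ^ k| * (κ ^ r * lam ^ r)
        ≤ |∑ k ∈ range (m + 1), cfr b s₀ m k * (w i / e i) ^ k| * (|e i| ^ m * lam ^ m) :=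
          mul_le_mul_of_nonneg_left h4 (abs_nonneg _)
      _ = |e i| ^ m * |∑ k ∈ range (m + 1), cfr b s₀ m k * (w i / e i) ^ k| * lam ^ m := by ring
      _ ≤ C₁ * (ε + H * (Q ^ m * ε)) := h2
      _ ≤ C₁ * (2 * H * (Q ^ m * ε)) := mul_le_mul_of_nonneg_left h3 (by linarith)
      _ = _ := by ring
  obtain ⟨i₀, I, hI, hIx⟩ := popul (ι := Fin M) x hρ.le (r := m) (n := n) (by
    intro g hg
    have h2 := cf_le_B (n := m + 1) (fun k => cfr b s₀ m k) (fun i => x (g i)) (κ := ρ)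
      (M := 2 * C₁ * H * (Q ^ m * ε) / (κ ^ r * lam ^ r)) (B := 1 / κ) hρ
      ((one_le_div hκ).2 hκ1) (hρ1.trans ((one_le_div hκ).2 hκ1)) (fun i => hxb _)
      (fun i j hij => (hg i j hij).le) (fun i => hval _) (a := (a 1 : ℕ)) (by omega)
    have h3 : cfr b s₀ m (a 1) = (b a).eval s₀ := by
      rw [← ham]
      exact cfr_eq b s₀ a
    rw [h3] at h2
    have h4 : ((m + 1 : ℕ) : ℝ) * (2 * (1 / κ) / ρ) ^ (m + 1) *
        (2 * C₁ * H * (Q ^ m * ε) / (κ ^ r * lam ^ r)) ≤ Q ^ (m + 1) * ε := by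
      have e1 : (2 * (1 / κ) / ρ : ℝ) = 2 / (κ * ρ) := by
        field_simp
      have e2 : (1 : ℝ) ≤ 2 / (κ * ρ) := by
        rw [le_div_iff₀ (by positivity), one_mul]
        nlinarith
      have e3 : (2 / (κ * ρ)) ^ (m + 1) ≤ (2 / (κ * ρ)) ^ (r + 1) :=
        pow_le_pow_right₀ e2 (by omega)
      have e4 : ((m + 1 : ℕ) : ℝ) ≤ r + 1 := by exact_mod_cast Nat.succ_le_succ hmr
      rw [e1]
      calc ((m + 1 : ℕ) : ℝ) * (2 / (κ * ρ)) ^ (m + 1) *
            (2 * C₁ * H * (Q ^ m * ε) / (κ ^ r * lam ^ r))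
          ≤ (r + 1) * (2 / (κ * ρ)) ^ (r + 1) *
            (2 * C₁ * H * (Q ^ m * ε) / (κ ^ r * lam ^ r)) := by
            refine mul_le_mul_of_nonneg_right ?_ (by positivity)
            exact mul_le_mul e4 e3 (by positivity) (by positivity)
        _ = Q ^ (m + 1) * ε := by
            rw [pow_succ Q m, hQ, hW, hG, div_pow]
            field_simp
            ring
    linarith) (by
      rw [Fintype.card_fin]
      exact (Nat.mul_le_mul_right n hmr).trans_lt hM)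
  refine ⟨i₀, I, hI, fun i hi => ?_⟩
  have h2 := hIx i hi
  rw [hx] at h2
  have h3 : w i - w i₀ / e i₀ * e i = e i * (w i / e i - w i₀ / e i₀) := by
    rw [mul_sub, mul_div_cancel₀ _ (he0 i)]
    ring
  rw [h3, abs_mul]
  calc |e i| * |w i / e i - w i₀ / e i₀| ≤ 1 * ρ :=
        mul_le_mul (hew i).2.1 h2 (abs_nonneg _) zero_le_one
    _ = ρ := one_mul ρ

end Pool.AFF
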