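import Mathlib

/-!
# The hyperplane of two affine leaves

Leaves are affine: `v = af3 p s y z`, `N = af3 q s y z`. The hyperplane of the leaves `(p, q)` and
`(p', q')` is `N = af4 (hyp p q p' q') s y z v`: it contains the first leaf, its slope in `v` is the
quotient of the slopes in `z` of the differences. `hyp_close`: if the direction of three more leaves
`o, a', b'` at the point is in the hyperplane of `a, b` (small determinants), the line `l` is on `a`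
and `o`, the line `l'` is on `a'` and `o`, then the hyperplane of `a', b'` is near the hyperplane of
`a, b` in a box around `l'`.
-/

set_option autoImplicit false

namespace Pool.AFF

/-- An affine function of the time and two coordinates. -/
def af3 (p : Fin 4 → ℝ) (s y z : ℝ) : ℝ := p 0 + p 1 * s + p 2 * y + p 3 * z

/-- An affine function of the time and three coordinates. -/
def af4 (p : Fin 5 → ℝ) (s y z v : ℝ) : ℝ := p 0 + p 1 * s + p 2 * y + p 3 * z + p 4 * v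

/-- The slope of the hyperplane of two leaves. -/
noncomputable def hnu (pa qa pb qb : Fin 4 → ℝ) : ℝ := (qb 3 - qa 3) / (pb 3 - pa 3)

/-- The hyperplane of two leaves. -/
noncomputable def hyp (pa qa pb qb : Fin 4 → ℝ) : Fin 5 → ℝ :=
  ![qa 0 - hnu pa qa pb qb * pa 0, qa 1 - hnu pa qa pb qb * pa 1,
    qa 2 - hnu pa qa pb qb * pa 2, qa 3 - hnu pa qa pb qb * pa 3, hnu pa qa pb qb]

theorem af4_hyp (pa qa pb qb : Fin 4 → ℝ) (s y z v : ℝ) :
    af4 (hyp pa qa pb qb) s y z v =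
      af3 qa s y z + hnu pa qa pb qb * (v - af3 pa s y z) := by
  unfold af4 af3 hyp
  simp [Fin.isValue, Matrix.cons_val_zero, Matrix.cons_val_one]
  ring

/-- The determinant of the third leaf and two leaves in the direction `j` (`j = 2` : the first
coordinate, `j = 3` : the second coordinate). -/
def dtl (pa qa pb qb pc qc : Fin 4 → ℝ) (j : Fin 4) : ℝ :=
  (pb 3 - pa 3) * (qc j - qa j) - (qb 3 - qa 3) * (pc j - pa j)

/-- A small determinant: the direction is in the hyperplane. -/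
theorem dtl_le {pa qa pb qb pc qc : Fin 4 → ℝ} {j : Fin 4} {κ τ : ℝ} (hκ : 0 < κ)
    (h : κ ≤ |pb 3 - pa 3|) (hd : |dtl pa qa pb qb pc qc j| ≤ τ) :
    |qc j - qa j - hnu pa qa pb qb * (pc j - pa j)| ≤ τ / κ := by
  have h0 : 0 < |pb 3 - pa 3| := lt_of_lt_of_le hκ h
  have hτ : 0 ≤ τ := (abs_nonneg _).trans hd
  have h1 : qc j - qa j - hnu pa qa pb qb * (pc j - pa j) =
      dtl pa qa pb qb pc qc j / (pb 3 - pa 3) := by
    unfold hnu dtl
    have := abs_pos.1 h0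
    field_simp
  rw [h1, abs_div]
  exact div_le_div₀ hτ hd hκ h

/-- The slope of the hyperplane is bounded. -/
theorem hnu_le {pa qa pb qb : Fin 4 → ℝ} {κ B : ℝ} (hκ : 0 < κ)
    (h : κ ≤ |pb 3 - pa 3|) (ha : |qa 3| ≤ B) (hb : |qb 3| ≤ B) :
    |hnu pa qa pb qb| ≤ 2 * B / κ := by
  unfold hnu
  rw [abs_div]
  have h1 := abs_sub (qb 3) (qa 3)
  have hB : 0 ≤ B := (abs_nonneg _).trans ha
  exact div_le_div₀ (by positivity) (by linarith) hκ h

/-- The slopes of the two hyperplanes are close. -/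
theorem hnu_close {pa qa pb qb pa' qa' pb' qb' : Fin 4 → ℝ} {κ τ : ℝ} (hκ : 0 < κ)
    (h : κ ≤ |pb 3 - pa 3|) (h' : κ ≤ |pb' 3 - pa' 3|)
    (hd1 : |dtl pa qa pb qb pa' qa' 3| ≤ τ) (hd2 : |dtl pa qa pb qb pb' qb' 3| ≤ τ) :
    |hnu pa' qa' pb' qb' - hnu pa qa pb qb| ≤ 2 * (τ / κ) / κ := by
  have h0 : 0 < |pb' 3 - pa' 3| := lt_of_lt_of_le hκ h'
  have hτ : 0 ≤ τ := (abs_nonneg _).trans hd1
  have h1 := dtl_le hκ h hd1
  have h2 := dtl_le hκ h hd2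
  have h3 : hnu pa' qa' pb' qb' - hnu pa qa pb qb =
      ((qb' 3 - qa 3 - hnu pa qa pb qb * (pb' 3 - pa 3)) -
        (qa' 3 - qa 3 - hnu pa qa pb qb * (pa' 3 - pa 3))) / (pb' 3 - pa' 3) := by
    have e0 := abs_pos.1 h0
    have e1 : hnu pa' qa' pb' qb' = (qb' 3 - qa' 3) / (pb' 3 - pa' 3) := rfl
    rw [e1, eq_div_iff e0, sub_mul, div_mul_cancel₀ _ e0]
    ring
  rw [h3, abs_div]
  have h4 := abs_sub (qb' 3 - qa 3 - hnu pa qa pb qb * (pb' 3 - pa 3))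
    (qa' 3 - qa 3 - hnu pa qa pb qb * (pa' 3 - pa 3))
  exact div_le_div₀ (by positivity) (by linarith) hκ h'

/-- The slopes in the base coordinates are close. -/
theorem hsl_close {pa qa pb qb pa' qa' pb' qb' : Fin 4 → ℝ} {κ τ B : ℝ} {j : Fin 4} (hκ : 0 < κ)
    (hκ1 : κ ≤ 1) (hB : 1 ≤ B) (hpa' : |pa' j| ≤ B)
    (h : κ ≤ |pb 3 - pa 3|) (h' : κ ≤ |pb' 3 - pa' 3|)
    (hd1 : |dtl pa qa pb qb pa' qa' 3| ≤ τ) (hd2 : |dtl pa qa pb qb pb' qb' 3| ≤ τ)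
    (hd3 : |dtl pa qa pb qb pa' qa' j| ≤ τ) :
    |(qa' j - hnu pa' qa' pb' qb' * pa' j) - (qa j - hnu pa qa pb qb * pa j)| ≤
      3 * B * τ / κ ^ 2 := by
  have hτ : 0 ≤ τ := (abs_nonneg _).trans hd1
  have h1 := dtl_le hκ h hd3
  have h2 := hnu_close hκ h h' hd1 hd2
  have h3 : (qa' j - hnu pa' qa' pb' qb' * pa' j) - (qa j - hnu pa qa pb qb * pa j) =
      (qa' j - qa j - hnu pa qa pb qb * (pa' j - pa j)) -
        (hnu pa' qa' pb' qb' - hnu pa qa pb qb) * pa' j := by ring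
  rw [h3]
  refine (abs_sub _ _).trans ?_
  rw [abs_mul]
  have h4 : |hnu pa' qa' pb' qb' - hnu pa qa pb qb| * |pa' j| ≤ 2 * (τ / κ) / κ * B :=
    mul_le_mul h2 hpa' (abs_nonneg _) (by positivity)
  have h5 : τ / κ ≤ B * τ / κ ^ 2 := by
    rw [div_le_div_iff₀ hκ (by positivity)]
    have : κ ≤ B := hκ1.trans hB
    have e1 : τ * κ ^ 2 = τ * κ * κ := by ring
    have e2 : B * τ * κ = τ * κ * B := by ring
    rw [e1, e2]
    exact mul_le_mul_of_nonneg_left this (by positivity)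
  have h6 : 2 * (τ / κ) / κ * B = 2 * (B * τ / κ ^ 2) := by
    field_simp
  calc _ ≤ τ / κ + 2 * (τ / κ) / κ * B := add_le_add h1 h4
    _ ≤ B * τ / κ ^ 2 + 2 * (B * τ / κ ^ 2) := by
        rw [h6]
        linarith
    _ = _ := by ring

/-- The second line is in the hyperplane of the first one. -/
theorem on_hyp {pa qa pb qb po qo : Fin 4 → ℝ} {κ τ B ε s y z v N y' z' v' N' : ℝ}
    (hκ : 0 < κ) (hκ1 : κ ≤ 1) (hB : 1 ≤ B) (hqa : |qa 3| ≤ B) (hqb : |qb 3| ≤ B)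
    (h : κ ≤ |pb 3 - pa 3|)
    (hd2 : |dtl pa qa pb qb po qo 2| ≤ τ) (hd3 : |dtl pa qa pb qb po qo 3| ≤ τ)
    (hva : |v - af3 pa s y z| ≤ ε) (hNa : |N - af3 qa s y z| ≤ ε)
    (hvo : |v - af3 po s y z| ≤ ε) (hNo : |N - af3 qo s y z| ≤ ε)
    (hvo' : |v' - af3 po s y' z'| ≤ ε) (hNo' : |N' - af3 qo s y' z'| ≤ ε)
    (hy : |y' - y| ≤ B) (hz : |z' - z| ≤ B) :
    |N' - af4 (hyp pa qa pb qb) s y' z' v'| ≤ 9 * B * ε / κ + 2 * B * τ / κ := by
  obtain ⟨ν, hν⟩ : ∃ ν, ν = hnu pa qa pb qb := ⟨_, rfl⟩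
  have hνb : |ν| ≤ 2 * B / κ := by
    rw [hν]
    exact hnu_le hκ h hqa hqb
  have hε : 0 ≤ ε := (abs_nonneg _).trans hva
  have hτ : 0 ≤ τ := (abs_nonneg _).trans hd2
  have h2 := dtl_le hκ h hd2
  have h3 := dtl_le hκ h hd3
  rw [← hν] at h2 h3
  rw [af4_hyp, ← hν]
  have e1 : N' - (af3 qa s y' z' + ν * (v' - af3 pa s y' z')) =
      (N' - af3 qo s y' z') - ν * (v' - af3 po s y' z') +
      ((N - af3 qa s y z) - (N - af3 qo s y z) - ν * ((v - af3 pa s y z) - (v - af3 po s y z))) +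
      ((qo 2 - qa 2 - ν * (po 2 - pa 2)) * (y' - y) +
        (qo 3 - qa 3 - ν * (po 3 - pa 3)) * (z' - z)) := by
    unfold af3
    ring
  rw [e1]
  have b1 : |(N' - af3 qo s y' z') - ν * (v' - af3 po s y' z')| ≤ ε + 2 * B / κ * ε := by
    refine (abs_sub _ _).trans (add_le_add hNo' ?_)
    rw [abs_mul]
    exact mul_le_mul hνb hvo' (abs_nonneg _) (by positivity)
  have b2 : |(N - af3 qa s y z) - (N - af3 qo s y z) -
      ν * ((v - af3 pa s y z) - (v - af3 po s y z))| ≤ 2 * ε + 2 * B / κ * (2 * ε) := by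
    refine (abs_sub _ _).trans (add_le_add ?_ ?_)
    · refine (abs_sub _ _).trans ?_
      linarith
    · rw [abs_mul]
      refine mul_le_mul hνb ?_ (abs_nonneg _) (by positivity)
      refine (abs_sub _ _).trans ?_
      linarith
  have b3 : |(qo 2 - qa 2 - ν * (po 2 - pa 2)) * (y' - y) +
        (qo 3 - qa 3 - ν * (po 3 - pa 3)) * (z' - z)| ≤ τ / κ * B + τ / κ * B := by
    refine (abs_add_le _ _).trans ?_
    rw [abs_mul, abs_mul]
    exact add_le_add (mul_le_mul h2 hy (abs_nonneg _) (by positivity))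
      (mul_le_mul h3 hz (abs_nonneg _) (by positivity))
  have b4 : 3 * ε ≤ 3 * (B / κ * ε) := by
    have : 1 ≤ B / κ := by
      rw [le_div_iff₀ hκ]
      linarith
    nlinarith
  refine (abs_add_le _ _).trans ((add_le_add ((abs_add_le _ _).trans (add_le_add b1 b2)) b3).trans
    ?_)
  have e2 : 9 * B * ε / κ + 2 * B * τ / κ =
      3 * (B / κ * ε) + 6 * (B / κ * ε) + 2 * (τ / κ * B) := by ring
  have e3 : ε + 2 * B / κ * ε + (2 * ε + 2 * B / κ * (2 * ε)) + (τ / κ * B + τ / κ * B) =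
      3 * ε + 6 * (B / κ * ε) + 2 * (τ / κ * B) := by ring
  rw [e2, e3]
  linarith

/-- **The hyperplanes of the two lines are close.** The leaves `a, b` and `a', b'`, the common
own leaf `o`; `(y, z, v, N)` is the point of `l`, `(y', z', v', N')` is the point of `l'` at the
time `s`; `(y₁, z₁, v₁)` is any point of the box. -/
theorem hyp_close {pa qa pb qb pa' qa' pb' qb' po qo : Fin 4 → ℝ}
    {κ τ B ε s y z v N y' z' v' N' y₁ z₁ v₁ : ℝ}
    (hκ : 0 < κ) (hκ1 : κ ≤ 1) (hB : 1 ≤ B)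
    (hqa : |qa 3| ≤ B) (hqb : |qb 3| ≤ B) (hqa' : |qa' 3| ≤ B) (hqb' : |qb' 3| ≤ B)
    (hpa2 : |pa' 2| ≤ B) (hpa3 : |pa' 3| ≤ B)
    (h : κ ≤ |pb 3 - pa 3|) (h' : κ ≤ |pb' 3 - pa' 3|)
    (hdo2 : |dtl pa qa pb qb po qo 2| ≤ τ) (hdo3 : |dtl pa qa pb qb po qo 3| ≤ τ)
    (hda2 : |dtl pa qa pb qb pa' qa' 2| ≤ τ) (hda3 : |dtl pa qa pb qb pa' qa' 3| ≤ τ)
    (hdb3 : |dtl pa qa pb qb pb' qb' 3| ≤ τ)
    (hva : |v - af3 pa s y z| ≤ ε) (hNa : |N - af3 qa s y z| ≤ ε)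
    (hvo : |v - af3 po s y z| ≤ ε) (hNo : |N - af3 qo s y z| ≤ ε)
    (hvo' : |v' - af3 po s y' z'| ≤ ε) (hNo' : |N' - af3 qo s y' z'| ≤ ε)
    (hva' : |v' - af3 pa' s y' z'| ≤ ε) (hNa' : |N' - af3 qa' s y' z'| ≤ ε)
    (hy : |y' - y| ≤ B) (hz : |z' - z| ≤ B) (hy₁ : |y₁ - y'| ≤ B) (hz₁ : |z₁ - z'| ≤ B)
    (hv₁ : |v₁ - v'| ≤ B) :
    |af4 (hyp pa' qa' pb' qb') s y₁ z₁ v₁ - af4 (hyp pa qa pb qb) s y₁ z₁ v₁| ≤
      12 * B ^ 2 * (ε + τ) / κ ^ 2 := by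
  have hε : 0 ≤ ε := (abs_nonneg _).trans hva
  have hτ : 0 ≤ τ := (abs_nonneg _).trans hdo2
  obtain ⟨ν, hν⟩ : ∃ ν, ν = hnu pa qa pb qb := ⟨_, rfl⟩
  obtain ⟨ν', hν'⟩ : ∃ ν', ν' = hnu pa' qa' pb' qb' := ⟨_, rfl⟩
  have h1 := on_hyp hκ hκ1 hB hqa hqb h hdo2 hdo3 hva hNa hvo hNo hvo' hNo' hy hz
  have hνb : |ν'| ≤ 2 * B / κ := by
    rw [hν']
    exact hnu_le hκ h' hqa' hqb'
  have h2 : |N' - af4 (hyp pa' qa' pb' qb') s y' z' v'| ≤ 3 * B * ε / κ := by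
    rw [af4_hyp, ← hν']
    have e1 : N' - (af3 qa' s y' z' + ν' * (v' - af3 pa' s y' z')) =
        (N' - af3 qa' s y' z') - ν' * (v' - af3 pa' s y' z') := by ring
    rw [e1]
    refine (abs_sub _ _).trans ((add_le_add hNa' (?_ : _ ≤ 2 * B / κ * ε)).trans ?_)
    · rw [abs_mul]
      exact mul_le_mul hνb hva' (abs_nonneg _) (by positivity)
    · have : 1 ≤ B / κ := by
        rw [le_div_iff₀ hκ]
        linarith
      have e2 : 3 * B * ε / κ = B / κ * ε + 2 * B / κ * ε := by ring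
      rw [e2]
      nlinarith
  have h3 := hsl_close (j := 2) hκ hκ1 hB hpa2 h h' hda3 hdb3 hda2
  have h4 := hsl_close (j := 3) hκ hκ1 hB hpa3 h h' hda3 hdb3 hda3
  have h5 := hnu_close hκ h h' hda3 hdb3
  rw [← hν, ← hν'] at h3 h4 h5
  have e1 : af4 (hyp pa' qa' pb' qb') s y₁ z₁ v₁ - af4 (hyp pa qa pb qb) s y₁ z₁ v₁ =
      (N' - af4 (hyp pa qa pb qb) s y' z' v') - (N' - af4 (hyp pa' qa' pb' qb') s y' z' v') +
      (((qa' 2 - ν' * pa' 2) - (qa 2 - ν * pa 2)) * (y₁ - y') +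
        ((qa' 3 - ν' * pa' 3) - (qa 3 - ν * pa 3)) * (z₁ - z') + (ν' - ν) * (v₁ - v')) := by
    rw [af4_hyp, af4_hyp, af4_hyp, af4_hyp, ← hν, ← hν']
    unfold af3
    ring
  rw [e1]
  have b1 : |((qa' 2 - ν' * pa' 2) - (qa 2 - ν * pa 2)) * (y₁ - y') +
        ((qa' 3 - ν' * pa' 3) - (qa 3 - ν * pa 3)) * (z₁ - z') + (ν' - ν) * (v₁ - v')| ≤
      3 * B * τ / κ ^ 2 * B + 3 * B * τ / κ ^ 2 * B + 2 * (τ / κ) / κ * B := by
    refine (abs_add_le _ _).trans (add_le_add ((abs_add_le _ _).trans (add_le_add ?_ ?_)) ?_)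
    · rw [abs_mul]
      exact mul_le_mul h3 hy₁ (abs_nonneg _) (by positivity)
    · rw [abs_mul]
      exact mul_le_mul h4 hz₁ (abs_nonneg _) (by positivity)
    · rw [abs_mul]
      exact mul_le_mul h5 hv₁ (abs_nonneg _) (by positivity)
  refine (abs_add_le _ _).trans ((add_le_add ((abs_sub _ _).trans (add_le_add h1 h2)) b1).trans ?_)
  have k1 : 1 / κ ≤ 1 / κ ^ 2 := by
    refine one_div_le_one_div_of_le (by positivity) ?_
    nlinarith
  have k0 : 0 ≤ 1 / κ ^ 2 := by positivity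
  have kk : 0 ≤ 1 / κ := by positivity
  have hBB : B ≤ B ^ 2 := by nlinarith
  have f1 : B * ε / κ ≤ B ^ 2 * ε / κ ^ 2 := by
    have e2 : B * ε / κ = (B * ε) * (1 / κ) := by ring
    have e3 : B ^ 2 * ε / κ ^ 2 = (B ^ 2 * ε) * (1 / κ ^ 2) := by ring
    rw [e2, e3]
    exact mul_le_mul (mul_le_mul_of_nonneg_right hBB hε) k1 kk (by positivity)
  have f2 : B * τ / κ ≤ B ^ 2 * τ / κ ^ 2 := by
    have e2 : B * τ / κ = (B * τ) * (1 / κ) := by ring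
    have e3 : B ^ 2 * τ / κ ^ 2 = (B ^ 2 * τ) * (1 / κ ^ 2) := by ring
    rw [e2, e3]
    exact mul_le_mul (mul_le_mul_of_nonneg_right hBB hτ) k1 kk (by positivity)
  have f3 : B * τ / κ ^ 2 ≤ B ^ 2 * τ / κ ^ 2 := by
    have e2 : B * τ / κ ^ 2 = (B * τ) * (1 / κ ^ 2) := by ring
    have e3 : B ^ 2 * τ / κ ^ 2 = (B ^ 2 * τ) * (1 / κ ^ 2) := by ring
    rw [e2, e3]
    exact mul_le_mul_of_nonneg_right (mul_le_mul_of_nonneg_right hBB hτ) k0
  have e4 : 9 * B * ε / κ + 2 * B * τ / κ + 3 * B * ε / κ +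
      (3 * B * τ / κ ^ 2 * B + 3 * B * τ / κ ^ 2 * B + 2 * (τ / κ) / κ * B) =
      12 * (B * ε / κ) + 2 * (B * τ / κ) + 6 * (B ^ 2 * τ / κ ^ 2) + 2 * (B * τ / κ ^ 2) := by
    field_simp
    ring
  have e5 : 12 * B ^ 2 * (ε + τ) / κ ^ 2 =
      12 * (B ^ 2 * ε / κ ^ 2) + 12 * (B ^ 2 * τ / κ ^ 2) := by ring
  rw [e4, e5]
  have f4 : 0 ≤ B ^ 2 * τ / κ ^ 2 := by positivity
  linarith

end Pool.AFF
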