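import Pool.Agent.H58.AFF.Hes
import Pool.Agent.H1.PLN.Cmm

/-!
# The sheets of the labels are affine: the statement in a class

`G κ` is a polynomial of the label in the time and the coordinates `c 0`, `c 1`; on the samples of
the label it is near the affine function `U + t V` of the line, up to `ε κ`. Then it is near one
affine function `q κ`, on the box of the label and on the line over the long window, with a loss.
The frame (the natural coordinates of the window `w0`) is the frame of `d₀`.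
-/

set_option autoImplicit false

namespace Pool.PLN

open Finset Real MvPolynomial
open Pool.Agent.H49.Ent Pool.Agent.H32.Dense Pool.STK Pool.KA Pool.KSAT Pool.K2S Pool.PB Pool.STAT
  Pool.GEN Pool.S6C Pool.M3F Pool.CLO37

variable {m J : ℕ}

/-- The point of the line of a sample at the time `t`. -/
noncomputable def lpt (F : Fam m J) (c : ℕ → Fin m) (ω : F.Ω) (t : ℝ) : Fin 3 → ℝ :=
  ![t, F.u ω (c 0) + t * F.d ω (c 0), F.u ω (c 1) + t * F.d ω (c 1)]

/-- The numbers of the labels at the window `w0`. -/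
def Nums.low (N : Nums) : Nums := ⟨N.w0, N.w0, N.g0, N.g0, N.s0, N.s0⟩

namespace Dat

variable {N : Nums} {φ : ℝ} {K : ℕ} {F : Fam m J} {c : ℕ → Fin m} {A : F.Ω → Prop}

/-- The labels at the window `w0`. -/
def low (d : Dat N φ K F c A) : Dat N.low φ K F c A where
  V := d.V0
  V0 := d.V0
  z := d.zz
  z' := d.zz'
  P := d.P0
  g' := d.g0'
  sg := d.sg0
  zz := d.zz
  zz' := d.zz'
  P0 := d.P0
  g0' := d.g0'
  sg0 := d.sg0
  pr := id
  kap := d.kap
  L := d.L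
  G0 := d.G0
  a := d.a
  lab := d.lab0
  lab0 := d.lab0
  prz := fun _ _ => rfl
  dg := d.dg0
  dg0 := d.dg0
  num := d.num0
  num0 := d.num0
  nums := d.nums0
  nums0 := d.nums0
  numz := d.numz
  top := d.top0
  top0 := d.top0
  srt := d.srt0
  srt0 := d.srt0
  win := d.win0
  win0 := d.win0
  kapφ := d.kapφ
  L0 := d.L0
  L1 := d.L1
  pos0 := d.pos0
  siz0 := d.siz0

theorem low_Ez (d : Dat N φ K F c A) (ω : F.Ω) : d.low.Ez ω = d.Ez ω := rfl

/-- The polynomial is near the affine function on the box of the label. -/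
def HesB (d : Dat N φ K F c A) (G : MvPolynomial (Fin 3) ℝ) (q : Fin 4 → ℝ) (η : ℝ) (κ : d.V) :
    Prop :=
  ∀ b : ℕ → ℝ, CLO.Bxr 2 (wid ⌊N.w1 * J⌋₊ d.g') (d.P κ) 3 b →
    |eval (fun i : Fin 3 => b i) G - Pool.AFF.afv q (fun i => b i)| ≤ η

/-- The function of the line is near the affine function, over the long window. -/
def HesL (_ : Dat N φ K F c A) (U V' : LnT F → ℝ) (q : Fin 4 → ℝ) (η : ℝ) (ω : F.Ω) : Prop :=
  ∀ t : ℝ, |t - F.t ω| ≤ 2 / 2 ^ ⌊N.w0 * J⌋₊ →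
    |U (slam F ⌊N.w1 * J⌋₊ ω) + t * V' (slam F ⌊N.w1 * J⌋₊ ω) -
      Pool.AFF.afv q (lpt F c ω t)| ≤ η

end Dat

/-- **(HES)** in a class. `N = N₁`, `d₀ = d`: the labels at the window `w1`; `N₁ = N.low`,
`d = d₀.low`: the labels at the window `w0`. -/
def HesS (S : PCl m) (c : ℕ → Fin m) (N N₁ : Nums) (K K₁ K' : ℕ) (e' c₀ : ℝ) : Prop :=
  ∃ φ : ℝ, 0 < φ ∧ Bas S (fun J F A => ∀ (d₀ : Dat N φ K F c A) (d : Dat N₁ φ K₁ F c A),
    (∀ ω, d.Ez ω = d₀.Ez ω) →
    ∀ (G : d.V → MvPolynomial (Fin 3) ℝ) (ε : d.V → ℝ) (U V' : LnT F → ℝ),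
      (∀ κ, (G κ).totalDegree ≤ K') →
      (∀ ω, A ω → 0 < F.p ω → |U (slam F ⌊N₁.w1 * J⌋₊ ω) + F.t ω * V' (slam F ⌊N₁.w1 * J⌋₊ ω) -
        eval (lpt F c ω (F.t ω)) (G (d.κ ω))| ≤ ε (d.κ ω)) →
      ∃ q : d.V → Fin 4 → ℝ, Pe (pA F A) (fun ω =>
        ¬ (d.HesB (G (d.κ ω)) (q (d.κ ω)) (ex (-e') J * ε (d.κ ω)) (d.κ ω) ∧
          d.HesL U V' (q (d.κ ω)) (ex (-e') J * ε (d.κ ω)) ω)) ≤ c₀)

end Pool.PLN
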