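import Pool.Agent.H58.AFF.HesC

/-!
# The sheets of the labels are affine: proof in a class
-/

set_option autoImplicit false

namespace Pool.PLN

open Finset Real MvPolynomial
open Pool.Agent.H49.Ent Pool.Agent.H32.Dense Pool.STK Pool.KA Pool.KSAT Pool.K2S Pool.PB Pool.STAT
  Pool.GEN Pool.S6C Pool.M3F Pool.CLO37
open Pool.AFF (cnv afv)

variable {m : ℕ}

theorem pe_pos_ex {Ω : Type} [Fintype Ω] {p : Ω → ℝ} (hp : ∀ ω, 0 ≤ p ω) {X : Ω → Prop}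
    (h : 0 < Pe p X) : ∃ ω, 0 < p ω ∧ X ω := by
  classical
  by_contra hcon
  push Not at hcon
  rw [Pe_eq] at h
  refine absurd h (not_lt.2 (le_of_eq (Finset.sum_eq_zero fun ω _ => ?_)))
  split_ifs with hX
  · by_contra h0
    exact hcon ω (lt_of_le_of_ne (hp ω) (Ne.symm h0)) hX
  · rfl

theorem const_le_exp (C : ℝ) {τ : ℝ} (hτ : 0 < τ) : ∃ J₀ : ℕ, ∀ J ≥ J₀, C ≤ Real.exp (τ * J) := by
  have hl2 : 0 < Real.log 2 := Real.log_pos one_lt_two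
  obtain ⟨J₀, h⟩ := const_le_ex C (show 0 < τ / Real.log 2 by positivity)
  refine ⟨J₀, fun J hJ => (h J hJ).trans (le_of_eq ?_)⟩
  unfold ex
  congr 1
  field_simp

/-- The final numbers. -/
theorem hes_fin {C₀ β h w e₁ e' X ε : ℝ} {J : ℕ} (hε : 0 ≤ ε) (hC : 0 ≤ C₀) (hX0 : 0 ≤ X)
    (hX : X ≤ 2 * ex (-w) J) (h4 : 4 * C₀ ≤ ex (-β) J) (h12 : 12 ≤ ex (-β) J)
    (he : e₁ = e' - w - 2 * β) (he' : 9 * β + h + 3 * w ≤ e') (hβ : 0 < β) (hh : 0 < h)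
    (hw : 0 ≤ w) :
    C₀ * (ex (-(2 * β)) J ^ 2 * ex (-β) J * (ex (-β) J * ε / ex h J)) * X ^ 2 ≤ ex (-e₁) J * ε ∧
    3 * X * (ex (-β) J * (ε + ex (-e₁) J * ε)) ≤ ex (-e') J * ε ∧ ex (-e₁) J ≤ ex (-e') J := by
  have pw := ex_pos (-w) J
  have pb := ex_pos (-β) J
  have ph := ex_pos h J
  have e1p : 0 < e₁ := by linarith
  refine ⟨?_, ?_, ex_le (by linarith) J⟩
  · have a1 : X ^ 2 ≤ 4 * ex (-w) J ^ 2 := by
      calc X ^ 2 ≤ (2 * ex (-w) J) ^ 2 := pow_le_pow_left₀ hX0 hX 2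
        _ = _ := by ring
    have a2 : 0 ≤ C₀ * (ex (-(2 * β)) J ^ 2 * ex (-β) J * (ex (-β) J * ε / ex h J)) := by
      positivity
    have a3 : ex (-(2 * β)) J ^ 2 * ex (-β) J * (ex (-β) J / ex h J) * ex (-w) J ^ 2 =
        ex (-(6 * β + h + 2 * w)) J := by
      rw [div_eq_mul_inv, ← ex_neg, ex_pow, ex_pow, ← ex_add, ← ex_add, ← ex_add, ← ex_add]
      congr 1
      push_cast
      ring
    calc _ ≤ C₀ * (ex (-(2 * β)) J ^ 2 * ex (-β) J * (ex (-β) J * ε / ex h J)) *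
          (4 * ex (-w) J ^ 2) := mul_le_mul_of_nonneg_left a1 a2
      _ = 4 * C₀ * (ex (-(2 * β)) J ^ 2 * ex (-β) J * (ex (-β) J / ex h J) *
          ex (-w) J ^ 2) * ε := by ring
      _ = 4 * C₀ * ex (-(6 * β + h + 2 * w)) J * ε := by rw [a3]
      _ ≤ ex (-e₁) J * ε := by
          refine mul_le_mul_of_nonneg_right ?_ hε
          refine mul_ex_le (h4.trans (ex_le ?_ J))
          linarith
  · have a1 : (1 : ℝ) ≤ ex (-e₁) J := one_le_ex (by linarith) J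
    have a2 : ε + ex (-e₁) J * ε ≤ 2 * ex (-e₁) J * ε := by
      have := mul_le_mul_of_nonneg_right a1 hε
      linarith
    have a3 : ex (-w) J * ex (-β) J * ex (-e₁) J = ex (-(w + β + e₁)) J := by
      rw [← ex_add, ← ex_add]
      congr 1
      ring
    calc 3 * X * (ex (-β) J * (ε + ex (-e₁) J * ε)) ≤
          3 * (2 * ex (-w) J) * (ex (-β) J * (2 * ex (-e₁) J * ε)) := by
          refine mul_le_mul (by linarith) (mul_le_mul_of_nonneg_left a2 pb.le) ?_ (by positivity)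
          have := ex_pos (-e₁) J
          positivity
      _ = 12 * (ex (-w) J * ex (-β) J * ex (-e₁) J) * ε := by ring
      _ = 12 * ex (-(w + β + e₁)) J * ε := by rw [a3]
      _ ≤ ex (-e') J * ε := by
          refine mul_le_mul_of_nonneg_right ?_ hε
          refine mul_ex_le (h12.trans (ex_le ?_ J))
          linarith

/-- **(HES) in a class.** -/
theorem hesS {S : PCl m}
    (hmem : ∀ (τ : ℝ) (J : ℕ) (F : Fam m J) (A : F.Ω → Prop), S.St τ J F A →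
      Real.exp (-(τ * J)) ≤ Pe F.p A)
    {c : ℕ → Fin m} {N N₁ : Nums} {K K₁ K' D : ℕ} {h e' c₀ : ℝ}
    (hw0 : 0 ≤ N₁.w0) (hw01 : N₁.w0 ≤ N₁.w1) (hh : 0 < h) (hw1 : N₁.w1 + h < 1)
    (hg0 : N₁.g 0 + h < 1) (hg1 : N₁.g 1 + h < 1) (hw2 : N₁.w1 < N₁.g 2)
    (hg02 : N₁.g 0 < N₁.g 2) (hg12 : N₁.g 1 < N₁.g 2) (hG0 : N₁.g0 1 < 1) (hD : 1 ≤ D)
    (hKD : K' ≤ D) (he : 3 * (N₁.w1 - N₁.w0) + h < e') (hc₀ : 0 < c₀)
    (hcon : ∀ c₁ : ℝ, 0 < c₁ → ConS S c N K h c₁)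
    (hez : ∀ b c₁ : ℝ, 0 < b → 0 < c₁ → EzS S c N K b c₁)
    (hwin : ∀ b c₁ : ℝ, 0 < b → 0 < c₁ → WinS S c N₁ K₁ D b c₁)
    (hlr : ∀ b c₁ : ℝ, 0 < b → 0 < c₁ → ∃ q : ℝ, LrS S c N₁ K₁ D q b c₁) :
    HesS S c N N₁ K K₁ K' e' c₀ := by
  classical
  obtain ⟨C₀, hC₀, hmb⟩ := hes_mem D hD
  obtain ⟨γ, hγ⟩ : ∃ γ : ℝ, γ = max N₁.w1 (max (N₁.g 0) (N₁.g 1)) := ⟨_, rfl⟩
  have hγw : N₁.w1 ≤ γ := hγ ▸ le_max_left _ _
  have hγ0 : N₁.g 0 ≤ γ := hγ ▸ (le_max_left _ _).trans (le_max_right _ _)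
  have hγ1 : N₁.g 1 ≤ γ := hγ ▸ (le_max_right _ _).trans (le_max_right _ _)
  have hγ2 : γ < N₁.g 2 := by
    rw [hγ]
    exact max_lt hw2 (max_lt hg02 hg12)
  have hγh : γ < 1 - h := by
    rw [hγ]
    exact max_lt (by linarith) (max_lt (by linarith) (by linarith))
  obtain ⟨w, hw⟩ : ∃ w : ℝ, w = N₁.w1 - N₁.w0 := ⟨_, rfl⟩
  have hww : 0 ≤ w := by
    rw [hw]
    linarith
  rw [← hw] at he
  obtain ⟨β, hβe⟩ : ∃ β : ℝ, β = min (min ((N₁.g 2 - γ) / 4) ((1 - γ - h) / 8))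
      ((e' - h - 3 * w) / 9) := ⟨_, rfl⟩
  have hβ : 0 < β := by
    rw [hβe]
    exact lt_min (lt_min (by linarith) (by linarith)) (by linarith)
  have hβ1 : β ≤ (N₁.g 2 - γ) / 4 := hβe ▸ (min_le_left _ _).trans (min_le_left _ _)
  have hβ2 : β ≤ (1 - γ - h) / 8 := hβe ▸ (min_le_left _ _).trans (min_le_right _ _)
  have hβ3 : β ≤ (e' - h - 3 * w) / 9 := hβe ▸ min_le_right _ _
  obtain ⟨e₁, he₁⟩ : ∃ e₁ : ℝ, e₁ = e' - w - 2 * β := ⟨_, rfl⟩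
  obtain ⟨c₃, hc₃⟩ : ∃ c₃ : ℝ, c₃ = min (c₀ / 2) (1 / 8) := ⟨_, rfl⟩
  have hc₃0 : 0 < c₃ := by
    rw [hc₃]
    exact lt_min (by linarith) (by norm_num)
  obtain ⟨φ₁, hφ₁, τ₁, hτ₁, J₁, H₁⟩ := hcon (1 / 8) (by norm_num)
  obtain ⟨φ₂, hφ₂, τ₂, hτ₂, J₂, H₂⟩ := hez β (1 / 8) hβ (by norm_num)
  obtain ⟨φ₃, hφ₃, τ₃, hτ₃, J₃, H₃⟩ := hwin β c₃ hβ hc₃0
  obtain ⟨q₀, φ₄, hφ₄, τ₄, hτ₄, J₄, H₄⟩ := hlr β (1 / 4) hβ (by norm_num)
  obtain ⟨φ₅, hφ₅, J₅, H₅⟩ := nms_cls (m := m) hw0 hw01 (by linarith) (by linarith) (by linarith)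
    (N := N₁)
  obtain ⟨φ₆, hφ₆, J₆, H₆⟩ := hes_num (m := m) (N := N₁) (C := C₀) (hw0.trans hw01) hβ hγw hγ0 hγ1
    (by linarith) hG0
  obtain ⟨J₇, H₇⟩ := const_le_ex 8 hβ
  obtain ⟨J₈, H₈⟩ := const_le_ex C₀ hβ
  obtain ⟨J₉, H₉⟩ := const_le_ex (4 * C₀) hβ
  obtain ⟨J₁₀, H₁₀⟩ := const_le_ex 12 hβ
  obtain ⟨φ, hφe⟩ : ∃ φ, φ = min (min (min φ₁ φ₂) (min φ₃ φ₄)) (min φ₅ φ₆) := ⟨_, rfl⟩
  have hφ : 0 < φ := by
    rw [hφe]
    exact lt_min (lt_min (lt_min hφ₁ hφ₂) (lt_min hφ₃ hφ₄)) (lt_min hφ₅ hφ₆)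
  have p₁ : φ ≤ φ₁ := hφe ▸ (min_le_left _ _).trans ((min_le_left _ _).trans (min_le_left _ _))
  have p₂ : φ ≤ φ₂ := hφe ▸ (min_le_left _ _).trans ((min_le_left _ _).trans (min_le_right _ _))
  have p₃ : φ ≤ φ₃ := hφe ▸ (min_le_left _ _).trans ((min_le_right _ _).trans (min_le_left _ _))
  have p₄ : φ ≤ φ₄ := hφe ▸ (min_le_left _ _).trans ((min_le_right _ _).trans (min_le_right _ _))
  have p₅ : φ ≤ φ₅ := hφe ▸ (min_le_right _ _).trans (min_le_left _ _)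
  have p₆ : φ ≤ φ₆ := hφe ▸ (min_le_right _ _).trans (min_le_right _ _)
  obtain ⟨τ, hτe⟩ : ∃ τ, τ = min (min τ₁ τ₂) (min τ₃ τ₄) / 3 := ⟨_, rfl⟩
  have hτm : 0 < min (min τ₁ τ₂) (min τ₃ τ₄) := lt_min (lt_min hτ₁ hτ₂) (lt_min hτ₃ hτ₄)
  have hτ : 0 < τ := by
    rw [hτe]
    linarith
  have hτ3 : 3 * τ = min (min τ₁ τ₂) (min τ₃ τ₄) := by
    rw [hτe]
    ring
  have t₁ : 3 * τ ≤ τ₁ := hτ3 ▸ (min_le_left _ _).trans (min_le_left _ _)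
  have t₂ : 3 * τ ≤ τ₂ := hτ3 ▸ (min_le_left _ _).trans (min_le_right _ _)
  have t₃ : 3 * τ ≤ τ₃ := hτ3 ▸ (min_le_right _ _).trans (min_le_left _ _)
  have t₄ : 3 * τ ≤ τ₄ := hτ3 ▸ (min_le_right _ _).trans (min_le_right _ _)
  obtain ⟨J₁₁, H₁₁⟩ := const_le_exp (2 / c₀ + 2) hτ
  refine ⟨φ, hφ, τ, hτ, J₁ + J₂ + J₃ + J₄ + J₅ + J₆ + J₇ + J₈ + J₉ + J₁₀ + J₁₁, ?_⟩
  intro J hJ F A hS d₀ d hEz G ε U V' hGd hU
  have j₁ : J₁ ≤ J := by omega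
  have j₂ : J₂ ≤ J := by omega
  have j₃ : J₃ ≤ J := by omega
  have j₄ : J₄ ≤ J := by omega
  have j₅ : J₅ ≤ J := by omega
  have j₆ : J₆ ≤ J := by omega
  have K₇ := H₇ J (by omega)
  have K₈ := H₈ J (by omega)
  have K₉ := H₉ J (by omega)
  have K₁₀ := H₁₀ J (by omega)
  have K₁₁ := H₁₁ J (by omega)
  clear hJ
  have hexp : Real.exp (-(τ * J)) ≤ min (c₀ / 2) (1 / 2) := by
    have a1 : 0 < 2 / c₀ + 2 := by positivity
    have a2 : 0 < Real.exp (τ * J) := Real.exp_pos _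
    rw [Real.exp_neg]
    refine le_min ?_ ?_
    · rw [inv_le_comm₀ a2 (by positivity), inv_div]
      linarith
    · rw [inv_le_comm₀ a2 (by norm_num)]
      have : 0 < 2 / c₀ := by positivity
      norm_num
      linarith
  have hexp1 : Real.exp (-(τ * J)) ≤ c₀ / 2 := hexp.trans (min_le_left _ _)
  have hexp2 : Real.exp (-(τ * J)) ≤ 1 / 2 := hexp.trans (min_le_right _ _)
  have hA : 0 < Pe F.p A := lt_of_lt_of_le (Real.exp_pos _) (hmem τ J F A hS)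
  have hpl : IsLaw (pA F A) := isLaw_cond F.isLaw hA
  have hN : d.Nms := H₅ φ hφ p₅ J j₅ d
  have hGd' : ∀ κ, (G κ).totalDegree ≤ D := fun κ => (hGd κ).trans hKD
  have pb := ex_pos (-β) J
  have p0 : (0 : ℝ) < 2 ^ ⌊N₁.w0 * J⌋₊ := by positivity
  have hX0 : (0 : ℝ) ≤ 2 ^ ⌊N₁.w1 * J⌋₊ / 2 ^ ⌊N₁.w0 * J⌋₊ := by positivity
  have hX : (2 : ℝ) ^ ⌊N₁.w1 * J⌋₊ / 2 ^ ⌊N₁.w0 * J⌋₊ ≤ 2 * ex (-w) J := by
    rw [div_le_iff₀ p0]
    have a1 := floor_le_ex (hw0.trans hw01) J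
    have a2 := ex_le_floor N₁.w0 J
    have a3 := ex_pos (-w) J
    calc (2 : ℝ) ^ ⌊N₁.w1 * J⌋₊ ≤ ex (-N₁.w1) J := a1
      _ = ex (-w) J * ex (-N₁.w0) J := by
          rw [← ex_add]
          congr 1
          rw [hw]
          ring
      _ ≤ ex (-w) J * (2 * 2 ^ ⌊N₁.w0 * J⌋₊) := mul_le_mul_of_nonneg_left a2 a3.le
      _ = _ := by ring
  have hfin : ∀ x : ℝ, 0 ≤ x → _ := fun x hx => hes_fin (J := J) (ε := x) (h := h) (w := w)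
    (e₁ := e₁) (e' := e') (β := β) (C₀ := C₀)
    (X := (2 : ℝ) ^ ⌊N₁.w1 * J⌋₊ / 2 ^ ⌊N₁.w0 * J⌋₊) hx (by linarith) hX0 hX K₉ K₁₀ he₁
    (by linarith) hβ hh hww
  have hJδ : (1 : ℝ) / 2 ^ J ≤ ex (γ + β) J := by
    have a1 : (1 : ℝ) / 2 ^ J = ex 1 J := by
      have a2 := ex_neg_one J
      rw [← a2, ex_neg, one_div, inv_inv]
    rw [a1]
    exact ex_le (by linarith) J
  obtain ⟨n₁, -, -, -⟩ := H₆ φ hφ p₆ J j₆ d
  have hw3 := H₃ J j₃ F A (S.mono (by linarith) hS) (d.mono p₃)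
  -- the bad labels
  obtain ⟨Bad, hBad⟩ : ∃ Bad : F.Ω → Prop, Bad = fun ω => ¬ ∃ q, d.HesB (G (d.κ ω)) q
      (ex (-e₁) J * ε (d.κ ω)) (d.κ ω) := ⟨_, rfl⟩
  have hclaim : Pe (pA F A) Bad ≤ c₀ / 2 := by
    by_contra hcon'
    push Not at hcon'
    obtain ⟨A', hA'⟩ : ∃ A' : F.Ω → Prop, A' = fun ω => A ω ∧ Bad ω := ⟨_, rfl⟩
    have hsub : Sub A' A := by
      rw [hA']
      exact fun ω h => h.1
    have hPA' : c₀ / 2 * Pe F.p A ≤ Pe F.p A' := by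
      rw [hA', ← pe_cond hA]
      exact mul_le_mul_of_nonneg_right hcon'.le hA.le
    have hS' : S.St (τ + τ) J F A' := S.res hτ.le hS hsub
      ((mul_le_mul_of_nonneg_right hexp1 hA.le).trans hPA')
    have hA'0 : 0 < Pe F.p A' := lt_of_lt_of_le (Real.exp_pos _) (hmem _ J F A' hS')
    have hpl' : IsLaw (pA F A') := isLaw_cond F.isLaw hA'0
    have G₁ := H₁ J j₁ F A' (S.mono (by linarith) hS') ((d₀.sub hsub).mono p₁)
      (fun ξ => nmq (cnv (G (d.z ξ)) (nfr ⌊N₁.w0 * J⌋₊ d.G0 (d.a (d.pr (d.z ξ)))) (px3 c ξ)))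
      (fun ξ => nmq_nq _)
    have G₂ := H₂ J j₂ F A' (S.mono (by linarith) hS') ((d₀.sub hsub).mono p₂)
    have G₃ := H₃ J j₃ F A' (S.mono (by linarith) hS') ((d.sub hsub).mono p₃)
    -- the good samples
    obtain ⟨B₁, hB₁⟩ : ∃ B₁ : F.Ω → Prop, B₁ = fun ω => |qd (nmq (cnv (G (d.κ ω))
      (nfr ⌊N₁.w0 * J⌋₊ d.G0 (d.a (d.pr (d.κ ω)))) (px3 c (ptr F J ω)))) (F.d ω (c 0))
        (d₀.Ez ω)| ≤ ex h J := ⟨_, rfl⟩
    obtain ⟨B₂, hB₂⟩ : ∃ B₂ : F.Ω → Prop, B₂ = fun ω => ¬ |d₀.Ez ω| ≤ ex (-β) J := ⟨_, rfl⟩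
    obtain ⟨B₃, hB₃⟩ : ∃ B₃ : F.Ω → Prop,
      B₃ = fun ω => ¬ (d.sub hsub).Win D (ex (-β) J) ω := ⟨_, rfl⟩
    have f₁ : Pe (pA F A') B₁ ≤ 1 / 8 := by
      rw [hB₁]
      exact G₁
    have f₂ : Pe (pA F A') B₂ ≤ 1 / 8 := by
      rw [hB₂]
      exact G₂
    have f₃ : Pe (pA F A') B₃ ≤ 1 / 8 := by
      rw [hB₃]
      refine le_trans ?_ (min_le_right (c₀ / 2) (1 / 8))
      rw [← hc₃]
      exact G₃
    obtain ⟨A'', hA''⟩ : ∃ A'' : F.Ω → Prop, A'' = fun ω => A' ω ∧ ¬ (B₁ ω ∨ B₂ ω ∨ B₃ ω) :=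
      ⟨_, rfl⟩
    have hsub2 : Sub A'' A' := by
      rw [hA'']
      exact fun ω h => h.1
    have hgood : 1 / 2 ≤ Pe (pA F A') (fun ω => ¬ (B₁ ω ∨ B₂ ω ∨ B₃ ω)) := by
      have a1 := pe_not hpl' (fun ω => B₁ ω ∨ B₂ ω ∨ B₃ ω)
      have a2 := pe_le_add hpl'.nonneg (A := fun ω => B₁ ω ∨ B₂ ω ∨ B₃ ω) (B := B₁)
        (C := fun ω => B₂ ω ∨ B₃ ω) (fun ω _ h => h)
      have a3 := pe_le_add hpl'.nonneg (A := fun ω => B₂ ω ∨ B₃ ω) (B := B₂)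
        (C := B₃) (fun ω _ h => h)
      linarith
    have hPA'' : 1 / 2 * Pe F.p A' ≤ Pe F.p A'' := by
      rw [hA'', ← pe_cond hA'0]
      exact mul_le_mul_of_nonneg_right hgood hA'0.le
    have hS'' : S.St (τ + τ + τ) J F A'' := S.res hτ.le hS' hsub2
      ((mul_le_mul_of_nonneg_right hexp2 hA'0.le).trans hPA'')
    have hA''0 : 0 < Pe F.p A'' := lt_of_lt_of_le (Real.exp_pos _) (hmem _ J F A'' hS'')
    have hpl'' : IsLaw (pA F A'') := isLaw_cond F.isLaw hA''0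
    have G₄ := H₄ J j₄ F A'' (S.mono (by linarith) hS'') (((d.sub hsub).sub hsub2).mono p₄)
    obtain ⟨ω₀, hω₀p, hω₀L⟩ : ∃ ω, 0 < pA F A'' ω ∧
        ((d.sub hsub).sub hsub2).Lr D ⌊q₀ * J⌋₊ (ex (-β) J) ω := by
      refine pe_pos_ex hpl''.nonneg ?_
      have a1 := pe_not hpl'' (fun ω =>
        ((d.sub hsub).sub hsub2).Lr D ⌊q₀ * J⌋₊ (ex (-β) J) ω)
      have a2 : Pe (pA F A'') (fun ω =>
          ¬ ((d.sub hsub).sub hsub2).Lr D ⌊q₀ * J⌋₊ (ex (-β) J) ω) ≤ 1 / 4 := G₄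
      linarith
    obtain ⟨hω₀, hpω₀⟩ := pA_pos hω₀p
    have hgd : ∀ ω, A'' ω → ¬ B₁ ω ∧ ¬ B₂ ω ∧ ¬ B₃ ω := by
      intro ω hω
      rw [hA''] at hω
      obtain ⟨-, h2⟩ := hω
      push Not at h2
      exact h2
    have hN'' : ((d.sub hsub).sub hsub2).Nms := H₅ φ hφ p₅ J j₅ _
    obtain ⟨m₁, m₂, m₃, m₄⟩ := H₆ φ hφ p₆ J j₆ ((d.sub hsub).sub hsub2)
    have hU' : ∀ ω, A' ω → 0 < F.p ω → |U (slam F ⌊N₁.w1 * J⌋₊ ω) +
        F.t ω * V' (slam F ⌊N₁.w1 * J⌋₊ ω) - eval (lpt F c ω (F.t ω)) (G (d.κ ω))| ≤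
        ε (d.κ ω) := fun ω h1 h2 => hU ω (hsub ω h1) h2
    have hε : 0 ≤ ε (d.κ ω₀) := (abs_nonneg _).trans (hU' ω₀ (hsub2 ω₀ hω₀) hpω₀)
    obtain ⟨p, hp⟩ := hmb ((d.sub hsub).sub hsub2) hN'' hω₀ hpω₀ (q := ⌊q₀ * J⌋₊)
      (H := ex (-β) J) (δ := ex (γ + β) J) (B := ex (-β) J) (e₀ := ex h J)
      (Δ := ex (-(2 * β)) J) (ε := ex (-β) J * ε (d.κ ω₀)) (G := G (d.κ ω₀))
      (U := fun ω => U (slam F ⌊N₁.w1 * J⌋₊ ω)) (V := fun ω => V' (slam F ⌊N₁.w1 * J⌋₊ ω))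
      (a := d.a (d.pr (d.κ ω₀))) rfl hω₀L (one_le_ex (by linarith) J) (ex_pos _ _) m₁ m₂
      (one_le_ex (by linarith) J) (ex_pos _ _) (hGd' _) hJδ (by
        -- the rounding
        have a1 : (1 : ℝ) / 2 ^ J = ex 1 J := by
          have a2 := ex_neg_one J
          rw [← a2, ex_neg, one_div, inv_inv]
        rw [a1, ← ex_sub, ex_pow, ← ex_add]
        push_cast
        have a3 : C₀ * ex (2 * -β + -β) J * ex (1 - (γ + β)) J =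
            C₀ * ex (1 - γ - 4 * β) J := by
          rw [mul_assoc, ← ex_add]
          congr 2
          ring
        rw [a3]
        refine mul_ex_le (K₈.trans (ex_le ?_ J))
        linarith) (by
        have a1 := m₃ ω₀ hω₀
        have a2 := d.prz ω₀ (hsub ω₀ (hsub2 ω₀ hω₀))
        have a3 : d.a (d.zz (ptr F J ω₀)) = d.a (d.pr (d.κ ω₀)) := by
          rw [a2]
          rfl
        have a4 : (1 + |d.a (d.zz (ptr F J ω₀)) 2|) * 2 ^ d.G0 ≤ (2 : ℝ) ^ J := a1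
        rw [a3] at a4
        exact a4) (by
        have a1 : ex (-β) J ≤ ex (-(2 * β)) J := ex_le (by linarith) J
        linarith) m₄ (by
        refine mul_ex_le (K₇.trans (ex_le ?_ J))
        linarith) (by
        intro ω h1 _ _
        have h2 := (hgd ω h1).2.1
        rw [hB₂] at h2
        have h3 := not_not.1 h2
        rw [← hEz] at h3
        exact h3) (by
        intro ω h1 h2 h3 t ht
        have h4 := (hgd ω h1).2.2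
        rw [hB₃] at h4
        have h5 := win_line (d.sub hsub) hD hGd' hU' (ex_pos (-β) J).le (hsub2 ω h1) h2
          (not_not.1 h4) ht
        have h6 : d.κ ω = d.κ ω₀ := h3
        have h7 : (d.sub hsub).κ ω = d.κ ω₀ := h6
        rw [h7] at h5
        exact h5) (by
        intro ω h1 h2 h3 k
        have h4 := (hgd ω h1).1
        rw [hB₁] at h4
        have h5 := (not_le.1 h4).le
        have h6 : d.κ ω = d.κ ω₀ := h3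
        rw [h6, ← hEz] at h5
        exact nmq_qd h5 k)
    have hb : Bad ω₀ := by
      have h1 := hsub2 ω₀ hω₀
      rw [hA'] at h1
      exact h1.2
    rw [hBad] at hb
    refine hb ⟨p, fun b hb => ?_⟩
    refine (hp b hb).trans ?_
    exact (hfin _ hε).1
  -- the choice
  obtain ⟨qf, hqf⟩ : ∃ qf : d.V → Fin 4 → ℝ, qf = fun κ =>
      if hx : ∃ q, d.HesB (G κ) q (ex (-e₁) J * ε κ) κ then hx.choose else 0 := ⟨_, rfl⟩
  refine ⟨qf, ?_⟩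
  have hW : Pe (pA F A) (fun ω => ¬ d.Win D (ex (-β) J) ω) ≤ c₀ / 2 := by
    refine le_trans hw3 ?_
    rw [hc₃]
    exact min_le_left _ _
  have hsum : c₀ / 2 + c₀ / 2 = c₀ := by ring
  rw [← hsum]
  refine le_trans (pe_le_add hpl.nonneg (B := Bad) (C := fun ω => ¬ d.Win D (ex (-β) J) ω)
    fun ω hω hbad => ?_) (add_le_add hclaim hW)
  obtain ⟨hωA, hωp⟩ := pA_pos hω
  by_contra hcon'
  push Not at hcon'
  obtain ⟨h1, h2⟩ := hcon'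
  rw [hBad] at h1
  have h3 := not_not.1 h1
  have hε : 0 ≤ ε (d.κ ω) := (abs_nonneg _).trans (hU ω hωA hωp)
  have h4 : d.HesB (G (d.κ ω)) (qf (d.κ ω)) (ex (-e₁) J * ε (d.κ ω)) (d.κ ω) := by
    rw [hqf]
    simp only [dif_pos h3]
    exact h3.choose_spec
  obtain ⟨-, f2, f3⟩ := hfin _ hε
  refine hbad ⟨fun b hb => (h4 b hb).trans (mul_le_mul_of_nonneg_right f3 hε), fun t ht => ?_⟩
  have h5 := hesL_of d hN hD hU pb.le n₁ hJδ hωA hωp h2 h4 t ht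
  exact h5.trans f2

end Pool.PLN
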