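import Pool.Agent.H92.M5.Lag
import Mathlib.Analysis.Complex.Polynomial.Basic

/-!
# Polynomials in two variables: values and coefficients
-/

set_option autoImplicit false

namespace Pool.AFF

open Finset Polynomial

/-- The value of a polynomial of degree `D` in two variables, ordered by the forms. -/
def pv (D : ℕ) (b : ℕ → ℕ → ℝ) (e w : ℝ) : ℝ :=
  ∑ r ∈ range (D + 1), ∑ k ∈ range (r + 1), b r k * (e ^ (r - k) * w ^ k)

/-- A form. -/
def pr (b : ℕ → ℕ → ℝ) (r : ℕ) (e w : ℝ) : ℝ := ∑ k ∈ range (r + 1), b r k * (e ^ (r - k) * w ^ k)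

theorem pv_eq (D : ℕ) (b : ℕ → ℕ → ℝ) (e w : ℝ) :
    pv D b e w = ∑ r ∈ range (D + 1), pr b r e w := rfl

/-- A form is homogeneous. -/
theorem pr_mul (b : ℕ → ℕ → ℝ) (r : ℕ) (x e w : ℝ) : pr b r (e * x) (w * x) = x ^ r * pr b r e w := by
  unfold pr
  rw [Finset.mul_sum]
  refine Finset.sum_congr rfl fun k hk => ?_
  have h1 : r = (r - k) + k := by
    have := Finset.mem_range.1 hk
    omega
  have h2 : x ^ r = x ^ (r - k) * x ^ k := by
    rw [← pow_add]
    exact congrArg _ h1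
  rw [mul_pow, mul_pow, h2]
  ring

/-- The form in the slope. -/
theorem pr_slope (b : ℕ → ℕ → ℝ) (r : ℕ) {e w : ℝ} (he : e ≠ 0) :
    pr b r e w = e ^ r * ∑ k ∈ range (r + 1), b r k * (w / e) ^ k := by
  have h1 := pr_mul b r e 1 (w / e)
  rw [one_mul, div_mul_cancel₀ _ he] at h1
  rw [h1]
  congr 1
  unfold pr
  refine Finset.sum_congr rfl fun k _ => ?_
  rw [one_pow, one_mul]

/-- The coefficients from the values at separated nodes. -/
theorem cf_le {n : ℕ} (c : ℕ → ℝ) (t : Fin n → ℝ) {κ M : ℝ} (hκ : 0 < κ) (hκ1 : κ ≤ 1)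
    (ht : ∀ i, |t i| ≤ 1) (hsep : ∀ i j, i ≠ j → κ ≤ |t i - t j|)
    (h : ∀ i, |∑ b ∈ range n, c b * t i ^ b| ≤ M) {a : ℕ} (ha : a < n) :
    |c a| ≤ n * (2 / κ) ^ n * M := by
  obtain ⟨γ, hγ, h1⟩ := Pool.M5.exists_coeffs n t κ hκ hκ1 ht hsep
  have h2 : c a = ∑ p, γ p ⟨a, ha⟩ * ∑ b ∈ range n, c b * t p ^ b := by
    have e1 : ∀ p, γ p ⟨a, ha⟩ * ∑ b ∈ range n, c b * t p ^ b =
        ∑ b : Fin n, c b * (γ p ⟨a, ha⟩ * t p ^ (b : ℕ)) := by
      intro p
      rw [Finset.sum_range, Finset.mul_sum]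
      exact Finset.sum_congr rfl fun b _ => by ring
    simp only [e1]
    rw [Finset.sum_comm]
    have e2 : ∀ b : Fin n, ∑ p, c b * (γ p ⟨a, ha⟩ * t p ^ (b : ℕ)) =
        if (⟨a, ha⟩ : Fin n) = b then c b else 0 := by
      intro b
      rw [← Finset.mul_sum, h1]
      split_ifs <;> simp
    simp only [e2]
    rw [Finset.sum_ite_eq]
    simp
  rw [h2]
  refine (Finset.abs_sum_le_sum_abs _ _).trans ?_
  have h3 : ∀ p ∈ (univ : Finset (Fin n)), |γ p ⟨a, ha⟩ * ∑ b ∈ range n, c b * t p ^ b| ≤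
      (2 / κ) ^ n * M := by
    intro p _
    rw [abs_mul]
    exact mul_le_mul (hγ p _) (h p) (abs_nonneg _) (by positivity)
  refine (Finset.sum_le_sum h3).trans ?_
  rw [Finset.sum_const, Finset.card_univ, Fintype.card_fin, nsmul_eq_mul, mul_assoc]

/-- The same with nodes in a larger interval. -/
theorem cf_le_B {n : ℕ} (c : ℕ → ℝ) (t : Fin n → ℝ) {κ M B : ℝ} (hκ : 0 < κ) (hB : 1 ≤ B)
    (hκ1 : κ ≤ B) (ht : ∀ i, |t i| ≤ B) (hsep : ∀ i j, i ≠ j → κ ≤ |t i - t j|)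
    (h : ∀ i, |∑ b ∈ range n, c b * t i ^ b| ≤ M) {a : ℕ} (ha : a < n) :
    |c a| ≤ n * (2 * B / κ) ^ n * M := by
  have hB0 : 0 < B := by linarith
  have h1 := cf_le (fun b => c b * B ^ b) (fun i => t i / B) (κ := κ / B) (M := M)
    (by positivity) ((div_le_one hB0).2 hκ1) (fun i => by
      rw [abs_div, abs_of_pos hB0, div_le_one hB0]
      exact ht i) (fun i j hij => by
      rw [← sub_div, abs_div, abs_of_pos hB0]
      exact div_le_div_of_nonneg_right (hsep i j hij) hB0.le) (fun i => by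
      have e1 : ∑ b ∈ range n, c b * B ^ b * (t i / B) ^ b = ∑ b ∈ range n, c b * t i ^ b := by
        refine Finset.sum_congr rfl fun b _ => ?_
        rw [mul_assoc, ← mul_pow, mul_div_cancel₀ _ hB0.ne']
      simp only [e1]
      exact h i) ha
  have h2 : 2 / (κ / B) = 2 * B / κ := by
    field_simp
  rw [h2] at h1
  refine le_trans ?_ h1
  rw [abs_mul, abs_of_pos (pow_pos hB0 a)]
  exact le_mul_of_one_le_right (abs_nonneg _) (one_le_pow₀ hB)

/-- The bound of a polynomial. -/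
theorem pv_bd {D : ℕ} {b : ℕ → ℕ → ℝ} {τ B e w : ℝ} (hτ : ∀ r ≤ D, ∀ k ≤ r, |b r k| ≤ τ)
    (hB : 1 ≤ B) (he : |e| ≤ B) (hw : |w| ≤ B) : |pv D b e w| ≤ (D + 1) ^ 2 * B ^ D * τ := by
  have hB0 : 0 ≤ B := by linarith
  have hτ0 : 0 ≤ τ := (abs_nonneg _).trans (hτ 0 (Nat.zero_le _) 0 le_rfl)
  unfold pv
  have h1 : ∀ r ∈ range (D + 1), |∑ k ∈ range (r + 1), b r k * (e ^ (r - k) * w ^ k)| ≤
      (D + 1) * (B ^ D * τ) := by
    intro r hr
    have hr' : r ≤ D := Nat.lt_succ_iff.1 (Finset.mem_range.1 hr)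
    refine (Finset.abs_sum_le_sum_abs _ _).trans ?_
    have h2 : ∀ k ∈ range (r + 1), |b r k * (e ^ (r - k) * w ^ k)| ≤ B ^ D * τ := by
      intro k hk
      have hk' : k ≤ r := Nat.lt_succ_iff.1 (Finset.mem_range.1 hk)
      rw [abs_mul, abs_mul, abs_pow, abs_pow, mul_comm]
      refine mul_le_mul ?_ (hτ r hr' k hk') (abs_nonneg _) (by positivity)
      calc |e| ^ (r - k) * |w| ^ k ≤ B ^ (r - k) * B ^ k :=
            mul_le_mul (pow_le_pow_left₀ (abs_nonneg _) he _)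
              (pow_le_pow_left₀ (abs_nonneg _) hw _) (by positivity) (by positivity)
        _ = B ^ r := by
            rw [← pow_add]
            congr 1
            omega
        _ ≤ B ^ D := pow_le_pow_right₀ hB hr'
    refine (Finset.sum_le_sum h2).trans ?_
    rw [Finset.sum_const, Finset.card_range, nsmul_eq_mul]
    refine mul_le_mul_of_nonneg_right ?_ (by positivity)
    exact_mod_cast Nat.succ_le_succ hr'
  refine (Finset.abs_sum_le_sum_abs _ _).trans ((Finset.sum_le_sum h1).trans ?_)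
  rw [Finset.sum_const, Finset.card_range, nsmul_eq_mul]
  push_cast
  apply le_of_eq
  ring

/-- The bound of a form. -/
theorem pr_bd {r : ℕ} {b : ℕ → ℕ → ℝ} {τ B e w : ℝ} (hτ : ∀ k ≤ r, |b r k| ≤ τ)
    (hB : 1 ≤ B) (he : |e| ≤ B) (hw : |w| ≤ B) : |pr b r e w| ≤ (r + 1) * B ^ r * τ := by
  have hB0 : 0 ≤ B := by linarith
  unfold pr
  refine (Finset.abs_sum_le_sum_abs _ _).trans ?_
  have h2 : ∀ k ∈ range (r + 1), |b r k * (e ^ (r - k) * w ^ k)| ≤ B ^ r * τ := by
    intro k hk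
    have hk' : k ≤ r := Nat.lt_succ_iff.1 (Finset.mem_range.1 hk)
    rw [abs_mul, abs_mul, abs_pow, abs_pow, mul_comm]
    refine mul_le_mul ?_ (hτ k hk') (abs_nonneg _) (by positivity)
    calc |e| ^ (r - k) * |w| ^ k ≤ B ^ (r - k) * B ^ k :=
          mul_le_mul (pow_le_pow_left₀ (abs_nonneg _) he _)
            (pow_le_pow_left₀ (abs_nonneg _) hw _) (by positivity) (by positivity)
      _ = B ^ r := by
          rw [← pow_add]
          congr 1
          omega
  refine (Finset.sum_le_sum h2).trans ?_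
  rw [Finset.sum_const, Finset.card_range, nsmul_eq_mul]
  push_cast
  apply le_of_eq
  ring

/-- Powers are Lipschitz. -/
theorem pow_lip {B x y : ℝ} (hB : 1 ≤ B) (hx : |x| ≤ B) (hy : |y| ≤ B) (k : ℕ) :
    |x ^ k - y ^ k| ≤ k * B ^ k * |x - y| := by
  have hB0 : 0 ≤ B := by linarith
  induction k with
  | zero => simp
  | succ k ih =>
    have e1 : x ^ (k + 1) - y ^ (k + 1) = x * (x ^ k - y ^ k) + (x - y) * y ^ k := by ring
    rw [e1]
    refine (abs_add_le _ _).trans ?_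
    rw [abs_mul, abs_mul, abs_pow]
    have h1 : |x| * |x ^ k - y ^ k| ≤ B * (k * B ^ k * |x - y|) :=
      mul_le_mul hx ih (abs_nonneg _) hB0
    have h2 : |x - y| * |y| ^ k ≤ |x - y| * B ^ (k + 1) :=
      mul_le_mul_of_nonneg_left ((pow_le_pow_left₀ (abs_nonneg _) hy k).trans
        (pow_le_pow_right₀ hB (Nat.le_succ k))) (abs_nonneg _)
    push_cast
    calc _ ≤ B * (k * B ^ k * |x - y|) + |x - y| * B ^ (k + 1) := add_le_add h1 h2
      _ = _ := by ring

/-- A polynomial is Lipschitz in the second variable. -/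
theorem pv_lip {D : ℕ} {b : ℕ → ℕ → ℝ} {τ B e w w' : ℝ} (hτ : ∀ r ≤ D, ∀ k ≤ r, |b r k| ≤ τ)
    (hB : 1 ≤ B) (he : |e| ≤ B) (hw : |w| ≤ B) (hw' : |w'| ≤ B) :
    |pv D b e w - pv D b e w'| ≤ (D + 1) ^ 3 * B ^ D * τ * |w - w'| := by
  have hB0 : 0 ≤ B := by linarith
  have hτ0 : 0 ≤ τ := (abs_nonneg _).trans (hτ 0 (Nat.zero_le _) 0 le_rfl)
  unfold pv
  rw [← Finset.sum_sub_distrib]
  have h1 : ∀ r ∈ range (D + 1), |∑ k ∈ range (r + 1), b r k * (e ^ (r - k) * w ^ k) -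
      ∑ k ∈ range (r + 1), b r k * (e ^ (r - k) * w' ^ k)| ≤
      (D + 1) * ((D + 1) * B ^ D * τ * |w - w'|) := by
    intro r hr
    have hr' : r ≤ D := Nat.lt_succ_iff.1 (Finset.mem_range.1 hr)
    rw [← Finset.sum_sub_distrib]
    refine (Finset.abs_sum_le_sum_abs _ _).trans ?_
    have h2 : ∀ k ∈ range (r + 1), |b r k * (e ^ (r - k) * w ^ k) -
        b r k * (e ^ (r - k) * w' ^ k)| ≤ (D + 1) * B ^ D * τ * |w - w'| := by
      intro k hk
      have hk' : k ≤ r := Nat.lt_succ_iff.1 (Finset.mem_range.1 hk)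
      have e1 : b r k * (e ^ (r - k) * w ^ k) - b r k * (e ^ (r - k) * w' ^ k) =
          b r k * (e ^ (r - k) * (w ^ k - w' ^ k)) := by ring
      rw [e1, abs_mul, abs_mul, abs_pow]
      have h3 := pow_lip hB hw hw' k
      have h4 : |e| ^ (r - k) * |w ^ k - w' ^ k| ≤ B ^ (r - k) * (k * B ^ k * |w - w'|) :=
        mul_le_mul (pow_le_pow_left₀ (abs_nonneg _) he _) h3 (abs_nonneg _) (by positivity)
      have h5 : B ^ (r - k) * (k * B ^ k * |w - w'|) = k * B ^ r * |w - w'| := by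
        have : B ^ r = B ^ (r - k) * B ^ k := by
          rw [← pow_add]
          congr 1
          omega
        rw [this]
        ring
      have h6 : (k : ℝ) * B ^ r * |w - w'| ≤ (D + 1) * B ^ D * |w - w'| := by
        refine mul_le_mul_of_nonneg_right ?_ (abs_nonneg _)
        refine mul_le_mul ?_ (pow_le_pow_right₀ hB hr') (by positivity) (by positivity)
        have : k ≤ D + 1 := by omega
        exact_mod_cast this
      calc |b r k| * (|e| ^ (r - k) * |w ^ k - w' ^ k|)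
          ≤ τ * ((D + 1) * B ^ D * |w - w'|) :=
            mul_le_mul (hτ r hr' k hk') ((h4.trans (le_of_eq h5)).trans h6) (by positivity) hτ0
        _ = _ := by ring
    refine (Finset.sum_le_sum h2).trans ?_
    rw [Finset.sum_const, Finset.card_range, nsmul_eq_mul]
    refine mul_le_mul_of_nonneg_right ?_ (by positivity)
    exact_mod_cast Nat.succ_le_succ hr'
  refine (Finset.abs_sum_le_sum_abs _ _).trans ((Finset.sum_le_sum h1).trans ?_)
  rw [Finset.sum_const, Finset.card_range, nsmul_eq_mul]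
  push_cast
  apply le_of_eq
  ring

/-- The value of a polynomial on a line through the origin. -/
theorem pv_line (D : ℕ) (b : ℕ → ℕ → ℝ) (β x : ℝ) :
    pv D b x (β * x) = ∑ r ∈ range (D + 1), pr b r 1 β * x ^ r := by
  rw [pv_eq]
  refine Finset.sum_congr rfl fun r _ => ?_
  have h1 := pr_mul b r x 1 β
  rw [one_mul] at h1
  rw [h1]
  ring

/-- The form at `1, β`. -/
theorem pr_one (b : ℕ → ℕ → ℝ) (r : ℕ) (β : ℝ) :
    pr b r 1 β = ∑ k ∈ range (r + 1), b r k * β ^ k := by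
  unfold pr
  refine Finset.sum_congr rfl fun k _ => ?_
  rw [one_pow, one_mul]

end Pool.AFF
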