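import Pool.Agent.H58.AFF.Fan
import Pool.Agent.H37.M3F.Jts

/-!
# Polynomials the second derivatives of which are small in the directions of the lines

One leaf: `G` is a polynomial in three variables, which is near an affine function along the lines
of the samples `i`. If the conics of the second derivatives at the samples are not degenerate at the
velocities, and if the samples are norming for polynomials on the box, then all the second
derivatives are small on the box, and `G` is near an affine function.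
-/

set_option autoImplicit false

namespace Pool.AFF

open Finset MvPolynomial

/-- The polynomial of the second derivatives in two directions. -/
noncomputable def ddp (G : MvPolynomial (Fin 3) ℝ) (u w : Fin 3 → ℝ) : MvPolynomial (Fin 3) ℝ :=
  ∑ i, ∑ j, C (u i * w j) * pderiv i (pderiv j G)

theorem eval_ddp (G : MvPolynomial (Fin 3) ℝ) (u w b : Fin 3 → ℝ) :
    eval b (ddp G u w) = ∑ i, ∑ j, u i * w j * eval b (pderiv i (pderiv j G)) := by
  unfold ddp
  simp only [map_sum, map_mul, eval_C]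

theorem deg_pd {σ : Type*} (p : MvPolynomial σ ℝ) (i : σ) :
    (pderiv i p).totalDegree ≤ p.totalDegree := by
  classical
  rw [p.as_sum, map_sum]
  refine (totalDegree_finsetSum _ _).trans ?_
  rw [← p.as_sum]
  refine Finset.sup_le fun s hs => ?_
  rw [pderiv_monomial]
  refine (totalDegree_monomial_le _ _).trans ?_
  refine le_trans ?_ (le_totalDegree hs)
  have h1 : (s - Finsupp.single i 1) ≤ s := tsub_le_self
  exact Finsupp.sum_le_sum_index h1 (fun j _ => monotone_id) (fun j _ => rfl)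

theorem deg_ddp {K : ℕ} {G : MvPolynomial (Fin 3) ℝ} (hG : G.totalDegree ≤ K) (u w : Fin 3 → ℝ) :
    (ddp G u w).totalDegree ≤ K := by
  unfold ddp
  refine totalDegree_finsetSum_le fun i _ => totalDegree_finsetSum_le fun j _ => ?_
  refine (totalDegree_mul _ _).trans ?_
  rw [totalDegree_C, zero_add]
  exact (deg_pd _ _).trans ((deg_pd _ _).trans hG)

/-- The six coefficients of the conic of the second derivatives in the frame `n`. -/
noncomputable def cnp (G : MvPolynomial (Fin 3) ℝ) (n : Fin 3 → Fin 3 → ℝ) :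
    Fin 6 → MvPolynomial (Fin 3) ℝ :=
  ![ddp G (n 0) (n 0), ddp G (n 0) (n 1) + ddp G (n 1) (n 0), ddp G (n 0) (n 2) + ddp G (n 2) (n 0),
    ddp G (n 1) (n 1), ddp G (n 1) (n 2) + ddp G (n 2) (n 1), ddp G (n 2) (n 2)]

theorem deg_cnp {K : ℕ} {G : MvPolynomial (Fin 3) ℝ} (hG : G.totalDegree ≤ K)
    (n : Fin 3 → Fin 3 → ℝ) (k : Fin 6) : (cnp G n k).totalDegree ≤ K := by
  have h1 := deg_ddp hG
  fin_cases k
  · exact h1 _ _
  · exact (totalDegree_add _ _).trans (max_le (h1 _ _) (h1 _ _))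
  · exact (totalDegree_add _ _).trans (max_le (h1 _ _) (h1 _ _))
  · exact h1 _ _
  · exact (totalDegree_add _ _).trans (max_le (h1 _ _) (h1 _ _))
  · exact h1 _ _

/-- The conic at a point. -/
noncomputable def cnv (G : MvPolynomial (Fin 3) ℝ) (n : Fin 3 → Fin 3 → ℝ) (b : Fin 3 → ℝ)
    (k : Fin 6) : ℝ := eval b (cnp G n k)

/-- The second derivative in the direction `x n₀ + y n₁ + z n₂`. -/
theorem ddp_frame (G : MvPolynomial (Fin 3) ℝ) (n : Fin 3 → Fin 3 → ℝ) (b : Fin 3 → ℝ)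
    (x y z : ℝ) : eval b (ddp G (fun i => x * n 0 i + y * n 1 i + z * n 2 i)
      (fun i => x * n 0 i + y * n 1 i + z * n 2 i)) =
      cnv G n b 0 * x ^ 2 + cnv G n b 1 * (x * y) + cnv G n b 2 * (x * z) + cnv G n b 3 * y ^ 2 +
        cnv G n b 4 * (y * z) + cnv G n b 5 * z ^ 2 := by
  unfold cnv cnp
  simp only [Matrix.cons_val_zero, Matrix.cons_val_one, Matrix.cons_val, map_add, eval_ddp,
    Fin.sum_univ_three]
  ring

theorem ddp_qd (G : MvPolynomial (Fin 3) ℝ) (n : Fin 3 → Fin 3 → ℝ) (b : Fin 3 → ℝ)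
    (Ey Ez lam : ℝ) {D : Fin 3 → ℝ} (hD : ∀ i, D i = lam * (n 0 i + Ey * n 1 i + Ez * n 2 i)) :
    eval b (ddp G D D) = lam ^ 2 * Pool.PLN.qd (cnv G n b) Ey Ez := by
  have h1 := ddp_frame G n b lam (lam * Ey) (lam * Ez)
  have h2 : (fun i => lam * n 0 i + lam * Ey * n 1 i + lam * Ez * n 2 i) = D := by
    funext i
    rw [hD]
    ring
  rw [h2] at h1
  rw [h1]
  unfold Pool.PLN.qd
  ring

/-- The polynomial along a line. -/
noncomputable def lnp (G : MvPolynomial (Fin 3) ℝ) (x D : Fin 3 → ℝ) : Polynomial ℝ :=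
  aeval (fun i => Polynomial.C (x i) + Polynomial.C (D i) * Polynomial.X) G

theorem eval_lnp (G : MvPolynomial (Fin 3) ℝ) (x D : Fin 3 → ℝ) (τ : ℝ) :
    (lnp G x D).eval τ = eval (fun i => x i + D i * τ) G := by
  unfold lnp
  induction G using MvPolynomial.induction_on with
  | C a => simp
  | add p q hp hq => rw [map_add, Polynomial.eval_add, hp, hq, map_add]
  | mul_X p j hp => rw [map_mul, Polynomial.eval_mul, hp, aeval_X, map_mul, eval_X,
      Polynomial.eval_add, Polynomial.eval_mul, Polynomial.eval_C, Polynomial.eval_C,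
      Polynomial.eval_X]

theorem der_lnp (G : MvPolynomial (Fin 3) ℝ) (x D : Fin 3 → ℝ) :
    Polynomial.derivative (lnp G x D) = ∑ i, Polynomial.C (D i) * lnp (pderiv i G) x D := by
  unfold lnp
  rw [Pool.M3F.der_aev]
  refine Finset.sum_congr rfl fun i _ => ?_
  have h1 : Polynomial.derivative (Polynomial.C (x i) + Polynomial.C (D i) * Polynomial.X :
      Polynomial ℝ) = Polynomial.C (D i) := by
    rw [Polynomial.derivative_add, Polynomial.derivative_C, Polynomial.derivative_C_mul,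
      Polynomial.derivative_X, mul_one, zero_add]
  rw [h1, mul_comm]

theorem natDegree_lnp {K : ℕ} {G : MvPolynomial (Fin 3) ℝ} (hG : G.totalDegree ≤ K)
    (x D : Fin 3 → ℝ) : (lnp G x D).natDegree ≤ K := by
  classical
  unfold lnp
  rw [aeval_def, eval₂_eq]
  refine Polynomial.natDegree_sum_le_of_forall_le _ _ ?_
  intro α hα
  refine Polynomial.natDegree_mul_le.trans ?_
  have h0 : (algebraMap ℝ (Polynomial ℝ) (coeff α G)).natDegree = 0 := Polynomial.natDegree_C _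
  rw [h0, zero_add]
  refine (Polynomial.natDegree_prod_le _ _).trans ?_
  have h1 : ∀ i ∈ α.support, ((Polynomial.C (x i) + Polynomial.C (D i) * Polynomial.X :
      Polynomial ℝ) ^ α i).natDegree ≤ α i := by
    intro i _
    refine Polynomial.natDegree_pow_le.trans ?_
    have h2 : (Polynomial.C (x i) + Polynomial.C (D i) * Polynomial.X :
        Polynomial ℝ).natDegree ≤ 1 := by
      refine (Polynomial.natDegree_add_le _ _).trans (max_le ?_ ?_)
      · rw [Polynomial.natDegree_C]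
        exact Nat.zero_le _
      · exact (Polynomial.natDegree_C_mul_le _ _).trans Polynomial.natDegree_X_le
    calc _ ≤ α i * 1 := Nat.mul_le_mul_left _ h2
      _ = α i := mul_one _
  exact (Finset.sum_le_sum h1).trans ((le_totalDegree hα).trans hG)

/-- The second derivative along a line. -/
theorem der2_lnp (G : MvPolynomial (Fin 3) ℝ) (x D : Fin 3 → ℝ) (τ : ℝ) :
    (Polynomial.derivative (Polynomial.derivative (lnp G x D))).eval τ =
      eval (fun i => x i + D i * τ) (ddp G D D) := by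
  rw [der_lnp, Polynomial.derivative_sum, Polynomial.eval_finsetSum, eval_ddp]
  have h1 : ∀ i, (Polynomial.derivative (Polynomial.C (D i) * lnp (pderiv i G) x D)).eval τ =
      ∑ j, D j * D i * eval (fun i => x i + D i * τ) (pderiv j (pderiv i G)) := by
    intro i
    rw [Polynomial.derivative_C_mul, der_lnp, Polynomial.eval_mul, Polynomial.eval_C,
      Polynomial.eval_finsetSum, Finset.mul_sum]
    refine Finset.sum_congr rfl fun j _ => ?_
    rw [Polynomial.eval_mul, Polynomial.eval_C, eval_lnp]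
    ring
  simp only [h1]
  rw [Finset.sum_comm]

/-- Near an affine function along a line: the second derivative. -/
theorem dd_line (K : ℕ) : ∃ C₀ : ℝ, 1 ≤ C₀ ∧ ∀ (G : MvPolynomial (Fin 3) ℝ) (x D : Fin 3 → ℝ)
    (r ε a b : ℝ), G.totalDegree ≤ K → 0 < r →
    (∀ τ, |τ| ≤ r → |eval (fun i => x i + D i * τ) G - (a + b * τ)| ≤ ε) →
    |eval x (ddp G D D)| * r ^ 2 ≤ C₀ * ε := by
  obtain ⟨C₁, hC₁, h₁⟩ := cf_win (K + 1)
  refine ⟨2 * C₁, by linarith, ?_⟩
  intro G x D r ε a b hG hr h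
  obtain ⟨p, hp⟩ : ∃ p : Polynomial ℝ, p = lnp G x D - (Polynomial.C a +
    Polynomial.C b * Polynomial.X) := ⟨_, rfl⟩
  have hpd : p.natDegree ≤ K + 1 := by
    rw [hp]
    refine (Polynomial.natDegree_sub_le _ _).trans (max_le ((natDegree_lnp hG x D).trans
      (Nat.le_succ K)) ?_)
    refine (Polynomial.natDegree_add_le _ _).trans (max_le ?_ ?_)
    · rw [Polynomial.natDegree_C]
      exact Nat.zero_le _
    · exact (Polynomial.natDegree_C_mul_le _ _).trans (Polynomial.natDegree_X_le.trans (by omega))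
  have h2 := h₁ p r ε hpd hr (fun u hu => by
    rw [hp, Polynomial.eval_sub, eval_lnp, Polynomial.eval_add, Polynomial.eval_mul,
      Polynomial.eval_C, Polynomial.eval_C, Polynomial.eval_X]
    exact h u hu) 2
  have h3 : eval x (ddp G D D) = 2 * p.coeff 2 := by
    have h4 := der2_lnp G x D 0
    have h5 : (fun i => x i + D i * 0) = x := by
      funext i
      ring
    rw [h5] at h4
    rw [← h4, ← Polynomial.coeff_zero_eq_eval_zero, Polynomial.coeff_derivative,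
      Polynomial.coeff_derivative]
    have h6 : p.coeff 2 = (lnp G x D).coeff 2 := by
      rw [hp, Polynomial.coeff_sub, Polynomial.coeff_add, Polynomial.coeff_C_mul,
        Polynomial.coeff_X, Polynomial.coeff_C]
      norm_num
    rw [h6]
    norm_num
    ring
  rw [h3, abs_mul, abs_two]
  linarith

/-- A conic with small coefficients. -/
theorem qd_le {R : Fin 6 → ℝ} {M B x y : ℝ} (hR : ∀ i, |R i| ≤ M) (hB : 1 ≤ B) (hx : |x| ≤ B)
    (hy : |y| ≤ B) : |Pool.PLN.qd R x y| ≤ 6 * B ^ 2 * M := by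
  have hM : 0 ≤ M := (abs_nonneg _).trans (hR 0)
  have hB2 : B ≤ B ^ 2 := by nlinarith
  have h1B : 1 ≤ B ^ 2 := hB.trans hB2
  have hB0 : 0 ≤ B := by linarith
  unfold Pool.PLN.qd
  have e1 : |R 1 * x| ≤ M * B ^ 2 := by
    rw [abs_mul]
    exact mul_le_mul (hR 1) (hx.trans hB2) (abs_nonneg _) hM
  have e2 : |R 2 * y| ≤ M * B ^ 2 := by
    rw [abs_mul]
    exact mul_le_mul (hR 2) (hy.trans hB2) (abs_nonneg _) hM
  have e3 : |R 3 * x ^ 2| ≤ M * B ^ 2 := by
    rw [abs_mul, abs_pow]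
    exact mul_le_mul (hR 3) (pow_le_pow_left₀ (abs_nonneg _) hx 2) (by positivity) hM
  have e4 : |R 4 * (x * y)| ≤ M * B ^ 2 := by
    rw [abs_mul, abs_mul, sq]
    exact mul_le_mul (hR 4) (mul_le_mul hx hy (abs_nonneg _) hB0) (by positivity) hM
  have e5 : |R 5 * y ^ 2| ≤ M * B ^ 2 := by
    rw [abs_mul, abs_pow]
    exact mul_le_mul (hR 5) (pow_le_pow_left₀ (abs_nonneg _) hy 2) (by positivity) hM
  have e0 : |R 0| ≤ M * B ^ 2 := (hR 0).trans (le_mul_of_one_le_right hM h1B)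
  have h0 := abs_add_le (R 0 + R 1 * x + R 2 * y + R 3 * x ^ 2 + R 4 * (x * y)) (R 5 * y ^ 2)
  have h1 := abs_add_le (R 0 + R 1 * x + R 2 * y + R 3 * x ^ 2) (R 4 * (x * y))
  have h2 := abs_add_le (R 0 + R 1 * x + R 2 * y) (R 3 * x ^ 2)
  have h3 := abs_add_le (R 0 + R 1 * x) (R 2 * y)
  have h4 := abs_add_le (R 0) (R 1 * x)
  linarith

/-- **All the second derivatives are small.** -/
theorem hes_small (K : ℕ) : ∃ C₀ : ℝ, 1 ≤ C₀ ∧ ∀ {ι : Type} (I : Finset ι)
    (G : MvPolynomial (Fin 3) ℝ) (n : Fin 3 → Fin 3 → ℝ) (Bx : (Fin 3 → ℝ) → Prop)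
    (x xh D : ι → Fin 3 → ℝ) (Ey Ez a b : ι → ℝ) (lam r ε e₀ H ρ B : ℝ),
    I.Nonempty → G.totalDegree ≤ K → 0 < r → 0 < lam → 1 ≤ B → 0 ≤ ρ → 1 ≤ H → 0 < e₀ →
    (∀ i ∈ I, |Ey i| ≤ B ∧ |Ez i| ≤ B) →
    (∀ i ∈ I, ∀ k, D i k = lam * (n 0 k + Ey i * n 1 k + Ez i * n 2 k)) →
    -- near an affine function along the line
    (∀ i ∈ I, ∀ τ, |τ| ≤ r → |eval (fun k => xh i k + D i k * τ) G - (a i + b i * τ)| ≤ ε) →
    -- the conic is not degenerate at the velocity
    (∀ i ∈ I, ∀ k, e₀ * |cnv G n (x i) k| ≤ |Pool.PLN.qd (cnv G n (x i)) (Ey i) (Ez i)|) →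
    -- the samples are norming
    (∀ Q : MvPolynomial (Fin 3) ℝ, Q.totalDegree ≤ K → ∀ m : ℝ, (∀ i ∈ I, |eval (x i) Q| ≤ m) →
      ∀ c, Bx c → |eval c Q| ≤ H * m) →
    -- the rounding
    (∀ Q : MvPolynomial (Fin 3) ℝ, Q.totalDegree ≤ K → ∀ S : ℝ, (∀ c, Bx c → |eval c Q| ≤ S) →
      ∀ i ∈ I, |eval (xh i) Q - eval (x i) Q| ≤ ρ * S) →
    12 * B ^ 2 * ρ * H ≤ e₀ →
    ∀ c, Bx c → ∀ k, |cnv G n c k| * (lam ^ 2 * r ^ 2) ≤ C₀ * (H * ε / e₀) := by
  classical
  obtain ⟨C₁, hC₁, h₁⟩ := dd_line K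
  refine ⟨2 * C₁, by linarith, ?_⟩
  intro ι I G n Bx x xh D Ey Ez a b lam r ε e₀ H ρ B hI hG hr hlam hB hρ hH he₀ hE hD hln hcon
    hnorm hrnd hsm c hc k
  have hH0 : 0 ≤ H := by linarith
  -- the maximum at the samples
  obtain ⟨i₀, hi₀, hmax⟩ := Finset.exists_max_image (I ×ˢ (univ : Finset (Fin 6)))
    (fun q => |cnv G n (x q.1) q.2|) (by
      obtain ⟨i, hi⟩ := hI
      exact ⟨(i, 0), by simp [hi]⟩)
  obtain ⟨m, hm⟩ : ∃ m, m = |cnv G n (x i₀.1) i₀.2| := ⟨_, rfl⟩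
  have hm0 : 0 ≤ m := by
    rw [hm]
    exact abs_nonneg _
  have hmx : ∀ i ∈ I, ∀ k, |cnv G n (x i) k| ≤ m := by
    intro i hi k
    rw [hm]
    exact hmax (i, k) (by simp [hi])
  have hi₀' : i₀.1 ∈ I := (Finset.mem_product.1 hi₀).1
  have hbox : ∀ k, ∀ c, Bx c → |cnv G n c k| ≤ H * m := fun k c hc =>
    hnorm _ (deg_cnp hG n k) m (fun i hi => hmx i hi k) c hc
  -- the value at the velocity
  have hq : |Pool.PLN.qd (cnv G n (x i₀.1)) (Ey i₀.1) (Ez i₀.1)| * (lam ^ 2 * r ^ 2) ≤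
      C₁ * ε + 6 * B ^ 2 * (ρ * (H * m)) * (lam ^ 2 * r ^ 2) := by
    have h2 := h₁ G (xh i₀.1) (D i₀.1) r ε (a i₀.1) (b i₀.1) hG hr (hln _ hi₀')
    rw [ddp_qd G n (xh i₀.1) (Ey i₀.1) (Ez i₀.1) lam (hD _ hi₀'), abs_mul,
      abs_of_pos (pow_pos hlam 2)] at h2
    have h3 : Pool.PLN.qd (cnv G n (x i₀.1)) (Ey i₀.1) (Ez i₀.1) =
        Pool.PLN.qd (cnv G n (xh i₀.1)) (Ey i₀.1) (Ez i₀.1) -
        Pool.PLN.qd (fun k => cnv G n (xh i₀.1) k - cnv G n (x i₀.1) k) (Ey i₀.1) (Ez i₀.1) := by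
      unfold Pool.PLN.qd
      ring
    have h4 : |Pool.PLN.qd (fun k => cnv G n (xh i₀.1) k - cnv G n (x i₀.1) k) (Ey i₀.1)
        (Ez i₀.1)| ≤ 6 * B ^ 2 * (ρ * (H * m)) :=
      qd_le (fun k => hrnd _ (deg_cnp hG n k) (H * m) (hbox k) _ hi₀') hB (hE _ hi₀').1
        (hE _ hi₀').2
    have h5 : |Pool.PLN.qd (cnv G n (x i₀.1)) (Ey i₀.1) (Ez i₀.1)| ≤
        |Pool.PLN.qd (cnv G n (xh i₀.1)) (Ey i₀.1) (Ez i₀.1)| + 6 * B ^ 2 * (ρ * (H * m)) := by
      rw [h3]
      exact (abs_sub _ _).trans (by linarith)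
    have h6 : 0 < lam ^ 2 * r ^ 2 := by positivity
    calc _ ≤ (|Pool.PLN.qd (cnv G n (xh i₀.1)) (Ey i₀.1) (Ez i₀.1)| +
          6 * B ^ 2 * (ρ * (H * m))) * (lam ^ 2 * r ^ 2) :=
          mul_le_mul_of_nonneg_right h5 h6.le
      _ = lam ^ 2 * |Pool.PLN.qd (cnv G n (xh i₀.1)) (Ey i₀.1) (Ez i₀.1)| * r ^ 2 +
          6 * B ^ 2 * (ρ * (H * m)) * (lam ^ 2 * r ^ 2) := by ring
      _ ≤ _ := by linarith
  have hc2 := hcon _ hi₀' i₀.2
  rw [← hm] at hc2
  have h6 : 0 < lam ^ 2 * r ^ 2 := by positivity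
  have h7 : e₀ * m * (lam ^ 2 * r ^ 2) ≤
      C₁ * ε + 6 * B ^ 2 * (ρ * (H * m)) * (lam ^ 2 * r ^ 2) :=
    (mul_le_mul_of_nonneg_right hc2 h6.le).trans hq
  have h8 : 6 * B ^ 2 * (ρ * (H * m)) * (lam ^ 2 * r ^ 2) ≤
      e₀ / 2 * m * (lam ^ 2 * r ^ 2) := by
    refine mul_le_mul_of_nonneg_right ?_ h6.le
    have : 6 * B ^ 2 * (ρ * (H * m)) = (12 * B ^ 2 * ρ * H) / 2 * m := by ring
    rw [this]
    exact mul_le_mul_of_nonneg_right (by linarith) hm0
  have h9 : m * (lam ^ 2 * r ^ 2) ≤ 2 * C₁ * (ε / e₀) := by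
    have : e₀ * (m * (lam ^ 2 * r ^ 2)) ≤ 2 * C₁ * ε := by
      have e1 : e₀ * m * (lam ^ 2 * r ^ 2) - e₀ / 2 * m * (lam ^ 2 * r ^ 2) ≤ C₁ * ε := by linarith
      linarith
    rw [← mul_div_assoc, le_div_iff₀ he₀]
    linarith
  calc |cnv G n c k| * (lam ^ 2 * r ^ 2) ≤ H * m * (lam ^ 2 * r ^ 2) :=
        mul_le_mul_of_nonneg_right (hbox k c hc) h6.le
    _ = H * (m * (lam ^ 2 * r ^ 2)) := by ring
    _ ≤ H * (2 * C₁ * (ε / e₀)) := mul_le_mul_of_nonneg_left h9 hH0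
    _ = _ := by ring

/-- A function on `[0, 1]` with a small second derivative. -/
theorem tay_two (q : Polynomial ℝ) {M : ℝ}
    (h : ∀ τ ∈ Set.Icc (0 : ℝ) 1, |(Polynomial.derivative (Polynomial.derivative q)).eval τ| ≤ M) :
    |q.eval 1 - q.eval 0 - (Polynomial.derivative q).eval 0| ≤ M := by
  have hM : 0 ≤ M := (abs_nonneg _).trans (h 0 ⟨le_rfl, zero_le_one⟩)
  have h1 : ∀ τ ∈ Set.Icc (0 : ℝ) 1,
      |(Polynomial.derivative q).eval τ - (Polynomial.derivative q).eval 0| ≤ M := by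
    intro τ hτ
    have h2 := (convex_Icc (0 : ℝ) 1).norm_image_sub_le_of_norm_hasDerivWithin_le
      (f := fun y => (Polynomial.derivative q).eval y)
      (f' := fun y => (Polynomial.derivative (Polynomial.derivative q)).eval y) (C := M)
      (fun y _ => ((Polynomial.derivative q).hasDerivAt y).hasDerivWithinAt)
      (fun y hy => by rw [Real.norm_eq_abs]; exact h y hy)
      (show (0 : ℝ) ∈ Set.Icc (0 : ℝ) 1 from ⟨le_rfl, zero_le_one⟩) hτ
    rw [Real.norm_eq_abs, Real.norm_eq_abs, sub_zero, abs_of_nonneg hτ.1] at h2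
    exact h2.trans (mul_le_of_le_one_right hM hτ.2)
  have h3 := (convex_Icc (0 : ℝ) 1).norm_image_sub_le_of_norm_hasDerivWithin_le
    (f := fun y => q.eval y - (Polynomial.derivative q).eval 0 * y)
    (f' := fun y => (Polynomial.derivative q).eval y - (Polynomial.derivative q).eval 0) (C := M)
    (fun y _ => by
      have h4 := (q.hasDerivAt y).sub ((hasDerivAt_id y).const_mul
        ((Polynomial.derivative q).eval 0))
      simp only [mul_one, id] at h4
      exact h4.hasDerivWithinAt)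
    (fun y hy => by rw [Real.norm_eq_abs]; exact h1 y hy)
    (show (0 : ℝ) ∈ Set.Icc (0 : ℝ) 1 from ⟨le_rfl, zero_le_one⟩)
    (show (1 : ℝ) ∈ Set.Icc (0 : ℝ) 1 from ⟨zero_le_one, le_rfl⟩)
  rw [Real.norm_eq_abs, Real.norm_eq_abs, sub_zero, abs_one, mul_one, mul_one, mul_zero,
    sub_zero] at h3
  have h5 : q.eval 1 - q.eval 0 - (Polynomial.derivative q).eval 0 =
      q.eval 1 - (Polynomial.derivative q).eval 0 - q.eval 0 := by ring
  rw [h5]
  exact h3

/-- The affine part of a polynomial at a point: the constant and the slopes. -/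
noncomputable def afc (G : MvPolynomial (Fin 3) ℝ) (b : Fin 3 → ℝ) : Fin 4 → ℝ :=
  ![eval b G - ∑ i, eval b (pderiv i G) * b i, eval b (pderiv 0 G), eval b (pderiv 1 G),
    eval b (pderiv 2 G)]

/-- The value of an affine function. -/
def afv (a : Fin 4 → ℝ) (c : Fin 3 → ℝ) : ℝ := a 0 + a 1 * c 0 + a 2 * c 1 + a 3 * c 2

theorem afv_afc (G : MvPolynomial (Fin 3) ℝ) (b c : Fin 3 → ℝ) :
    afv (afc G b) c = eval b G + ∑ i, (c i - b i) * eval b (pderiv i G) := by
  unfold afv afc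
  simp only [Matrix.cons_val_zero, Matrix.cons_val_one, Matrix.cons_val, Fin.sum_univ_three]
  ring

/-- **Near an affine function.** -/
theorem aff_near (G : MvPolynomial (Fin 3) ℝ) (n : Fin 3 → Fin 3 → ℝ)
    {Bx : (Fin 3 → ℝ) → Prop} {S Δ : ℝ} {b c : Fin 3 → ℝ} (hS : ∀ c, Bx c → ∀ k, |cnv G n c k| ≤ S)
    (hseg : ∀ τ ∈ Set.Icc (0 : ℝ) 1, Bx (fun i => b i + (c i - b i) * τ)) {x y z : ℝ}
    (hx : |x| ≤ Δ) (hy : |y| ≤ Δ) (hz : |z| ≤ Δ)
    (hd : ∀ i, c i - b i = x * n 0 i + y * n 1 i + z * n 2 i) :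
    |eval c G - afv (afc G b) c| ≤ 6 * Δ ^ 2 * S := by
  have hΔ : 0 ≤ Δ := (abs_nonneg _).trans hx
  have h0S : 0 ≤ S := (abs_nonneg _).trans
    (hS _ (hseg 0 ⟨le_rfl, zero_le_one⟩) 0)
  obtain ⟨q, hq⟩ : ∃ q, q = lnp G b (fun i => c i - b i) := ⟨_, rfl⟩
  have hf1 : (fun i => b i + (c i - b i) * 1) = c := by
    funext i
    ring
  have hf0 : (fun i => b i + (c i - b i) * 0) = b := by
    funext i
    ring
  have h1 : q.eval 1 = eval c G := by
    rw [hq, eval_lnp, hf1]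
  have h2 : q.eval 0 = eval b G := by
    rw [hq, eval_lnp, hf0]
  have h3 : (Polynomial.derivative q).eval 0 = ∑ i, (c i - b i) * eval b (pderiv i G) := by
    rw [hq, der_lnp, Polynomial.eval_finsetSum]
    refine Finset.sum_congr rfl fun i _ => ?_
    rw [Polynomial.eval_mul, Polynomial.eval_C, eval_lnp, hf0]
  have h4 := tay_two q (M := 6 * Δ ^ 2 * S) (fun τ hτ => by
    rw [hq, der2_lnp]
    have e1 : (fun i => c i - b i) = fun i => x * n 0 i + y * n 1 i + z * n 2 i := by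
      funext i
      exact hd i
    obtain ⟨w, hw⟩ : ∃ w, w = fun i => b i + (c i - b i) * τ := ⟨_, rfl⟩
    have hwB : Bx w := by
      rw [hw]
      exact hseg τ hτ
    rw [← hw]
    rw [e1, ddp_frame]
    have b0 : ∀ {u v : ℝ}, |u| ≤ Δ → |v| ≤ Δ → ∀ k, |cnv G n w k * (u * v)| ≤ S * Δ ^ 2 := by
      intro u v hu hv k
      rw [abs_mul, abs_mul, sq]
      exact mul_le_mul (hS w hwB k) (mul_le_mul hu hv (abs_nonneg _) hΔ) (by positivity) h0S
    have c0 := b0 hx hx 0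
    have c1 := b0 hx hy 1
    have c2 := b0 hx hz 2
    have c3 := b0 hy hy 3
    have c4 := b0 hy hz 4
    have c5 := b0 hz hz 5
    rw [← sq] at c0 c3 c5
    have d0 := abs_add_le (cnv G n w 0 * x ^ 2 + cnv G n w 1 * (x * y) + cnv G n w 2 * (x * z) +
      cnv G n w 3 * y ^ 2 + cnv G n w 4 * (y * z)) (cnv G n w 5 * z ^ 2)
    have d1 := abs_add_le (cnv G n w 0 * x ^ 2 + cnv G n w 1 * (x * y) + cnv G n w 2 * (x * z) +
      cnv G n w 3 * y ^ 2) (cnv G n w 4 * (y * z))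
    have d2 := abs_add_le (cnv G n w 0 * x ^ 2 + cnv G n w 1 * (x * y) + cnv G n w 2 * (x * z))
      (cnv G n w 3 * y ^ 2)
    have d3 := abs_add_le (cnv G n w 0 * x ^ 2 + cnv G n w 1 * (x * y)) (cnv G n w 2 * (x * z))
    have d4 := abs_add_le (cnv G n w 0 * x ^ 2) (cnv G n w 1 * (x * y))
    linarith)
  rw [h1, h2, h3] at h4
  rw [afv_afc]
  have h5 : eval c G - (eval b G + ∑ i, (c i - b i) * eval b (pderiv i G)) =
      eval c G - eval b G - ∑ i, (c i - b i) * eval b (pderiv i G) := by ring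
  rw [h5]
  exact h4

end Pool.AFF
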