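import Pool.Agent.H58.AFF.HesN
import Pool.Agent.H1.PLN.Ccl
import Pool.Agent.H81.PLN.PolS

/-!
# The sheets of the labels are affine: the theorem in a class
-/

set_option autoImplicit false

namespace Pool.PLN

open Finset Real MvPolynomial
open Pool.Agent.H49.Ent Pool.Agent.H32.Dense Pool.STK Pool.KA Pool.KSAT Pool.K2S Pool.PB Pool.STAT
  Pool.GEN Pool.S6C Pool.M3F Pool.CLO37
open Pool.KAL (Psi)
open Pool.AFF (cnv afv lnp eval_lnp natDegree_lnp)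

variable {m : ℕ}

/-! ### Normalised conics -/

/-- An index of the largest coefficient. -/
theorem exists_mxi (v : Fin 6 → ℝ) : ∃ i, ∀ k, |v k| ≤ |v i| := by
  obtain ⟨i, -, hi⟩ := Finset.exists_max_image (univ : Finset (Fin 6)) (fun k => |v k|)
    ⟨0, Finset.mem_univ _⟩
  exact ⟨i, fun k => hi k (Finset.mem_univ _)⟩

open Classical in
/-- The normalised vector. -/
noncomputable def nmq (v : Fin 6 → ℝ) : Fin 6 → ℝ :=
  if v (exists_mxi v).choose = 0 then fun _ => 1 else fun k => v k / |v (exists_mxi v).choose|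

theorem nmq_nq (v : Fin 6 → ℝ) : Nq (nmq v) := by
  unfold nmq
  have h0 := (exists_mxi v).choose_spec
  obtain ⟨i, hi⟩ : ∃ i, i = (exists_mxi v).choose := ⟨_, rfl⟩
  rw [← hi] at h0 ⊢
  split_ifs with h
  · exact ⟨fun _ => by rw [abs_one], 0, abs_one⟩
  · have h1 : 0 < |v i| := abs_pos.2 h
    refine ⟨fun k => ?_, i, ?_⟩
    · show abs (v k / abs (v i)) ≤ 1
      rw [abs_div, abs_abs, div_le_one h1]
      exact h0 k
    · show abs (v i / abs (v i)) = 1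
      rw [abs_div, abs_abs, div_self h1.ne']

theorem nmq_qd {v : Fin 6 → ℝ} {x y e₀ : ℝ} (h : e₀ ≤ |qd (nmq v) x y|) (k : Fin 6) :
    e₀ * |v k| ≤ |qd v x y| := by
  unfold nmq at h
  have h0 := (exists_mxi v).choose_spec
  obtain ⟨i, hi⟩ : ∃ i, i = (exists_mxi v).choose := ⟨_, rfl⟩
  rw [← hi] at h0 h
  split_ifs at h with h1
  · have h2 : |v k| = 0 := by
      have h3 := h0 k
      rw [h1, abs_zero] at h3
      exact le_antisymm h3 (abs_nonneg _)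
    rw [h2, mul_zero]
    exact abs_nonneg _
  · have h2 : 0 < |v i| := abs_pos.2 h1
    have h3 : qd (fun k => v k / |v i|) x y = qd v x y / |v i| := by
      unfold qd
      ring
    rw [h3, abs_div, abs_abs, le_div_iff₀ h2] at h
    rcases le_or_gt e₀ 0 with h4 | h4
    · have h5 : e₀ * |v k| ≤ 0 := mul_nonpos_of_nonpos_of_nonneg h4 (abs_nonneg _)
      exact h5.trans (abs_nonneg _)
    · exact (mul_le_mul_of_nonneg_left (h0 k) h4.le).trans h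

/-! ### The numbers -/

theorem hes_num {N : Nums} (h0 : 0 ≤ N.w1) {γ β C : ℝ} (hβ : 0 < β) (hw : N.w1 ≤ γ)
    (h1 : N.g 0 ≤ γ) (h2 : N.g 1 ≤ γ) (h3 : γ + 4 * β ≤ N.g 2) (hg : N.g0 1 < 1) :
    ∃ φ₀ : ℝ, 0 < φ₀ ∧ ∃ J₀ : ℕ, ∀ φ : ℝ, 0 < φ → φ ≤ φ₀ → ∀ J ≥ J₀, ∀ {K : ℕ} {F : Fam m J}
      {c : ℕ → Fin m} {A : F.Ω → Prop} (d : Dat N φ K F c A),
      (∀ i < 3, (1 + 3 * d.L) * ex (γ + β) J ≤ 1 / 2 ^ wid ⌊N.w1 * J⌋₊ d.g' i) ∧
      C * ex (-β) J * d.h0 ≤ 2 ^ ⌊N.w1 * J⌋₊ * ex (γ + β) J ∧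
      (∀ ω, A ω → (1 + |d.a (d.zz (ptr F J ω)) 2|) * 2 ^ d.G0 ≤ 2 ^ J) ∧
      4 * (2 ^ d.kap + d.L) ≤ ex (-(2 * β)) J := by
  obtain ⟨J₁, H₁⟩ := const_le_ex 3 (show 0 < β / 2 by linarith)
  obtain ⟨J₂, H₂⟩ := const_le_ex (|C| * 734834) hβ
  obtain ⟨J₃, H₃⟩ := const_le_ex 2 (show 0 < (1 - N.g0 1) / 2 by linarith)
  obtain ⟨J₄, H₄⟩ := const_le_ex 8 hβ
  refine ⟨min (β / 40) ((1 - N.g0 1) / 6), lt_min (by linarith) (by linarith),
    J₁ + J₂ + J₃ + J₄, ?_⟩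
  intro φ hφ0 hφ J hJ K F c A d
  have hφ1 : φ ≤ β / 40 := hφ.trans (min_le_left _ _)
  have hφ2 : φ ≤ (1 - N.g0 1) / 6 := hφ.trans (min_le_right _ _)
  have K₁ := H₁ J (by omega)
  have K₂ := H₂ J (by omega)
  have K₃ := H₃ J (by omega)
  have K₄ := H₄ J (by omega)
  have hJ0 : (0 : ℝ) ≤ J := Nat.cast_nonneg J
  have hφJ : 0 ≤ φ * J := by positivity
  have hL := d.L0
  have hL1 : 1 + d.L ≤ ex (-(2 * φ)) J := by
    refine le_trans ?_ (exp_le_ex hφ0.le J)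
    rw [← Real.log_le_iff_le_exp (by linarith)]
    exact d.L1
  have hL3 : 1 + 3 * d.L ≤ 3 * ex (-(2 * φ)) J := by linarith
  have hk : (2 : ℝ) ^ d.kap ≤ ex (-φ) J := two_le_ex d.kapφ
  have pφ := ex_pos (-(2 * φ)) J
  refine ⟨?_, ?_, ?_, ?_⟩
  · intro i hi
    have hwd : (wid ⌊N.w1 * J⌋₊ d.g' i : ℝ) ≤ (γ + φ) * J := by
      interval_cases i
      · have e1 : wid ⌊N.w1 * J⌋₊ d.g' 0 = ⌊N.w1 * J⌋₊ := rfl
        rw [e1]
        refine (Nat.floor_le (mul_nonneg h0 hJ0)).trans ?_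
        nlinarith [mul_le_mul_of_nonneg_right hw hJ0]
      · have e1 : wid ⌊N.w1 * J⌋₊ d.g' 1 = d.g' 0 := rfl
        rw [e1]
        have := (abs_le.1 (d.num 0 (by norm_num))).2
        nlinarith [mul_le_mul_of_nonneg_right h1 hJ0]
      · have e1 : wid ⌊N.w1 * J⌋₊ d.g' 2 = d.g' 1 := rfl
        rw [e1]
        have := (abs_le.1 (d.num 1 (by norm_num))).2
        nlinarith [mul_le_mul_of_nonneg_right h2 hJ0]
    have h4 := two_le_ex hwd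
    rw [le_div_iff₀ (by positivity)]
    have pg := ex_pos (γ + β) J
    calc (1 + 3 * d.L) * ex (γ + β) J * 2 ^ wid ⌊N.w1 * J⌋₊ d.g' i ≤
          (3 * ex (-(2 * φ)) J) * ex (γ + β) J * ex (-(γ + φ)) J :=
          mul_le_mul (mul_le_mul_of_nonneg_right hL3 pg.le) h4 (by positivity) (by positivity)
      _ = 3 * ex (β - 3 * φ) J := by
          have e2 : ex (β - 3 * φ) J = ex (-(2 * φ)) J * ex (γ + β) J * ex (-(γ + φ)) J := by
            rw [← ex_add, ← ex_add]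
            congr 1
            ring
          rw [e2]
          ring
      _ ≤ ex 0 J := by
          refine mul_ex_le (K₁.trans (ex_le ?_ J))
          linarith
      _ = 1 := ex_zero J
  · -- the thickness
    have hWg : ⌊N.w1 * J⌋₊ ≤ d.g' 2 := by
      have a1 := Nat.floor_le (mul_nonneg h0 hJ0)
      have a2 := (abs_le.1 (d.num 2 (by norm_num))).1
      have a3 : ((⌊N.w1 * J⌋₊ : ℕ) : ℝ) ≤ (d.g' 2 : ℝ) := by
        have a4 : N.w1 * J + φ * J ≤ N.g 2 * J := by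
          rw [← add_mul]
          exact mul_le_mul_of_nonneg_right (by linarith) hJ0
        linarith
      exact_mod_cast a3
    have hg2 : (1 : ℝ) / 2 ^ d.g' 2 ≤ ex (N.g 2 - φ) J := by
      have a2 := (abs_le.1 (d.num 2 (by norm_num))).1
      have a3 : ex (-(N.g 2 - φ)) J ≤ 2 ^ d.g' 2 := ex_le_two (by linarith)
      rw [ex_neg] at a3
      have a4 := ex_pos (N.g 2 - φ) J
      rw [div_le_iff₀ (by positivity)]
      rw [inv_le_iff_one_le_mul₀ a4] at a3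
      linarith
    have hcl : clC 2 d.kap d.L ≤ 734834 * ex (-(18 * φ)) J := by
      unfold clC
      have b1 : (2 : ℝ) ^ (d.kap + 2) ≤ 4 * ex (-φ) J := by
        rw [pow_add]
        linarith
      have b2 : (1 + ((2 + 1 : ℕ) : ℝ) * d.L) ^ (2 + 1 + 1) ≤ 81 * ex (-(8 * φ)) J := by
        have b3 : (1 + ((2 + 1 : ℕ) : ℝ) * d.L) ≤ 3 * ex (-(2 * φ)) J := by
          push_cast
          linarith
        refine (pow_le_pow_left₀ (by positivity) b3 4).trans (le_of_eq ?_)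
        rw [mul_pow, ex_pow]
        have : ((4 : ℕ) : ℝ) * (-(2 * φ)) = -(8 * φ) := by
          push_cast
          ring
        rw [this]
        norm_num
      have b4 : (2 : ℝ) ^ (d.kap + 2) * (1 + ((2 + 1 : ℕ) : ℝ) * d.L) ^ (2 + 1 + 1) ≤
          324 * ex (-(9 * φ)) J := by
        refine (mul_le_mul b1 b2 (by positivity) (by have := ex_pos (-φ) J; positivity)).trans
          (le_of_eq ?_)
        rw [show -(9 * φ) = -φ + -(8 * φ) by ring, ex_add]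
        ring
      have b5 := pow_le_pow_left₀ (by positivity) b4 2
      have b6 : (324 * ex (-(9 * φ)) J) ^ 2 = 104976 * ex (-(18 * φ)) J := by
        rw [mul_pow, ex_pow]
        have : ((2 : ℕ) : ℝ) * (-(9 * φ)) = -(18 * φ) := by
          push_cast
          ring
        rw [this]
        norm_num
      rw [b6] at b5
      have b7 : (1 : ℝ) ≤ ex (-(18 * φ)) J := one_le_ex (by linarith) J
      have b8 : (2 * ((2 + 1 : ℕ) : ℝ) + 1) = 7 := by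
        push_cast
        norm_num
      rw [b8]
      linarith
    have e1 : d.h0 = clC 2 d.kap d.L * (2 ^ ⌊N.w1 * J⌋₊ * (1 / 2 ^ d.g' 2)) := by
      unfold Dat.h0
      push_cast
      rw [pow_sub₀ _ two_ne_zero hWg]
      field_simp
    have hcl0 : 0 ≤ clC 2 d.kap d.L := by
      have := clC_ge (r := 2) (kap := d.kap) hL
      linarith
    have pb := ex_pos (-β) J
    have p18 := ex_pos (-(18 * φ)) J
    have pg2 := ex_pos (N.g 2 - φ) J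
    have hCa : C ≤ |C| := le_abs_self C
    have hh0 : 0 ≤ d.h0 := d.h0_pos.le
    calc C * ex (-β) J * d.h0 ≤ |C| * ex (-β) J * d.h0 :=
          mul_le_mul_of_nonneg_right (mul_le_mul_of_nonneg_right hCa pb.le) hh0
      _ ≤ |C| * ex (-β) J * (734834 * ex (-(18 * φ)) J *
          (2 ^ ⌊N.w1 * J⌋₊ * ex (N.g 2 - φ) J)) := by
          rw [e1]
          refine mul_le_mul_of_nonneg_left ?_ (by positivity)
          refine mul_le_mul hcl ?_ (by positivity) (by positivity)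
          exact mul_le_mul_of_nonneg_left hg2 (by positivity)
      _ = 2 ^ ⌊N.w1 * J⌋₊ * ((|C| * 734834) * ex (N.g 2 - 19 * φ - β) J) := by
          rw [show N.g 2 - 19 * φ - β = -β + -(18 * φ) + (N.g 2 - φ) by ring, ex_add, ex_add]
          ring
      _ ≤ 2 ^ ⌊N.w1 * J⌋₊ * ex (γ + β) J := by
          refine mul_le_mul_of_nonneg_left ?_ (by positivity)
          refine mul_ex_le (K₂.trans (ex_le ?_ J))
          linarith
  · intro ω hω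
    have a1 := d.siz0 ω hω 2
    have a2 : |d.a (d.zz (ptr F J ω)) 2| ≤ ex (-(2 * φ)) J := a1.trans (exp_le_ex hφ0.le J)
    have a3 : (1 : ℝ) ≤ ex (-(2 * φ)) J := one_le_ex (by linarith) J
    have a4 : (2 : ℝ) ^ d.G0 ≤ ex (-(N.g0 1 + φ)) J :=
      two_le_ex (by linarith [(abs_le.1 d.numz).2])
    calc _ ≤ (2 * ex (-(2 * φ)) J) * ex (-(N.g0 1 + φ)) J :=
          mul_le_mul (by linarith) a4 (by positivity) (by positivity)
      _ = 2 * ex (-(N.g0 1 + 3 * φ)) J := by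
          rw [show -(N.g0 1 + 3 * φ) = -(2 * φ) + -(N.g0 1 + φ) by ring, ex_add]
          ring
      _ ≤ ex (-1) J := by
          refine mul_ex_le (K₃.trans (ex_le ?_ J))
          linarith
      _ = 2 ^ J := ex_neg_one J
  · have a1 : ex (-φ) J ≤ ex (-(2 * φ)) J := ex_le (by linarith) J
    have a2 : 4 * (2 ^ d.kap + d.L) ≤ 8 * ex (-(2 * φ)) J := by linarith
    refine a2.trans (mul_ex_le (K₄.trans (ex_le ?_ J)))
    linarith

/-! ### The line -/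

section line

variable {J : ℕ} {N : Nums} {φ : ℝ} {K : ℕ} {F : Fam m J} {c : ℕ → Fin m} {A : F.Ω → Prop}

theorem lpt_slam {W : ℕ} {ω ω' : F.Ω} (h : slam F W ω = slam F W ω') (t : ℝ) :
    lpt F c ω t = lpt F c ω' t := by
  unfold lpt
  rw [slam_u h, slam_d h]

/-- The polynomial of the label on the line, in the short window. -/
theorem win_line (d : Dat N φ K F c A) {D : ℕ} (hD : 1 ≤ D) {H : ℝ} {G : d.V → MvPolynomial (Fin 3) ℝ}
    {ε : d.V → ℝ} {U V' : LnT F → ℝ} (hG : ∀ κ, (G κ).totalDegree ≤ D)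
    (hU : ∀ ω, A ω → 0 < F.p ω → |U (slam F ⌊N.w1 * J⌋₊ ω) + F.t ω * V' (slam F ⌊N.w1 * J⌋₊ ω) -
      eval (lpt F c ω (F.t ω)) (G (d.κ ω))| ≤ ε (d.κ ω)) (hH : 0 ≤ H)
    {ω : F.Ω} (hω : A ω) (hp : 0 < F.p ω) (hwin : d.Win D H ω) {t : ℝ}
    (ht : |t - F.t ω| ≤ 2 / 2 ^ ⌊N.w1 * J⌋₊) :
    |U (slam F ⌊N.w1 * J⌋₊ ω) + t * V' (slam F ⌊N.w1 * J⌋₊ ω) - eval (lpt F c ω t) (G (d.κ ω))| ≤
      H * ε (d.κ ω) := by
  haveI : Nonempty F.Ω := ⟨ω⟩
  obtain ⟨p, hpe⟩ : ∃ p : Polynomial ℝ, p = (Polynomial.C (U (slam F ⌊N.w1 * J⌋₊ ω)) +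
      Polynomial.C (V' (slam F ⌊N.w1 * J⌋₊ ω)) * Polynomial.X) -
      lnp (G (d.κ ω)) (lpt F c ω 0) ![1, F.d ω (c 0), F.d ω (c 1)] := ⟨_, rfl⟩
  have hev : ∀ t, p.eval t = U (slam F ⌊N.w1 * J⌋₊ ω) + t * V' (slam F ⌊N.w1 * J⌋₊ ω) -
      eval (lpt F c ω t) (G (d.κ ω)) := by
    intro t
    rw [hpe, Polynomial.eval_sub, eval_lnp, Polynomial.eval_add, Polynomial.eval_mul,
      Polynomial.eval_C, Polynomial.eval_C, Polynomial.eval_X]
    have e1 := lpt_add (F := F) c ω 0 t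
    rw [zero_add] at e1
    rw [← e1]
    ring
  have hpd : p.natDegree ≤ D := by
    rw [hpe]
    refine (Polynomial.natDegree_sub_le _ _).trans (max_le ?_ (natDegree_lnp (hG _) _ _))
    refine (Polynomial.natDegree_add_le _ _).trans (max_le ?_ ?_)
    · rw [Polynomial.natDegree_C]
      exact Nat.zero_le _
    · exact (Polynomial.natDegree_C_mul_le _ _).trans (Polynomial.natDegree_X_le.trans hD)
  have hε : 0 ≤ ε (d.κ ω) := (abs_nonneg _).trans (hU ω hω hp)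
  rw [← hev]
  refine (hwin p hpd t ht).trans (mul_le_mul_of_nonneg_left ?_ hH)
  refine mx_le hε fun ω' hω' => ?_
  obtain ⟨h1, h2, h3⟩ := hω'
  have h4 := hU ω' h1 h2
  rw [d.κ_slam h1 hω h3, h3, lpt_slam h3] at h4
  rw [hev]
  exact h4

/-- The affine function on the line, in the long window. -/
theorem hesL_of (d : Dat N φ K F c A) (hN : d.Nms) {D : ℕ} (hD : 1 ≤ D) {H η δ : ℝ}
    {G : d.V → MvPolynomial (Fin 3) ℝ} {ε : d.V → ℝ} {U V' : LnT F → ℝ}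
    (hU : ∀ ω, A ω → 0 < F.p ω → |U (slam F ⌊N.w1 * J⌋₊ ω) + F.t ω * V' (slam F ⌊N.w1 * J⌋₊ ω) -
      eval (lpt F c ω (F.t ω)) (G (d.κ ω))| ≤ ε (d.κ ω)) (hH : 0 ≤ H)
    (hδ : ∀ i < 3, (1 + 3 * d.L) * δ ≤ 1 / 2 ^ wid ⌊N.w1 * J⌋₊ d.g' i) (hJδ : 1 / 2 ^ J ≤ δ)
    {ω : F.Ω} (hω : A ω) (hp : 0 < F.p ω) (hwin : d.Win D H ω) {q : Fin 4 → ℝ}
    (hq : d.HesB (G (d.κ ω)) q η (d.κ ω)) :
    d.HesL U V' q (3 * (2 ^ ⌊N.w1 * J⌋₊ / 2 ^ ⌊N.w0 * J⌋₊) * (H * (ε (d.κ ω) + η))) ω := by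
  haveI : Nonempty F.Ω := ⟨ω⟩
  obtain ⟨α, hα⟩ : ∃ α : ℝ, α = U (slam F ⌊N.w1 * J⌋₊ ω) -
      (q 0 + q 2 * F.u ω (c 0) + q 3 * F.u ω (c 1)) := ⟨_, rfl⟩
  obtain ⟨β, hβ⟩ : ∃ β : ℝ, β = V' (slam F ⌊N.w1 * J⌋₊ ω) -
      (q 1 + q 2 * F.d ω (c 0) + q 3 * F.d ω (c 1)) := ⟨_, rfl⟩
  obtain ⟨p, hpe⟩ : ∃ p : Polynomial ℝ, p = Polynomial.C α + Polynomial.C β * Polynomial.X :=
    ⟨_, rfl⟩
  have hev : ∀ t, p.eval t = U (slam F ⌊N.w1 * J⌋₊ ω) + t * V' (slam F ⌊N.w1 * J⌋₊ ω) -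
      afv q (lpt F c ω t) := by
    intro t
    rw [hpe, Polynomial.eval_add, Polynomial.eval_mul, Polynomial.eval_C, Polynomial.eval_C,
      Polynomial.eval_X, hα, hβ]
    unfold afv lpt
    simp only [Matrix.cons_val_zero, Matrix.cons_val_one, Matrix.cons_val]
    ring
  have hpd : p.natDegree ≤ D := by
    rw [hpe]
    refine (Polynomial.natDegree_add_le _ _).trans (max_le ?_ ?_)
    · rw [Polynomial.natDegree_C]
      exact Nat.zero_le _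
    · exact (Polynomial.natDegree_C_mul_le _ _).trans (Polynomial.natDegree_X_le.trans hD)
  have hε : 0 ≤ ε (d.κ ω) := (abs_nonneg _).trans (hU ω hω hp)
  -- the box
  have hbox : ∀ ω', A ω' → 0 < F.p ω' → d.κ ω' = d.κ ω →
      |eval (lpt F c ω' (F.t ω')) (G (d.κ ω)) - afv q (lpt F c ω' (F.t ω'))| ≤ η := by
    intro ω' h1 _ h3
    have h4 : d.Bx3 (d.κ ω') (lpt F c ω' (F.t ω')) :=
      Dat.bx3_near hN h1 hδ fun i => (lpt_px c ω' i).trans hJδ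
    rw [h3] at h4
    have h5 := hq (unF 3 0 (lpt F c ω' (F.t ω'))) h4
    have e1 : (fun i : Fin 3 => unF 3 0 (lpt F c ω' (F.t ω')) i) = lpt F c ω' (F.t ω') := by
      funext i
      exact unF3_lt _ i.2
    rw [e1] at h5
    exact h5
  have hη : 0 ≤ η := (abs_nonneg _).trans (hbox ω hω hp rfl)
  obtain ⟨M, hM⟩ : ∃ M, M = H * (ε (d.κ ω) + η) := ⟨_, rfl⟩
  have hsm : ∀ t, |t - F.t ω| ≤ 2 / 2 ^ ⌊N.w1 * J⌋₊ → |p.eval t| ≤ M := by
    intro t ht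
    rw [hM]
    refine (hwin p hpd t ht).trans (mul_le_mul_of_nonneg_left ?_ hH)
    refine mx_le (by linarith) fun ω' hω' => ?_
    obtain ⟨h1, h2, h3⟩ := hω'
    have h5 := d.κ_slam h1 hω h3
    have h4 := hU ω' h1 h2
    have h6 := hbox ω' h1 h2 h5
    rw [h5, h3] at h4
    rw [lpt_slam h3] at h4 h6
    rw [hev]
    have e1 : U (slam F ⌊N.w1 * J⌋₊ ω) + F.t ω' * V' (slam F ⌊N.w1 * J⌋₊ ω) -
        afv q (lpt F c ω (F.t ω')) = (U (slam F ⌊N.w1 * J⌋₊ ω) +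
        F.t ω' * V' (slam F ⌊N.w1 * J⌋₊ ω) - eval (lpt F c ω (F.t ω')) (G (d.κ ω))) +
        (eval (lpt F c ω (F.t ω')) (G (d.κ ω)) - afv q (lpt F c ω (F.t ω'))) := by ring
    rw [e1]
    exact (abs_add_le _ _).trans (add_le_add h4 h6)
  have p0 : (0 : ℝ) < 2 ^ ⌊N.w0 * J⌋₊ := by positivity
  have p1 : (0 : ℝ) < 2 ^ ⌊N.w1 * J⌋₊ := by positivity
  have p01 : (2 : ℝ) ^ ⌊N.w0 * J⌋₊ ≤ 2 ^ ⌊N.w1 * J⌋₊ := pow_le_pow_right₀ one_le_two hN.w01
  have hM0 : 0 ≤ M := (abs_nonneg _).trans (hsm (F.t ω) (by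
    rw [sub_self, abs_zero]
    positivity))
  have he : ∀ t, p.eval t = α + β * t := by
    intro t
    rw [hpe, Polynomial.eval_add, Polynomial.eval_mul, Polynomial.eval_C, Polynomial.eval_C,
      Polynomial.eval_X]
  have h1 := hsm (F.t ω) (by
    rw [sub_self, abs_zero]
    positivity)
  have h2 := hsm (F.t ω + 2 / 2 ^ ⌊N.w1 * J⌋₊) (by
    rw [add_sub_cancel_left, abs_of_pos (by positivity)])
  rw [he] at h1 h2
  have h3 : |β| * (2 / 2 ^ ⌊N.w1 * J⌋₊) ≤ 2 * M := by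
    have e1 : β * (2 / 2 ^ ⌊N.w1 * J⌋₊) = (α + β * (F.t ω + 2 / 2 ^ ⌊N.w1 * J⌋₊)) -
        (α + β * F.t ω) := by ring
    have e2 : |β * (2 / 2 ^ ⌊N.w1 * J⌋₊)| = |β| * (2 / 2 ^ ⌊N.w1 * J⌋₊) := by
      rw [abs_mul, abs_of_pos (by positivity : (0 : ℝ) < 2 / 2 ^ ⌊N.w1 * J⌋₊)]
    rw [← e2, e1]
    refine (abs_sub _ _).trans ?_
    linarith
  intro t ht
  rw [← hev, he, ← hM]
  have e1 : α + β * t = (α + β * F.t ω) + β * (t - F.t ω) := by ring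
  rw [e1]
  refine (abs_add_le _ _).trans ?_
  rw [abs_mul]
  have h4 : |β| * |t - F.t ω| ≤ 2 * M * (2 ^ ⌊N.w1 * J⌋₊ / 2 ^ ⌊N.w0 * J⌋₊) := by
    calc |β| * |t - F.t ω| ≤ |β| * (2 / 2 ^ ⌊N.w0 * J⌋₊) :=
          mul_le_mul_of_nonneg_left ht (abs_nonneg _)
      _ = |β| * (2 / 2 ^ ⌊N.w1 * J⌋₊) * (2 ^ ⌊N.w1 * J⌋₊ / 2 ^ ⌊N.w0 * J⌋₊) := by
          field_simp
      _ ≤ 2 * M * (2 ^ ⌊N.w1 * J⌋₊ / 2 ^ ⌊N.w0 * J⌋₊) :=
          mul_le_mul_of_nonneg_right h3 (by positivity)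
  have h5 : (1 : ℝ) ≤ 2 ^ ⌊N.w1 * J⌋₊ / 2 ^ ⌊N.w0 * J⌋₊ := by
    rw [le_div_iff₀ p0, one_mul]
    exact p01
  have h6 : M ≤ (2 ^ ⌊N.w1 * J⌋₊ / 2 ^ ⌊N.w0 * J⌋₊) * M := le_mul_of_one_le_left hM0 h5
  calc _ ≤ M + 2 * M * (2 ^ ⌊N.w1 * J⌋₊ / 2 ^ ⌊N.w0 * J⌋₊) := add_le_add h1 h4
    _ ≤ _ := by linarith

end line

end Pool.PLN
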