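import Pool.Agent.H10.KAL.SVP

/-!
# The majorant at a small radius
-/

set_option autoImplicit false

namespace Pool.AFF

open Finset MvPolynomial Pool.KAL

theorem coeff_zero_shf {σ : Type} (P : MvPolynomial σ ℝ) (h : ℝ) (x : σ → ℝ) :
    coeff 0 (shf P h x) = eval x P := by
  have h1 := eval_shf P h x (fun _ => 0)
  have h2 : (fun i => x i + h * 0) = x := by
    funext i
    ring
  rw [h2] at h1
  rw [← h1]
  have h3 : (fun _ : σ => (0 : ℝ)) = 0 := rfl
  rw [h3, MvPolynomial.eval_zero]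
  rfl

/-- Substituting small multiples of the variables. -/
theorem coefSum_shf_zero {σ : Type} (R : MvPolynomial σ ℝ) (hR : coeff 0 R = 0) {k : ℝ}
    (hk : 0 ≤ k) (hk1 : k ≤ 1) : coefSum (shf R k (fun _ => 0)) ≤ k * coefSum R := by
  classical
  have h1 : shf R k (fun _ => 0) = ∑ α ∈ R.support, C (coeff α R) *
      ∏ i ∈ α.support, (C (0 : ℝ) + C k * X i) ^ α i := by
    unfold shf
    rw [aeval_def, eval₂_eq]
    rfl
  rw [h1]
  refine (coefSum_sum_le _ _).trans ?_
  have h2 : k * coefSum R = ∑ α ∈ R.support, |coeff α R| * k := by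
    unfold coefSum
    rw [mul_comm, Finset.sum_mul]
  rw [h2]
  refine Finset.sum_le_sum fun α hα => ?_
  rw [coefSum_C_mul]
  refine mul_le_mul_of_nonneg_left ?_ (abs_nonneg _)
  refine (coefSum_prod_le _ _).trans ?_
  have h3 : ∏ i ∈ α.support, coefSum ((C (0 : ℝ) + C k * X i : MvPolynomial σ ℝ) ^ α i) ≤
      ∏ i ∈ α.support, k ^ α i := by
    refine Finset.prod_le_prod (fun _ _ => coefSum_nonneg _) fun i _ => ?_
    refine (coefSum_pow_le _ _).trans (pow_le_pow_left₀ (coefSum_nonneg _) ?_ _)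
    refine (coefSum_add_le _ _).trans ?_
    rw [coefSum_C, coefSum_C_mul, coefSum_X, abs_zero, zero_add, mul_one, abs_of_nonneg hk]
  refine h3.trans ?_
  rw [Finset.prod_pow_eq_pow_sum]
  have h4 : α ≠ 0 := fun h => by
    rw [h] at hα
    exact (mem_support_iff.1 hα) hR
  have h5 : α.support.Nonempty := Finsupp.support_nonempty_iff.2 h4
  obtain ⟨i, hi⟩ := h5
  have h6 : 1 ≤ ∑ i ∈ α.support, α i := by
    refine le_trans ?_ (Finset.single_le_sum (f := fun i => α i) (fun _ _ => Nat.zero_le _) hi)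
    exact Nat.one_le_iff_ne_zero.2 (Finsupp.mem_support_iff.1 hi)
  calc k ^ ∑ i ∈ α.support, α i ≤ k ^ 1 := pow_le_pow_of_le_one hk hk1 h6
    _ = k := pow_one k

theorem coefSum_sub_const {σ : Type} (S : MvPolynomial σ ℝ) :
    coefSum (S - C (coeff 0 S)) ≤ coefSum S := by
  classical
  have hsub : (S - C (coeff 0 S)).support ⊆ S.support \ {0} := by
    intro α hα
    have hα' := mem_support_iff.1 hα
    rw [coeff_sub, coeff_C] at hα'
    rw [Finset.mem_sdiff, Finset.mem_singleton, mem_support_iff]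
    by_cases h0 : α = 0
    · subst h0
      rw [if_pos rfl, sub_self] at hα'
      exact absurd rfl hα'
    · rw [if_neg (Ne.symm h0), sub_zero] at hα'
      exact ⟨hα', h0⟩
  rw [coefSum_eq_of_subset (S - C (coeff 0 S)) _ hsub]
  have h2 : ∑ α ∈ S.support \ {0}, |coeff α (S - C (coeff 0 S))| =
      ∑ α ∈ S.support \ {0}, |coeff α S| := by
    refine Finset.sum_congr rfl fun α hα => ?_
    have h0 : α ≠ 0 := fun h => (Finset.mem_sdiff.1 hα).2 (Finset.mem_singleton.2 h)
    rw [coeff_sub, coeff_C, if_neg (Ne.symm h0), sub_zero]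
  rw [h2]
  exact Finset.sum_le_sum_of_subset_of_nonneg Finset.sdiff_subset (fun _ _ _ => abs_nonneg _)

/-- **The majorant at a smaller radius.** -/
theorem psi_sc {σ : Type} (P : MvPolynomial σ ℝ) {h h' : ℝ} (hh : 0 ≤ h) (hle : h ≤ h')
    (hpos : 0 < h') (x : σ → ℝ) : Psi P h x ≤ |eval x P| + h / h' * Psi P h' x := by
  classical
  have e : h = h' * (h / h') := by field_simp
  have hk : 0 ≤ h / h' := div_nonneg hh hpos.le
  have hk1 : h / h' ≤ 1 := (div_le_one hpos).2 hle
  obtain ⟨k, hke⟩ : ∃ k, k = h / h' := ⟨_, rfl⟩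
  rw [← hke] at e hk hk1 ⊢
  obtain ⟨S, hS⟩ : ∃ S, S = shf P h' x := ⟨_, rfl⟩
  have e0 : coeff 0 S = eval x P := by
    rw [hS]
    exact coeff_zero_shf P h' x
  have e1 : shf P h x = shf S k (fun _ => 0) := by
    rw [hS, ← shf_scale, ← e]
  obtain ⟨R, hR⟩ : ∃ R, R = S - C (coeff 0 S) := ⟨_, rfl⟩
  have e2 : shf S k (fun _ => 0) = C (coeff 0 S) + shf R k (fun _ => 0) := by
    rw [hR]
    unfold shf
    rw [map_sub, algHom_C, algebraMap_eq]
    ring
  have hR0 : coeff 0 R = 0 := by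
    rw [hR, coeff_sub, coeff_C, if_pos rfl, sub_self]
  have h1 : coefSum (shf R k (fun _ => 0)) ≤ k * coefSum R := coefSum_shf_zero R hR0 hk hk1
  have h2 : coefSum R ≤ coefSum S := by
    rw [hR]
    exact coefSum_sub_const S
  unfold Psi
  rw [e1, e2]
  refine (coefSum_add_le _ _).trans ?_
  rw [coefSum_C, e0, ← hS]
  have h3 := mul_le_mul_of_nonneg_left h2 hk
  linarith

/-- The variation near a point. -/
theorem psi_mv {σ : Type} (P : MvPolynomial σ ℝ) {h h' : ℝ} (hh : 0 < h) (hle : h ≤ h')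
    {x y : σ → ℝ} (hxy : ∀ i, |y i - x i| ≤ h) :
    |eval y P - eval x P| ≤ h / h' * Psi P h' x := by
  classical
  have hpos : 0 < h' := lt_of_lt_of_le hh hle
  have e : h = h' * (h / h') := by field_simp
  have hk : 0 ≤ h / h' := div_nonneg hh.le hpos.le
  have hk1 : h / h' ≤ 1 := (div_le_one hpos).2 hle
  obtain ⟨k, hke⟩ : ∃ k, k = h / h' := ⟨_, rfl⟩
  rw [← hke] at e hk hk1 ⊢
  obtain ⟨S, hS⟩ : ∃ S, S = shf P h' x := ⟨_, rfl⟩
  have e0 : coeff 0 S = eval x P := by
    rw [hS]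
    exact coeff_zero_shf P h' x
  obtain ⟨R, hR⟩ : ∃ R, R = S - C (coeff 0 S) := ⟨_, rfl⟩
  have e1 : shf P h x = shf S k (fun _ => 0) := by
    rw [hS, ← shf_scale, ← e]
  have e2 : shf S k (fun _ => 0) = C (coeff 0 S) + shf R k (fun _ => 0) := by
    rw [hR]
    unfold shf
    rw [map_sub, algHom_C, algebraMap_eq]
    ring
  have hR0 : coeff 0 R = 0 := by
    rw [hR, coeff_sub, coeff_C, if_pos rfl, sub_self]
  have h1 : coefSum (shf R k (fun _ => 0)) ≤ k * coefSum R := coefSum_shf_zero R hR0 hk hk1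
  have h2 : coefSum R ≤ coefSum S := by
    rw [hR]
    exact coefSum_sub_const S
  have h3 := abs_eval_le_coefSum (shf R k (fun _ => 0)) (fun i => (y i - x i) / h) (by
    intro i
    rw [abs_div, abs_of_pos hh, div_le_one hh]
    exact hxy i)
  have h4 : eval (fun i => (y i - x i) / h) (shf R k (fun _ => 0)) = eval y P - eval x P := by
    have h5 : eval (fun i => (y i - x i) / h) (shf P h x) = eval y P := by
      rw [eval_shf]
      congr 2
      funext i
      field_simp
      ring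
    rw [e1, e2, map_add, eval_C, e0] at h5
    linarith
  rw [h4] at h3
  have h6 := mul_le_mul_of_nonneg_left h2 hk
  have h7 : Psi P h' x = coefSum S := by
    rw [hS]
    rfl
  rw [h7]
  linarith

end Pool.AFF
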