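import Pool.Agent.H58.AFF.HesT
import Pool.Agent.H58.AFF.Psp
import Pool.Agent.H81.PLN.Det

/-!
# The sheets of the labels are affine: one member
-/

set_option autoImplicit false

namespace Pool.PLN

open Finset Real MvPolynomial
open Pool.Agent.H49.Ent Pool.Agent.H32.Dense Pool.STK Pool.KA Pool.KSAT Pool.K2S Pool.PB Pool.STAT
  Pool.GEN Pool.S6C Pool.M3F Pool.CLO37
open Pool.KAL (Psi)
open Pool.AFF (cnv afv afc psi_sc psi_mv)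

variable {m J : ℕ}

/-! ### The frame -/

/-- The rounded point, without the coordinate `c 2`. -/
noncomputable def px3 {F : Fam m J} (c : ℕ → Fin m) (ξ : PtT F) : Fin 3 → ℝ :=
  fun i => px c ξ i.val

/-- The frame of the natural coordinates of the window `w0`. -/
noncomputable def nfr (W0 G0 : ℕ) (a : Fin 3 → ℝ) : Fin 3 → Fin 3 → ℝ :=
  ![![1 / 2 ^ W0, 0, a 1 / 2 ^ W0], ![0, 1 / 2 ^ W0, a 2 / 2 ^ W0], ![0, 0, 1 / 2 ^ G0]]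

theorem nfr_dir (W0 G0 : ℕ) (a : Fin 3 → ℝ) (dy dz : ℝ) (i : Fin 3) :
    (![1, dy, dz] : Fin 3 → ℝ) i = 2 ^ W0 * (nfr W0 G0 a 0 i + dy * nfr W0 G0 a 1 i +
      (2 ^ G0 / 2 ^ W0 * (dz - a 1 - a 2 * dy)) * nfr W0 G0 a 2 i) := by
  have h0 : (2 : ℝ) ^ W0 ≠ 0 := by positivity
  have h1 : (2 : ℝ) ^ G0 ≠ 0 := by positivity
  fin_cases i
  · simp [nfr]
  · simp [nfr]
    field_simp
  · simp [nfr]
    field_simp
    ring

theorem nfr_dif (W0 G0 : ℕ) (a : Fin 3 → ℝ) (u v : Fin 3 → ℝ) (i : Fin 3) :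
    v i - u i = (2 ^ W0 * (v 0 - u 0)) * nfr W0 G0 a 0 i +
      (2 ^ W0 * (v 1 - u 1)) * nfr W0 G0 a 1 i +
      (2 ^ G0 * ((v 2 - u 2) - a 1 * (v 0 - u 0) - a 2 * (v 1 - u 1))) * nfr W0 G0 a 2 i := by
  have h0 : (2 : ℝ) ^ W0 ≠ 0 := by positivity
  have h1 : (2 : ℝ) ^ G0 ≠ 0 := by positivity
  fin_cases i
  · simp [nfr]
    field_simp
  · simp [nfr]
    field_simp
  · simp [nfr]
    field_simp
    ring

/-! ### Polynomials of the scaled position -/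

/-- The polynomial in the scaled coordinates. -/
noncomputable def scp (W : ℕ) (Q : MvPolynomial (Fin 3) ℝ) : MvPolynomial (Option (Fin 3)) ℝ :=
  aeval (fun i => C (1 / 2 ^ W) * X (some i)) Q

theorem eval_scp (W : ℕ) (Q : MvPolynomial (Fin 3) ℝ) (z : Option (Fin 3) → ℝ) :
    eval z (scp W Q) = eval (fun i => z (some i) / 2 ^ W) Q := by
  unfold scp
  induction Q using MvPolynomial.induction_on with
  | C a => simp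
  | add p q hp hq => rw [map_add, map_add, hp, hq, map_add]
  | mul_X p j hp =>
    rw [map_mul, map_mul, hp, aeval_X, map_mul, eval_X, map_mul, eval_C, eval_X]
    ring

theorem deg_scp {K W : ℕ} {Q : MvPolynomial (Fin 3) ℝ} (hQ : Q.totalDegree ≤ K) :
    (scp W Q).totalDegree ≤ K := by
  classical
  unfold scp
  have h1 : aeval (fun i => C (1 / 2 ^ W : ℝ) * X (some i)) Q = ∑ α ∈ Q.support,
      C (coeff α Q) * ∏ i ∈ α.support, (C (1 / 2 ^ W : ℝ) * X (some i) :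
        MvPolynomial (Option (Fin 3)) ℝ) ^ α i := by
    rw [aeval_def, eval₂_eq]
    rfl
  rw [h1]
  refine totalDegree_finsetSum_le fun α hα => ?_
  refine (totalDegree_mul _ _).trans ?_
  rw [totalDegree_C, zero_add]
  refine (totalDegree_finsetProd _ _).trans ?_
  have h2 : ∀ i ∈ α.support, ((C (1 / 2 ^ W : ℝ) * X (some i) :
      MvPolynomial (Option (Fin 3)) ℝ) ^ α i).totalDegree ≤ α i := by
    intro i _
    refine (totalDegree_pow _ _).trans ?_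
    have h3 : (C (1 / 2 ^ W : ℝ) * X (some i) :
        MvPolynomial (Option (Fin 3)) ℝ).totalDegree ≤ 1 := by
      refine (totalDegree_mul _ _).trans ?_
      rw [totalDegree_C, totalDegree_X]
    calc α i * _ ≤ α i * 1 := Nat.mul_le_mul_left _ h3
      _ = α i := mul_one _
  exact (Finset.sum_le_sum h2).trans ((le_totalDegree hα).trans hQ)

theorem unF3_lt (u : Fin 3 → ℝ) {i : ℕ} (hi : i < 3) : unF 3 0 u i = u ⟨i, hi⟩ := by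
  unfold unF
  rw [dif_pos hi, pow_zero, div_one]

namespace Dat

variable {N : Nums} {φ : ℝ} {K : ℕ} {F : Fam m J} {c : ℕ → Fin m} {A : F.Ω → Prop}

/-- The box of a label. -/
def Bx3 (d : Dat N φ K F c A) (κ : d.V) (u : Fin 3 → ℝ) : Prop :=
  CLO.Bxr 2 (wid ⌊N.w1 * J⌋₊ d.g') (d.P κ) 3 (unF 3 0 u)

theorem bx3_of {d : Dat N φ K F c A} {κ : d.V} {b : ℕ → ℝ}
    (h : CLO.Bxr 2 (wid ⌊N.w1 * J⌋₊ d.g') (d.P κ) 3 b) : d.Bx3 κ (fun i => b i) :=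
  bxr_tr3 (d.lab.tri _) h

theorem bx3_near {d : Dat N φ K F c A} (hN : d.Nms) {ω : F.Ω} (hω : A ω) {δ : ℝ}
    (hδ : ∀ i < 3, (1 + 3 * d.L) * δ ≤ 1 / 2 ^ wid ⌊N.w1 * J⌋₊ d.g' i) {u : Fin 3 → ℝ}
    (hu : ∀ i, |u i - px3 c (ptr F J ω) i| ≤ δ) : d.Bx3 (d.κ ω) u := by
  intro i hi
  have h1 := d.bx_dist hN hω (b := unF 3 0 u) (δ := δ) (fun l hl => by
    rw [unF3_lt _ hl]
    exact hu ⟨l, hl⟩) hi
  have h2 := hδ i hi
  have e2 : (2 : ℝ) / 2 ^ wid ⌊N.w1 * J⌋₊ d.g' i = 1 / 2 ^ wid ⌊N.w1 * J⌋₊ d.g' i +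
      1 / 2 ^ wid ⌊N.w1 * J⌋₊ d.g' i := by ring
  rw [e2]
  linarith

theorem bx3_seg {d : Dat N φ K F c A} {κ : d.V} {u v : Fin 3 → ℝ} (hu : d.Bx3 κ u)
    (hv : d.Bx3 κ v) {τ : ℝ} (hτ : τ ∈ Set.Icc (0 : ℝ) 1) :
    d.Bx3 κ (fun i => u i + (v i - u i) * τ) := by
  intro i hi
  have e1 : unF 3 0 (fun i => u i + (v i - u i) * τ) =
      fun l => unF 3 0 u l + τ * (unF 3 0 v l - unF 3 0 u l) := by
    funext l
    unfold unF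
    split_ifs
    · ring
    · ring
  have h1 := hu i hi
  have h2 := hv i hi
  rw [e1, aff_seg (d.dg κ i hi)]
  obtain ⟨R, hR⟩ : ∃ R : ℝ, R = 2 / 2 ^ wid ⌊N.w1 * J⌋₊ d.g' i := ⟨_, rfl⟩
  rw [← hR] at h1 h2 ⊢
  have e2 : unF 3 0 u i + τ * (unF 3 0 v i - unF 3 0 u i) -
      ((1 - τ) * eval (unF 3 0 u) (d.P κ i) + τ * eval (unF 3 0 v) (d.P κ i)) =
      (1 - τ) * (unF 3 0 u i - eval (unF 3 0 u) (d.P κ i)) +
        τ * (unF 3 0 v i - eval (unF 3 0 v) (d.P κ i)) := by ring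
  rw [e2]
  refine (abs_add_le _ _).trans ?_
  rw [abs_mul, abs_mul, abs_of_nonneg hτ.1, abs_of_nonneg (sub_nonneg.2 hτ.2)]
  have h3 := mul_le_mul_of_nonneg_left h1 (sub_nonneg.2 hτ.2)
  have h4 := mul_le_mul_of_nonneg_left h2 hτ.1
  linarith

/-- The widths of the box. -/
theorem bx3_wid {d : Dat N φ K F c A} (hN : d.Nms) {ω : F.Ω} (hω : A ω) {u v : Fin 3 → ℝ}
    (hu : d.Bx3 (d.κ ω) u) (hv : d.Bx3 (d.κ ω) v) :
    |v 0 - u 0| ≤ 4 / 2 ^ ⌊N.w1 * J⌋₊ ∧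
      |v 1 - u 1| ≤ 4 * (2 ^ d.kap + d.L) / 2 ^ ⌊N.w1 * J⌋₊ := by
  have p1 : (0 : ℝ) < 2 ^ ⌊N.w1 * J⌋₊ := by positivity
  have hL := d.L0
  have h0 : |v 0 - u 0| ≤ 4 / 2 ^ ⌊N.w1 * J⌋₊ := by
    have h1 := hu 0 (by norm_num)
    have h2 := hv 0 (by norm_num)
    have e0 : d.P (d.κ ω) 0 = MvPolynomial.C ((F.T1 ⌊N.w1 * J⌋₊ ω : ℝ) / 2 ^ ⌊N.w1 * J⌋₊) :=
      d.lab.zero ω hω
    rw [e0, eval_C, unF3_lt _ (by norm_num), wid_zero] at h1 h2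
    have e1 : v 0 - u 0 = (v ⟨0, by norm_num⟩ - (F.T1 ⌊N.w1 * J⌋₊ ω : ℝ) / 2 ^ ⌊N.w1 * J⌋₊) -
        (u ⟨0, by norm_num⟩ - (F.T1 ⌊N.w1 * J⌋₊ ω : ℝ) / 2 ^ ⌊N.w1 * J⌋₊) := by
      show v 0 - u 0 = (v 0 - _) - (u 0 - _)
      ring
    rw [e1]
    refine (abs_sub _ _).trans ?_
    have e2 : (4 : ℝ) / 2 ^ ⌊N.w1 * J⌋₊ = 2 / 2 ^ ⌊N.w1 * J⌋₊ + 2 / 2 ^ ⌊N.w1 * J⌋₊ := by ring
    rw [e2]
    exact add_le_add h2 h1
  refine ⟨h0, ?_⟩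
  have h1 := hu 1 (by norm_num)
  have h2 := hv 1 (by norm_num)
  rw [unF3_lt _ (by norm_num)] at h1 h2
  have h3 : (2 : ℝ) / 2 ^ wid ⌊N.w1 * J⌋₊ d.g' 1 ≤ 2 * 2 ^ d.kap / 2 ^ ⌊N.w1 * J⌋₊ := by
    have h4 := d.win 1 (by norm_num)
    rw [div_le_div_iff₀ (by positivity) p1]
    have h5 : (2 : ℝ) ^ ⌊N.w1 * J⌋₊ ≤ 2 ^ d.kap * 2 ^ wid ⌊N.w1 * J⌋₊ d.g' 1 := by
      rw [← pow_add]
      exact pow_le_pow_right₀ one_le_two (by omega)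
    linarith
  have h6 : |eval (unF 3 0 v) (d.P (d.κ ω) 1) - eval (unF 3 0 u) (d.P (d.κ ω) 1)| ≤
      d.L * |v 0 - u 0| := by
    have hvr : (d.P (d.κ ω) 1).vars ⊆ range 3 :=
      (d.lab.tri _ 1).trans (Finset.range_mono (by norm_num))
    have h7 := mv_sg (toF 3 0 (d.P (d.κ ω) 1)) (![d.L, 0, 0] : Fin 3 → ℝ) (u := u) (u' := v)
      (fun t _ i => by
        rw [eval_pderiv_toF]
        fin_cases i
        · exact d.aff_le hN hω (by norm_num) 0 _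
        · have h8 : pderiv (1 : ℕ) (d.P (d.κ ω) 1) = 0 :=
            pderiv_eq_zero_of_notMem_vars fun h =>
              absurd (Finset.mem_range.1 (d.lab.tri _ 1 h)) (by norm_num)
          show |eval _ (pderiv (1 : ℕ) (d.P (d.κ ω) 1))| ≤ 0
          rw [h8, map_zero, abs_zero]
        · have h8 : pderiv (2 : ℕ) (d.P (d.κ ω) 1) = 0 :=
            pderiv_eq_zero_of_notMem_vars fun h =>
              absurd (Finset.mem_range.1 (d.lab.tri _ 1 h)) (by norm_num)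
          show |eval _ (pderiv (2 : ℕ) (d.P (d.κ ω) 1))| ≤ 0
          rw [h8, map_zero, abs_zero])
    rw [eval_toF, eval_toF, pow_zero, one_mul, one_mul, Fin.sum_univ_three] at h7
    simp only [Matrix.cons_val_zero, Matrix.cons_val_one, Matrix.cons_val, zero_mul,
      add_zero] at h7
    exact h7
  have e1 : v 1 - u 1 = (v ⟨1, by norm_num⟩ - eval (unF 3 0 v) (d.P (d.κ ω) 1)) -
      (u ⟨1, by norm_num⟩ - eval (unF 3 0 u) (d.P (d.κ ω) 1)) +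
      (eval (unF 3 0 v) (d.P (d.κ ω) 1) - eval (unF 3 0 u) (d.P (d.κ ω) 1)) := by
    show v 1 - u 1 = (v 1 - _) - (u 1 - _) + _
    ring
  rw [e1]
  refine (abs_add_le _ _).trans ?_
  have h8 := abs_sub (v ⟨1, by norm_num⟩ - eval (unF 3 0 v) (d.P (d.κ ω) 1))
    (u ⟨1, by norm_num⟩ - eval (unF 3 0 u) (d.P (d.κ ω) 1))
  have h9 : d.L * |v 0 - u 0| ≤ d.L * (4 / 2 ^ ⌊N.w1 * J⌋₊) := mul_le_mul_of_nonneg_left h0 hL
  have e3 : 4 * (2 ^ d.kap + d.L) / 2 ^ ⌊N.w1 * J⌋₊ = 2 * 2 ^ d.kap / 2 ^ ⌊N.w1 * J⌋₊ +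
      2 * 2 ^ d.kap / 2 ^ ⌊N.w1 * J⌋₊ + d.L * (4 / 2 ^ ⌊N.w1 * J⌋₊) := by ring
  rw [e3]
  have h10 := h1.trans h3
  have h11 := h2.trans h3
  linarith

theorem zs_px (d : Dat N φ K F c A) (ω : F.Ω) (i : Fin 3) :
    d.zs ω (some i) / 2 ^ ⌊N.w1 * J⌋₊ = px3 c (ptr F J ω) i := by
  have p1 : (2 : ℝ) ^ ⌊N.w1 * J⌋₊ ≠ 0 := by positivity
  show 2 ^ ⌊N.w1 * J⌋₊ * px c (ptr F J ω) i.val / 2 ^ ⌊N.w1 * J⌋₊ = _
  rw [mul_div_cancel_left₀ _ p1]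
  rfl

end Dat

/-- **The samples are norming.** -/
theorem nrm3 (D : ℕ) : ∃ C₁ : ℝ, 1 ≤ C₁ ∧ ∀ {m J : ℕ} {N : Nums} {φ : ℝ} {K : ℕ} {F : Fam m J}
    {c : ℕ → Fin m} {A : F.Ω → Prop} (d : Dat N φ K F c A), d.Nms → ∀ {ω₀ : F.Ω}, A ω₀ →
    0 < F.p ω₀ → ∀ {q : ℕ} {H δ : ℝ}, d.Lr D q H ω₀ → 1 ≤ H → 0 < δ →
    (∀ i < 3, (1 + 3 * d.L) * δ ≤ 1 / 2 ^ wid ⌊N.w1 * J⌋₊ d.g' i) →
    2 * C₁ * H * d.h0 ≤ 2 ^ ⌊N.w1 * J⌋₊ * δ →
    ∀ (Q : MvPolynomial (Fin 3) ℝ), Q.totalDegree ≤ D → ∀ mm : ℝ,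
      (∀ ω, A ω → 0 < F.p ω → d.κ ω = d.κ ω₀ → |eval (px3 c (ptr F J ω)) Q| ≤ mm) →
      ∀ u, d.Bx3 (d.κ ω₀) u → |eval u Q| ≤ 2 * H * mm := by
  classical
  obtain ⟨C₁, hC₁, hK⟩ := KAL.exists_Psi_le_sup (Option (Fin 3)) D
  refine ⟨C₁, hC₁, ?_⟩
  intro m J N φ K F c A d hN ω₀ hω₀ hp₀ q H δ hLr hH hδ hδw hsm Q hQ mm hmm u hu
  haveI : Nonempty F.Ω := ⟨ω₀⟩
  have p1 : (0 : ℝ) < 2 ^ ⌊N.w1 * J⌋₊ := by positivity
  obtain ⟨r, hr⟩ : ∃ r : ℝ, r = 2 ^ ⌊N.w1 * J⌋₊ * δ := ⟨_, rfl⟩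
  have hr0 : 0 < r := by
    rw [hr]
    positivity
  have hh := d.h0_pos
  rw [← hr] at hsm
  have hCH : 1 ≤ C₁ * H := one_le_mul_of_one_le_of_one_le hC₁ hH
  have hh0 : d.h0 ≤ r := by
    have : 1 * d.h0 ≤ 2 * C₁ * H * d.h0 := mul_le_mul_of_nonneg_right (by linarith) hh.le
    linarith
  obtain ⟨Q', hQ'⟩ : ∃ Q', Q' = scp ⌊N.w1 * J⌋₊ Q := ⟨_, rfl⟩
  have hQd : Q'.totalDegree ≤ D := by
    rw [hQ']
    exact deg_scp hQ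
  have hm0 : 0 ≤ mm := (abs_nonneg _).trans (hmm ω₀ hω₀ hp₀ rfl)
  obtain ⟨M, hM⟩ : ∃ M, M = mx (fun ω' => A ω' ∧ 0 < F.p ω' ∧ d.κ ω' = d.κ ω₀ ∧
      d.cel q ω' = d.cel q ω₀) (fun ω' => Psi Q' d.h0 (d.zs ω')) := ⟨_, rfl⟩
  have hM0 : 0 ≤ M := by
    rw [hM]
    exact mx_nonneg fun _ => KAL.Psi_nonneg _ _ _
  have hbd : ∀ u, d.Bx3 (d.κ ω₀) u → |eval u Q| ≤ H * M := by
    intro u hu
    have h1 := hLr Q' hQd (unF 3 0 u) hu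
    rw [← hM] at h1
    refine le_trans ?_ h1
    refine le_trans (le_of_eq ?_) (KAL.abs_eval_le_Psi Q' d.h0 _)
    rw [hQ', eval_scp]
    congr 2
    congr 1
    funext i
    show u i = 2 ^ ⌊N.w1 * J⌋₊ * unF 3 0 u i.val / 2 ^ ⌊N.w1 * J⌋₊
    rw [mul_div_cancel_left₀ _ p1.ne', unF3_lt _ i.2]
  have hMM : M ≤ mm + M / 2 := by
    rw [hM]
    refine mx_le ?_ fun ω' hω' => ?_
    · rw [← hM]
      linarith
    obtain ⟨h1, h2, h3, -⟩ := hω'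
    rw [← hM]
    have h4 := psi_sc Q' hh.le hh0 hr0 (d.zs ω')
    have h5 : |eval (d.zs ω') Q'| ≤ mm := by
      rw [hQ', eval_scp]
      have e1 : (fun i => d.zs ω' (some i) / 2 ^ ⌊N.w1 * J⌋₊) = px3 c (ptr F J ω') :=
        funext fun i => d.zs_px ω' i
      rw [e1]
      exact hmm ω' h1 h2 h3
    have h6 : Psi Q' r (d.zs ω') ≤ C₁ * (H * M) := by
      refine hK Q' r (d.zs ω') (H * M) hQd hr0.le fun y hy => ?_
      rw [hQ', eval_scp]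
      refine hbd _ ?_
      rw [← h3]
      refine Dat.bx3_near hN h1 hδw fun i => ?_
      have h7 := hy (some i)
      rw [← d.zs_px ω' i, ← sub_div, abs_div, abs_of_pos p1, div_le_iff₀ p1]
      rw [hr, mul_comm] at h7
      exact h7
    have h7 : d.h0 / r * (C₁ * (H * M)) ≤ M / 2 := by
      have h8 : d.h0 / r * (C₁ * (H * M)) = (2 * C₁ * H * d.h0) / r * (M / 2) := by ring
      rw [h8]
      have h9 : (2 * C₁ * H * d.h0) / r ≤ 1 := (div_le_one hr0).2 hsm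
      have := mul_le_mul_of_nonneg_right h9 (by linarith : 0 ≤ M / 2)
      linarith
    have h8 := mul_le_mul_of_nonneg_left h6 (div_nonneg hh.le hr0.le)
    linarith
  have h1 := hbd u hu
  have h2 : H * M ≤ H * (2 * mm) := mul_le_mul_of_nonneg_left (by linarith) (by linarith)
  linarith

/-- **The rounding.** -/
theorem rnd3 (D : ℕ) : ∃ C₁ : ℝ, 1 ≤ C₁ ∧ ∀ {m J : ℕ} {N : Nums} {φ : ℝ} {K : ℕ} {F : Fam m J}
    {c : ℕ → Fin m} {A : F.Ω → Prop} (d : Dat N φ K F c A), d.Nms → ∀ {ω : F.Ω}, A ω →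
    ∀ {h δ : ℝ}, 0 < h → h ≤ δ →
    (∀ i < 3, (1 + 3 * d.L) * δ ≤ 1 / 2 ^ wid ⌊N.w1 * J⌋₊ d.g' i) →
    ∀ (Q : MvPolynomial (Fin 3) ℝ), Q.totalDegree ≤ D → ∀ S : ℝ,
      (∀ u, d.Bx3 (d.κ ω) u → |eval u Q| ≤ S) → ∀ y : Fin 3 → ℝ,
      (∀ i, |y i - px3 c (ptr F J ω) i| ≤ h) →
      |eval y Q - eval (px3 c (ptr F J ω)) Q| ≤ C₁ * (h / δ) * S := by
  classical
  obtain ⟨C₁, hC₁, hK⟩ := KAL.exists_Psi_le_sup (Fin 3) D
  refine ⟨C₁, hC₁, ?_⟩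
  intro m J N φ K F c A d hN ω hω h δ hh hhδ hδw Q hQ S hS y hy
  have hδ : 0 < δ := lt_of_lt_of_le hh hhδ
  have h1 := psi_mv Q hh hhδ (x := px3 c (ptr F J ω)) (y := y) hy
  have h2 : Psi Q δ (px3 c (ptr F J ω)) ≤ C₁ * S :=
    hK Q δ _ S hQ hδ.le fun z hz => hS z (Dat.bx3_near hN hω hδw hz)
  have h3 := mul_le_mul_of_nonneg_left h2 (div_nonneg hh.le hδ.le)
  calc _ ≤ _ := h1
    _ ≤ _ := h3
    _ = _ := by ring

end Pool.PLN
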