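import Pool.Agent.H58.AFF.HesM

/-!
# The sheets of the labels are affine: the theorem for one member
-/

set_option autoImplicit false

namespace Pool.PLN

open Finset Real MvPolynomial
open Pool.Agent.H49.Ent Pool.Agent.H32.Dense Pool.STK Pool.KA Pool.KSAT Pool.K2S Pool.PB Pool.STAT
  Pool.GEN Pool.S6C Pool.M3F Pool.CLO37
open Pool.KAL (Psi)
open Pool.AFF (cnv afv afc psi_sc psi_mv hes_small aff_near)

/-- The linear form of the plane. -/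
noncomputable def plf (G0 : ℕ) (a : Fin 3 → ℝ) : MvPolynomial (Fin 3) ℝ :=
  C (2 ^ G0) * (X 2 + C (-a 0) + C (-a 1) * X 0 + C (-a 2) * X 1)

theorem eval_plf (G0 : ℕ) (a u : Fin 3 → ℝ) :
    eval u (plf G0 a) = 2 ^ G0 * (u 2 - a 0 - a 1 * u 0 - a 2 * u 1) := by
  unfold plf
  simp only [map_mul, map_add, eval_C, eval_X]
  ring

theorem deg_plf (G0 : ℕ) (a : Fin 3 → ℝ) : (plf G0 a).totalDegree ≤ 1 := by
  unfold plf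
  refine (totalDegree_mul _ _).trans ?_
  rw [totalDegree_C, zero_add]
  have h1 : ∀ (r : ℝ) (i : Fin 3), (C r * X i : MvPolynomial (Fin 3) ℝ).totalDegree ≤ 1 := by
    intro r i
    refine (totalDegree_mul _ _).trans ?_
    rw [totalDegree_C, totalDegree_X]
  refine (totalDegree_add _ _).trans (max_le ?_ (h1 _ _))
  refine (totalDegree_add _ _).trans (max_le ?_ (h1 _ _))
  refine (totalDegree_add _ _).trans (max_le ?_ ?_)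
  · rw [totalDegree_X]
  · rw [totalDegree_C]
    exact Nat.zero_le _

theorem lpt_px {m J : ℕ} {F : Fam m J} (c : ℕ → Fin m) (ω : F.Ω) (i : Fin 3) :
    |lpt F c ω (F.t ω) i - px3 c (ptr F J ω) i| ≤ 1 / 2 ^ J := by
  fin_cases i
  · show |F.t ω - px c (ptr F J ω) 0| ≤ 1 / 2 ^ J
    rw [Dat.px_t, sub_self, abs_zero]
    positivity
  · show |F.x ω (c 0) - px c (ptr F J ω) 1| ≤ 1 / 2 ^ J
    rw [abs_sub_comm]
    exact Dat.px_x c ω 0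
  · show |F.x ω (c 1) - px c (ptr F J ω) 2| ≤ 1 / 2 ^ J
    rw [abs_sub_comm]
    exact Dat.px_x c ω 1

theorem lpt_add {m J : ℕ} {F : Fam m J} (c : ℕ → Fin m) (ω : F.Ω) (t τ : ℝ) :
    lpt F c ω (t + τ) = fun k => lpt F c ω t k +
      (![1, F.d ω (c 0), F.d ω (c 1)] : Fin 3 → ℝ) k * τ := by
  funext k
  fin_cases k
  · show t + τ = t + 1 * τ
    ring
  · show F.u ω (c 0) + (t + τ) * F.d ω (c 0) = F.u ω (c 0) + t * F.d ω (c 0) + F.d ω (c 0) * τ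
    ring
  · show F.u ω (c 1) + (t + τ) * F.d ω (c 1) = F.u ω (c 1) + t * F.d ω (c 1) + F.d ω (c 1) * τ
    ring

/-- **The sheet of a label is affine.** -/
theorem hes_mem (D : ℕ) (hD : 1 ≤ D) : ∃ C₀ : ℝ, 1 ≤ C₀ ∧ ∀ {m J : ℕ} {N : Nums} {φ : ℝ} {K : ℕ}
    {F : Fam m J} {c : ℕ → Fin m} {A : F.Ω → Prop} (d : Dat N φ K F c A), d.Nms →
    ∀ {ω₀ : F.Ω}, A ω₀ → 0 < F.p ω₀ → ∀ {q : ℕ} {H δ B e₀ Δ ε : ℝ} {G : MvPolynomial (Fin 3) ℝ}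
    {U V : F.Ω → ℝ} {a : Fin 3 → ℝ}, d.a (d.pr (d.κ ω₀)) = a → d.Lr D q H ω₀ → 1 ≤ H → 0 < δ →
    (∀ i < 3, (1 + 3 * d.L) * δ ≤ 1 / 2 ^ wid ⌊N.w1 * J⌋₊ d.g' i) →
    C₀ * H * d.h0 ≤ 2 ^ ⌊N.w1 * J⌋₊ * δ → 1 ≤ B → 0 < e₀ → G.totalDegree ≤ D →
    1 / 2 ^ J ≤ δ → C₀ * (B ^ 2 * H) * (1 / 2 ^ J / δ) ≤ e₀ →
    (1 + |a 2|) * 2 ^ d.G0 ≤ 2 ^ J → 4 ≤ Δ → 4 * (2 ^ d.kap + d.L) ≤ Δ → 8 * H ≤ Δ →
    (∀ ω, A ω → 0 < F.p ω → d.κ ω = d.κ ω₀ → |d.Ez ω| ≤ B) →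
    (∀ ω, A ω → 0 < F.p ω → d.κ ω = d.κ ω₀ → ∀ t : ℝ, |t - F.t ω| ≤ 2 / 2 ^ ⌊N.w1 * J⌋₊ →
      |U ω + t * V ω - eval (lpt F c ω t) G| ≤ ε) →
    (∀ ω, A ω → 0 < F.p ω → d.κ ω = d.κ ω₀ → ∀ k,
      e₀ * |cnv G (nfr ⌊N.w0 * J⌋₊ d.G0 a) (px3 c (ptr F J ω)) k| ≤
        |qd (cnv G (nfr ⌊N.w0 * J⌋₊ d.G0 a) (px3 c (ptr F J ω))) (F.d ω (c 0)) (d.Ez ω)|) →
    ∃ p : Fin 4 → ℝ, d.HesB G p
      (C₀ * (Δ ^ 2 * H * (ε / e₀)) * (2 ^ ⌊N.w1 * J⌋₊ / 2 ^ ⌊N.w0 * J⌋₊) ^ 2) (d.κ ω₀) := by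
  classical
  obtain ⟨C₁, hC₁, hnrm⟩ := nrm3 D
  obtain ⟨C₂, hC₂, hrnd⟩ := rnd3 D
  obtain ⟨C₃, hC₃, hhes⟩ := hes_small D
  obtain ⟨C₀, hC₀⟩ : ∃ C₀ : ℝ, C₀ = 2 * C₁ + 24 * C₂ + 3 * C₃ := ⟨_, rfl⟩
  refine ⟨C₀, by linarith, ?_⟩
  intro m J N φ K F c A d hN ω₀ hω₀ hp₀ q H δ B e₀ Δ ε G U V a ha hLr hH hδ hδw hsm hB he₀ hG
    hJδ hrd hG0 hΔ4 hΔk hΔH hE hln hcn
  have p0 : (0 : ℝ) < 2 ^ ⌊N.w0 * J⌋₊ := by positivity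
  have p1 : (0 : ℝ) < 2 ^ ⌊N.w1 * J⌋₊ := by positivity
  have pJ : (0 : ℝ) < 2 ^ J := by positivity
  have pG : (0 : ℝ) < 2 ^ d.G0 := by positivity
  have p01 : (2 : ℝ) ^ ⌊N.w0 * J⌋₊ ≤ 2 ^ ⌊N.w1 * J⌋₊ := pow_le_pow_right₀ one_le_two hN.w01
  have hh := d.h0_pos
  have hH0 : 0 < H := by linarith
  have hε : 0 ≤ ε := (abs_nonneg _).trans (hln ω₀ hω₀ hp₀ rfl (F.t ω₀) (by
    rw [sub_self, abs_zero]
    positivity))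
  obtain ⟨n, hn⟩ : ∃ n, n = nfr ⌊N.w0 * J⌋₊ d.G0 a := ⟨_, rfl⟩
  rw [← hn] at hcn
  have hpl : ∀ ω, A ω → d.κ ω = d.κ ω₀ → d.pl ω = a := by
    intro ω hω hκ
    rw [← ha, ← hκ]
    unfold Dat.pl
    rw [d.prz ω hω]
    rfl
  have hnorm : ∀ Q : MvPolynomial (Fin 3) ℝ, Q.totalDegree ≤ D → ∀ mm : ℝ,
      (∀ ω, A ω → 0 < F.p ω → d.κ ω = d.κ ω₀ → |eval (px3 c (ptr F J ω)) Q| ≤ mm) →
      ∀ u, d.Bx3 (d.κ ω₀) u → |eval u Q| ≤ 2 * H * mm := by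
    refine hnrm d hN hω₀ hp₀ hLr hH hδ hδw (le_trans ?_ hsm)
    have h1 : 2 * C₁ ≤ C₀ := by linarith
    have h2 : 0 ≤ H * d.h0 := by positivity
    have := mul_le_mul_of_nonneg_right h1 h2
    linarith
  -- the conic in the box
  have hcnv := hhes (univ.filter fun ω => A ω ∧ 0 < F.p ω ∧ d.κ ω = d.κ ω₀) G n
    (d.Bx3 (d.κ ω₀)) (fun ω => px3 c (ptr F J ω)) (fun ω => lpt F c ω (F.t ω))
    (fun ω => ![1, F.d ω (c 0), F.d ω (c 1)]) (fun ω => F.d ω (c 0)) (fun ω => d.Ez ω)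
    (fun ω => U ω + F.t ω * V ω) V (2 ^ ⌊N.w0 * J⌋₊) (2 / 2 ^ ⌊N.w1 * J⌋₊) ε e₀ (2 * H)
    (C₂ * (1 / 2 ^ J / δ)) B ⟨ω₀, Finset.mem_filter.2 ⟨Finset.mem_univ _, hω₀, hp₀, rfl⟩⟩ hG
    (by positivity) p0 hB (by positivity) (by linarith) he₀ (by
      intro ω hω
      obtain ⟨-, h1, h2, h3⟩ := Finset.mem_filter.1 hω
      exact ⟨(F.dir ω (c 0)).trans hB, hE ω h1 h2 h3⟩) (by
      intro ω hω k
      obtain ⟨-, h1, h2, h3⟩ := Finset.mem_filter.1 hω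
      rw [hn, nfr_dir ⌊N.w0 * J⌋₊ d.G0 a]
      have e1 : d.Ez ω = 2 ^ d.G0 / 2 ^ ⌊N.w0 * J⌋₊ *
          (F.d ω (c 1) - a 1 - a 2 * F.d ω (c 0)) := by
        unfold Dat.Ez
        rw [hpl ω h1 h3]
      rw [e1]) (by
      intro ω hω τ hτ
      obtain ⟨-, h1, h2, h3⟩ := Finset.mem_filter.1 hω
      have h4 := hln ω h1 h2 h3 (F.t ω + τ) (by rw [add_sub_cancel_left]; exact hτ)
      rw [lpt_add, abs_sub_comm] at h4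
      have e1 : U ω + F.t ω * V ω + V ω * τ = U ω + (F.t ω + τ) * V ω := by ring
      rw [e1]
      exact h4) (by
      intro ω hω k
      obtain ⟨-, h1, h2, h3⟩ := Finset.mem_filter.1 hω
      exact hcn ω h1 h2 h3 k) (by
      intro Q hQ mm hmm u hu
      exact hnorm Q hQ mm (fun ω h1 h2 h3 =>
        hmm ω (Finset.mem_filter.2 ⟨Finset.mem_univ _, h1, h2, h3⟩)) u hu) (by
      intro Q hQ S hS ω hω
      obtain ⟨-, h1, h2, h3⟩ := Finset.mem_filter.1 hω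
      exact hrnd d hN h1 (by positivity) hJδ hδw Q hQ S (by rw [h3]; exact hS) _
        (lpt_px c ω)) (by
      have h1 : 24 * C₂ ≤ C₀ := by linarith
      have h2 : 0 ≤ B ^ 2 * H * (1 / 2 ^ J / δ) := by positivity
      have := mul_le_mul_of_nonneg_right h1 h2
      linarith)
  -- the base point
  obtain ⟨u₀, hu₀⟩ : ∃ u₀, u₀ = px3 c (ptr F J ω₀) := ⟨_, rfl⟩
  have hu₀B : d.Bx3 (d.κ ω₀) u₀ := by
    rw [hu₀]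
    exact Dat.bx3_near hN hω₀ hδw fun i => by
      rw [sub_self, abs_zero]
      exact hδ.le
  -- the form of the plane
  have hpf : ∀ u, d.Bx3 (d.κ ω₀) u → |eval u (plf d.G0 a)| ≤ 4 * H := by
    intro u hu
    have h1 := hnorm (plf d.G0 a) ((deg_plf _ _).trans hD) 2 (fun ω h1 h2 h3 => by
      rw [eval_plf]
      have h4 := d.pos0 ω h1
      have e1 : d.a (d.zz (ptr F J ω)) = a := hpl ω h1 h3
      rw [e1] at h4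
      unfold af at h4
      have h5 := Dat.px_x c ω 0
      have h6 := Dat.px_x c ω 1
      have h7 : px c (ptr F J ω) 0 = F.t ω := Dat.px_t c ω
      have e2 : (2 : ℝ) ^ d.G0 * (px3 c (ptr F J ω) 2 - a 0 - a 1 * px3 c (ptr F J ω) 0 -
          a 2 * px3 c (ptr F J ω) 1) = 2 ^ d.G0 * ((F.x ω (c 1) - (a 0 + a 1 * F.t ω +
            a 2 * F.x ω (c 0))) + (px c (ptr F J ω) (1 + 1) - F.x ω (c 1)) -
            a 2 * (px c (ptr F J ω) (0 + 1) - F.x ω (c 0))) := by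
        show (2 : ℝ) ^ d.G0 * (px c (ptr F J ω) 2 - a 0 - a 1 * px c (ptr F J ω) 0 -
          a 2 * px c (ptr F J ω) 1) = _
        rw [h7]
        ring
      rw [e2, abs_mul, abs_of_pos pG]
      have h8 : |(F.x ω (c 1) - (a 0 + a 1 * F.t ω + a 2 * F.x ω (c 0))) +
          (px c (ptr F J ω) (1 + 1) - F.x ω (c 1)) -
          a 2 * (px c (ptr F J ω) (0 + 1) - F.x ω (c 0))| ≤
          1 / 2 ^ d.G0 + (1 + |a 2|) * (1 / 2 ^ J) := by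
        refine (abs_sub _ _).trans ?_
        have h9 := abs_add_le (F.x ω (c 1) - (a 0 + a 1 * F.t ω + a 2 * F.x ω (c 0)))
          (px c (ptr F J ω) (1 + 1) - F.x ω (c 1))
        rw [abs_mul]
        have h10 := mul_le_mul_of_nonneg_left h5 (abs_nonneg (a 2))
        linarith
      refine (mul_le_mul_of_nonneg_left h8 pG.le).trans ?_
      have e3 : (2 : ℝ) ^ d.G0 * (1 / 2 ^ d.G0 + (1 + |a 2|) * (1 / 2 ^ J)) =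
          1 + (1 + |a 2|) * 2 ^ d.G0 / 2 ^ J := by
        field_simp
      rw [e3]
      have h11 : (1 + |a 2|) * 2 ^ d.G0 / 2 ^ J ≤ 1 := (div_le_one pJ).2 hG0
      linarith) u hu
    linarith
  refine ⟨afc G u₀, fun b hb => ?_⟩
  have hv := Dat.bx3_of hb
  obtain ⟨v, hve⟩ : ∃ v : Fin 3 → ℝ, v = fun i : Fin 3 => b i := ⟨_, rfl⟩
  rw [← hve] at hv ⊢
  obtain ⟨S, hS⟩ : ∃ S : ℝ, S = C₃ * (2 * H * ε / e₀) /
      ((2 : ℝ) ^ ⌊N.w0 * J⌋₊ ^ 2 * (2 / 2 ^ ⌊N.w1 * J⌋₊) ^ 2) := ⟨_, rfl⟩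
  have hS' : ∀ c, d.Bx3 (d.κ ω₀) c → ∀ k, |cnv G n c k| ≤
      C₃ * (2 * H * ε / e₀) / (((2 : ℝ) ^ ⌊N.w0 * J⌋₊) ^ 2 * (2 / 2 ^ ⌊N.w1 * J⌋₊) ^ 2) := by
    intro c' hc' k
    rw [le_div_iff₀ (by positivity)]
    exact hcnv c' hc' k
  obtain ⟨w0, w1⟩ := Dat.bx3_wid hN hω₀ hu₀B hv
  have hx : |2 ^ ⌊N.w0 * J⌋₊ * (v 0 - u₀ 0)| ≤ Δ := by
    rw [abs_mul, abs_of_pos p0]
    refine le_trans ?_ hΔ4
    refine (mul_le_mul_of_nonneg_left w0 p0.le).trans ?_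
    rw [mul_div_assoc', div_le_iff₀ p1]
    linarith
  have hy : |2 ^ ⌊N.w0 * J⌋₊ * (v 1 - u₀ 1)| ≤ Δ := by
    rw [abs_mul, abs_of_pos p0]
    refine le_trans ?_ hΔk
    refine (mul_le_mul_of_nonneg_left w1 p0.le).trans ?_
    rw [mul_div_assoc', div_le_iff₀ p1]
    have h1 : 0 ≤ 4 * (2 ^ d.kap + d.L) := by
      have := d.L0
      positivity
    have := mul_le_mul_of_nonneg_left p01 h1
    linarith
  have hz : |2 ^ d.G0 * ((v 2 - u₀ 2) - a 1 * (v 0 - u₀ 0) - a 2 * (v 1 - u₀ 1))| ≤ Δ := by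
    have h1 := hpf v hv
    have h2 := hpf u₀ hu₀B
    rw [eval_plf] at h1 h2
    have e1 : 2 ^ d.G0 * ((v 2 - u₀ 2) - a 1 * (v 0 - u₀ 0) - a 2 * (v 1 - u₀ 1)) =
        2 ^ d.G0 * (v 2 - a 0 - a 1 * v 0 - a 2 * v 1) -
        2 ^ d.G0 * (u₀ 2 - a 0 - a 1 * u₀ 0 - a 2 * u₀ 1) := by ring
    rw [e1]
    exact (abs_sub _ _).trans (by linarith)
  have h1 := aff_near G n hS' (b := u₀) (c := v) (fun τ hτ => Dat.bx3_seg hu₀B hv hτ) hx hy hz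
    (fun i => by
      rw [hn]
      exact nfr_dif ⌊N.w0 * J⌋₊ d.G0 a u₀ v i)
  refine h1.trans ?_
  have e1 : 6 * Δ ^ 2 * (C₃ * (2 * H * ε / e₀) / (((2 : ℝ) ^ ⌊N.w0 * J⌋₊) ^ 2 *
      (2 / 2 ^ ⌊N.w1 * J⌋₊) ^ 2)) = 3 * C₃ * (Δ ^ 2 * H * (ε / e₀)) *
      (2 ^ ⌊N.w1 * J⌋₊ / 2 ^ ⌊N.w0 * J⌋₊) ^ 2 := by
    field_simp
    ring
  rw [e1]
  have h2 : 0 ≤ (Δ ^ 2 * H * (ε / e₀)) * (2 ^ ⌊N.w1 * J⌋₊ / 2 ^ ⌊N.w0 * J⌋₊ : ℝ) ^ 2 := by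
    positivity
  have h3 : 3 * C₃ ≤ C₀ := by linarith
  have := mul_le_mul_of_nonneg_right h3 h2
  linarith

end Pool.PLN
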