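import Pool.Agent.H58.AFF.Bas
import Mathlib.Analysis.Calculus.MeanValue
import Mathlib.Analysis.Calculus.Deriv.Polynomial
import Mathlib.Algebra.Polynomial.Taylor

/-!
# A function in the span of `r + 1` polynomials with small derivatives at one point is small

Off small neighbourhoods of finitely many points: an element of the span of `a 0, ..., a r`
whose Taylor coefficients of order at most `r` at the point are small is small everywhere, with
a loss which depends on the degrees and the width of the neighbourhoods only.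
-/

set_option autoImplicit false

namespace Pool.AFF

open Finset Polynomial Set

/-- Taylor coefficients from values at separated nodes. -/
theorem tay_gen {n : ℕ} {q : ℝ[X]} {t S κ : ℝ} (hq : q.natDegree ≤ n) (hκ : 0 < κ) (hκ1 : κ ≤ 1)
    (s : Fin (n + 1) → ℝ) (h1 : ∀ i, |s i - t| ≤ 1) (hsep : ∀ i j, i ≠ j → κ ≤ |s i - s j|)
    (h : ∀ i, |q.eval (s i)| ≤ S) (m : ℕ) :
    |(taylor t q).coeff m| ≤ (n + 1) * (2 / κ) ^ (n + 1) * S := by
  have hS : 0 ≤ S := (abs_nonneg _).trans (h 0)
  have hd : (taylor t q).natDegree < n + 1 := by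
    rw [natDegree_taylor]
    omega
  rcases Nat.lt_or_ge m (n + 1) with hm | hm
  · have h2 := cf_le (n := n + 1) (fun b => (taylor t q).coeff b) (fun i => s i - t) (κ := κ)
      (M := S) hκ hκ1 h1 (fun i j hij => by
        have : s i - t - (s j - t) = s i - s j := by ring
        rw [this]
        exact hsep i j hij) (fun i => by
        rw [← eval_eq_sum_range' hd, taylor_eval, sub_add_cancel]
        exact h i) hm
    push_cast at h2
    exact h2
  · rw [coeff_eq_zero_of_natDegree_lt (by omega), abs_zero]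
    positivity

/-- Taylor coefficients from the values far from the point. -/
theorem tay_le (n : ℕ) : ∃ C : ℝ, 1 ≤ C ∧ ∀ (q : ℝ[X]) (t S : ℝ), q.natDegree ≤ n →
    t ∈ Icc (0 : ℝ) 1 → (∀ s ∈ Icc (0 : ℝ) 1, 1 / 4 ≤ |s - t| → |q.eval s| ≤ S) →
    ∀ m, |(taylor t q).coeff m| ≤ C * S := by
  have hn : (0 : ℝ) < n + 1 := by positivity
  have hκ1 : 1 / (4 * ((n : ℝ) + 1)) ≤ 1 := by
    rw [div_le_one (by positivity)]
    nlinarith [Nat.cast_nonneg (α := ℝ) n]
  refine ⟨(n + 1) * (2 / (1 / (4 * ((n : ℝ) + 1)))) ^ (n + 1), ?_, ?_⟩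
  · have h1 : (1 : ℝ) ≤ 2 / (1 / (4 * ((n : ℝ) + 1))) := by
      rw [le_div_iff₀ (by positivity)]
      linarith
    have h2 := one_le_pow₀ (n := n + 1) h1
    nlinarith [Nat.cast_nonneg (α := ℝ) n]
  intro q t S hq ht h m
  have hsep : ∀ i j : Fin (n + 1), i ≠ j → 1 ≤ |((i : ℕ) : ℝ) - ((j : ℕ) : ℝ)| := by
    intro i j hij
    have hne : ((i : ℕ) : ℤ) - ((j : ℕ) : ℤ) ≠ 0 := by
      intro h0
      apply hij
      apply Fin.ext
      omega
    have := Int.one_le_abs hne
    exact_mod_cast this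
  have hi : ∀ i : Fin (n + 1), 0 ≤ ((i : ℕ) : ℝ) / (4 * (n + 1)) ∧
      ((i : ℕ) : ℝ) / (4 * (n + 1)) ≤ 1 / 4 := by
    intro i
    have h1 : ((i : ℕ) : ℝ) ≤ n := by exact_mod_cast Nat.lt_succ_iff.1 i.2
    refine ⟨by positivity, ?_⟩
    rw [div_le_div_iff₀ (by positivity) (by norm_num)]
    nlinarith
  rcases le_total t (1 / 2) with h2 | h2
  · refine tay_gen hq (by positivity) hκ1 (fun i => 1 - ((i : ℕ) : ℝ) / (4 * (n + 1))) ?_ ?_ ?_ m
    · intro i
      obtain ⟨h3, h4⟩ := hi i
      rw [abs_le]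
      constructor <;> linarith [ht.1, ht.2]
    · intro i j hij
      have h3 : (1 - ((i : ℕ) : ℝ) / (4 * (n + 1)) - (1 - ((j : ℕ) : ℝ) / (4 * (n + 1))) : ℝ) =
          -((((i : ℕ) : ℝ) - ((j : ℕ) : ℝ)) / (4 * (n + 1))) := by ring
      rw [h3, abs_neg, abs_div, abs_of_pos (show (0 : ℝ) < 4 * (n + 1) by positivity)]
      exact div_le_div_of_nonneg_right (hsep i j hij) (by positivity)
    · intro i
      obtain ⟨h3, h4⟩ := hi i
      refine h _ ⟨by linarith, by linarith⟩ ?_
      rw [abs_of_nonneg (by linarith)]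
      linarith
  · refine tay_gen hq (by positivity) hκ1 (fun i => ((i : ℕ) : ℝ) / (4 * (n + 1))) ?_ ?_ ?_ m
    · intro i
      obtain ⟨h3, h4⟩ := hi i
      rw [abs_le]
      constructor <;> linarith [ht.1, ht.2]
    · intro i j hij
      rw [← sub_div, abs_div, abs_of_pos (show (0 : ℝ) < 4 * (n + 1) by positivity)]
      exact div_le_div_of_nonneg_right (hsep i j hij) (by positivity)
    · intro i
      obtain ⟨h3, h4⟩ := hi i
      refine h _ ⟨h3, by linarith⟩ ?_
      rw [abs_of_nonpos (by linarith)]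
      linarith

/-- Taylor coefficients from the values near the point. -/
theorem tay_near (n : ℕ) {h : ℝ} (hh : 0 < h) (hh1 : h ≤ 1) : ∃ C : ℝ, 1 ≤ C ∧
    ∀ (q : ℝ[X]) (t S : ℝ), q.natDegree ≤ n →
    t ∈ Icc (0 : ℝ) 1 → (∀ s ∈ Icc (0 : ℝ) 1, |s - t| ≤ h / 2 → |q.eval s| ≤ S) →
    ∀ m, |(taylor t q).coeff m| ≤ C * S := by
  have hn : (0 : ℝ) < n + 1 := by positivity
  have hκ1 : h / (2 * ((n : ℝ) + 1)) ≤ 1 := by
    rw [div_le_one (by positivity)]
    nlinarith [Nat.cast_nonneg (α := ℝ) n]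
  refine ⟨(n + 1) * (2 / (h / (2 * ((n : ℝ) + 1)))) ^ (n + 1), ?_, ?_⟩
  · have h1 : (1 : ℝ) ≤ 2 / (h / (2 * ((n : ℝ) + 1))) := by
      rw [le_div_iff₀ (by positivity)]
      linarith
    have h2 := one_le_pow₀ (n := n + 1) h1
    nlinarith [Nat.cast_nonneg (α := ℝ) n]
  intro q t S hq ht hv m
  have hsep : ∀ i j : Fin (n + 1), i ≠ j → 1 ≤ |((i : ℕ) : ℝ) - ((j : ℕ) : ℝ)| := by
    intro i j hij
    have hne : ((i : ℕ) : ℤ) - ((j : ℕ) : ℤ) ≠ 0 := by
      intro h0
      apply hij
      apply Fin.ext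
      omega
    have := Int.one_le_abs hne
    exact_mod_cast this
  have hi : ∀ i : Fin (n + 1), 0 ≤ ((i : ℕ) : ℝ) * (h / (2 * (n + 1))) ∧
      ((i : ℕ) : ℝ) * (h / (2 * (n + 1))) ≤ h / 2 := by
    intro i
    have h1 : ((i : ℕ) : ℝ) ≤ n := by exact_mod_cast Nat.lt_succ_iff.1 i.2
    refine ⟨by positivity, ?_⟩
    rw [← mul_div_assoc, div_le_div_iff₀ (by positivity) (by norm_num)]
    nlinarith
  rcases le_total t (1 / 2) with h2 | h2
  · refine tay_gen hq (by positivity) hκ1 (fun i => t + ((i : ℕ) : ℝ) * (h / (2 * (n + 1))))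
      ?_ ?_ ?_ m
    · intro i
      obtain ⟨h3, h4⟩ := hi i
      rw [abs_le]
      constructor <;> linarith [ht.1, ht.2]
    · intro i j hij
      have h3 : (t + ((i : ℕ) : ℝ) * (h / (2 * (n + 1))) -
          (t + ((j : ℕ) : ℝ) * (h / (2 * (n + 1)))) : ℝ) =
          (((i : ℕ) : ℝ) - ((j : ℕ) : ℝ)) * (h / (2 * (n + 1))) := by ring
      rw [h3, abs_mul, abs_of_pos (show (0 : ℝ) < h / (2 * (n + 1)) by positivity)]
      exact le_mul_of_one_le_left (by positivity) (hsep i j hij)
    · intro i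
      obtain ⟨h3, h4⟩ := hi i
      refine hv _ ⟨by linarith [ht.1], by linarith [ht.1]⟩ ?_
      rw [abs_of_nonneg (by linarith)]
      linarith
  · refine tay_gen hq (by positivity) hκ1 (fun i => t - ((i : ℕ) : ℝ) * (h / (2 * (n + 1))))
      ?_ ?_ ?_ m
    · intro i
      obtain ⟨h3, h4⟩ := hi i
      rw [abs_le]
      constructor <;> linarith [ht.1, ht.2]
    · intro i j hij
      have h3 : (t - ((i : ℕ) : ℝ) * (h / (2 * (n + 1))) -
          (t - ((j : ℕ) : ℝ) * (h / (2 * (n + 1)))) : ℝ) =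
          -((((i : ℕ) : ℝ) - ((j : ℕ) : ℝ)) * (h / (2 * (n + 1)))) := by ring
      rw [h3, abs_neg, abs_mul, abs_of_pos (show (0 : ℝ) < h / (2 * (n + 1)) by positivity)]
      exact le_mul_of_one_le_left (by positivity) (hsep i j hij)
    · intro i
      obtain ⟨h3, h4⟩ := hi i
      refine hv _ ⟨by linarith [ht.1], by linarith [ht.2]⟩ ?_
      rw [abs_of_nonpos (by linarith)]
      linarith

/-- The values from the Taylor coefficients. -/
theorem tay_val {n : ℕ} {q : ℝ[X]} {t S s : ℝ} (hq : q.natDegree ≤ n) (hS : 0 ≤ S)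
    (h : ∀ m, |(taylor t q).coeff m| ≤ S) (hs : |s - t| ≤ 1) : |q.eval s| ≤ (n + 1) * S := by
  have hd : (taylor t q).natDegree < n + 1 := by
    rw [natDegree_taylor]
    omega
  have h1 : q.eval s = (taylor t q).eval (s - t) := by
    rw [taylor_eval, sub_add_cancel]
  rw [h1, eval_eq_sum_range' hd]
  refine (Finset.abs_sum_le_sum_abs _ _).trans ?_
  have h2 : ∀ i ∈ range (n + 1), |(taylor t q).coeff i * (s - t) ^ i| ≤ S := by
    intro i _
    rw [abs_mul, abs_pow]
    calc _ ≤ S * 1 := mul_le_mul (h i) (pow_le_one₀ (abs_nonneg _) hs) (by positivity) hS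
      _ = S := mul_one S
  refine (Finset.sum_le_sum h2).trans ?_
  rw [Finset.sum_const, Finset.card_range, nsmul_eq_mul]
  push_cast
  exact le_rfl

/-- The Taylor expansion of a derivative. -/
theorem tay_der (t : ℝ) (p : ℝ[X]) : taylor t (derivative p) = derivative (taylor t p) := by
  rw [taylor_apply, taylor_apply, derivative_comp]
  simp

/-- The coefficients of `P' A - P A'`. -/
theorem cf_wr {r : ℕ} {P A : ℝ[X]} {ε M : ℝ} (hP : ∀ i ≤ r + 1, |P.coeff i| ≤ ε)
    (hA : ∀ i, |A.coeff i| ≤ M) {i : ℕ} (hi : i ≤ r) :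
    |(derivative P * A - P * derivative A).coeff i| ≤ 2 * ((r + 1) ^ 2 * (ε * M)) := by
  have hε : 0 ≤ ε := (abs_nonneg _).trans (hP 0 (Nat.zero_le _))
  have hM : 0 ≤ M := (abs_nonneg _).trans (hA 0)
  have hi' : ((i : ℕ) : ℝ) + 1 ≤ r + 1 := by
    have : (i : ℝ) ≤ r := by exact_mod_cast hi
    linarith
  rw [coeff_sub, coeff_mul, coeff_mul]
  have h1 : |∑ x ∈ antidiagonal i, (derivative P).coeff x.1 * A.coeff x.2| ≤
      (r + 1) ^ 2 * (ε * M) := by
    refine (Finset.abs_sum_le_sum_abs _ _).trans ?_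
    have h2 : ∀ x ∈ antidiagonal i, |(derivative P).coeff x.1 * A.coeff x.2| ≤
        (r + 1) * (ε * M) := by
      intro x hx
      have hx1 : x.1 ≤ i := by
        have := Finset.HasAntidiagonal.mem_antidiagonal.1 hx
        omega
      rw [coeff_derivative, abs_mul, abs_mul]
      have h3 : |((x.1 : ℕ) : ℝ) + 1| ≤ r + 1 := by
        rw [abs_of_nonneg (by positivity)]
        have : ((x.1 : ℕ) : ℝ) ≤ i := by exact_mod_cast hx1
        linarith
      calc |P.coeff (x.1 + 1)| * |((x.1 : ℕ) : ℝ) + 1| * |A.coeff x.2|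
          ≤ (ε * (r + 1)) * M := by
            refine mul_le_mul (mul_le_mul (hP _ (by omega)) h3 (abs_nonneg _) hε) (hA _)
              (abs_nonneg _) (by positivity)
        _ = _ := by ring
    refine (Finset.sum_le_sum h2).trans ?_
    rw [Finset.sum_const, Finset.Nat.card_antidiagonal, nsmul_eq_mul]
    push_cast
    calc ((i : ℝ) + 1) * ((r + 1) * (ε * M)) ≤ (r + 1) * ((r + 1) * (ε * M)) :=
          mul_le_mul_of_nonneg_right hi' (by positivity)
      _ = _ := by ring
  have h1' : |∑ x ∈ antidiagonal i, P.coeff x.1 * (derivative A).coeff x.2| ≤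
      (r + 1) ^ 2 * (ε * M) := by
    refine (Finset.abs_sum_le_sum_abs _ _).trans ?_
    have h2 : ∀ x ∈ antidiagonal i, |P.coeff x.1 * (derivative A).coeff x.2| ≤
        (r + 1) * (ε * M) := by
      intro x hx
      have hx1 := Finset.HasAntidiagonal.mem_antidiagonal.1 hx
      rw [coeff_derivative, abs_mul, abs_mul]
      have h3 : |((x.2 : ℕ) : ℝ) + 1| ≤ r + 1 := by
        rw [abs_of_nonneg (by positivity)]
        have : ((x.2 : ℕ) : ℝ) ≤ i := by
          have : x.2 ≤ i := by omega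
          exact_mod_cast this
        linarith
      calc |P.coeff x.1| * (|A.coeff (x.2 + 1)| * |((x.2 : ℕ) : ℝ) + 1|)
          ≤ ε * (M * (r + 1)) := by
            refine mul_le_mul (hP _ (by omega)) (mul_le_mul (hA _) h3 (abs_nonneg _) hM)
              (by positivity) hε
        _ = _ := by ring
    refine (Finset.sum_le_sum h2).trans ?_
    rw [Finset.sum_const, Finset.Nat.card_antidiagonal, nsmul_eq_mul]
    push_cast
    calc ((i : ℝ) + 1) * ((r + 1) * (ε * M)) ≤ (r + 1) * ((r + 1) * (ε * M)) :=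
          mul_le_mul_of_nonneg_right hi' (by positivity)
      _ = _ := by ring
  calc _ ≤ |∑ x ∈ antidiagonal i, (derivative P).coeff x.1 * A.coeff x.2| +
        |∑ x ∈ antidiagonal i, P.coeff x.1 * (derivative A).coeff x.2| := abs_sub _ _
    _ ≤ _ := by linarith

/-- Away from the real parts of the roots a polynomial is not much smaller than elsewhere. -/
theorem far_roots {D : ℕ} (q : Polynomial ℝ) (hq : q.natDegree ≤ D) {s a B ρ : ℝ}
    (hρ : 0 < ρ) (hB : |s - a| ≤ B)
    (hr : ∀ z ∈ (q.map (algebraMap ℝ ℂ)).roots, ρ ≤ |s - z.re|) :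
    |q.eval a| ≤ (1 + B / ρ) ^ D * |q.eval s| := by
  obtain ⟨Q, hQ⟩ : ∃ Q, Q = q.map (algebraMap ℝ ℂ) := ⟨_, rfl⟩
  rw [← hQ] at hr
  have hB0 : 0 ≤ B := (abs_nonneg _).trans hB
  have hev : ∀ x : ℝ, ‖Q.eval (x : ℂ)‖ = |q.eval x| := by
    intro x
    have : Q.eval (x : ℂ) = ((q.eval x : ℝ) : ℂ) := by
      rw [hQ, Polynomial.eval_map]
      exact Polynomial.eval₂_at_apply (algebraMap ℝ ℂ) x
    rw [this, Complex.norm_real, Real.norm_eq_abs]
  have hfac : Q = Polynomial.C Q.leadingCoeff *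
      (Q.roots.map (fun z => Polynomial.X - Polynomial.C z)).prod :=
    (IsAlgClosed.splits Q).eq_prod_roots
  have hcard : Multiset.card Q.roots ≤ D := by
    refine (Polynomial.card_roots' Q).trans ?_
    rw [hQ]
    exact (Polynomial.natDegree_map_le).trans hq
  have key : ∀ m : Multiset ℂ, (∀ z ∈ m, ρ ≤ |s - z.re|) →
      ‖((m.map (fun z => Polynomial.X - Polynomial.C z)).prod).eval (a : ℂ)‖ ≤
      (1 + B / ρ) ^ (Multiset.card m) *
      ‖((m.map (fun z => Polynomial.X - Polynomial.C z)).prod).eval (s : ℂ)‖ := by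
    intro m
    induction m using Multiset.induction_on with
    | empty =>
      intro _
      simp
    | cons z m ih =>
      intro hz
      have h1 := ih fun w hw => hz w (Multiset.mem_cons_of_mem hw)
      have h2 := hz z (Multiset.mem_cons_self z m)
      have h3 : ρ ≤ ‖(s : ℂ) - z‖ := by
        refine h2.trans ?_
        have := Complex.abs_re_le_norm ((s : ℂ) - z)
        rwa [Complex.sub_re, Complex.ofReal_re] at this
      have h4 : ‖(a : ℂ) - z‖ ≤ (1 + B / ρ) * ‖(s : ℂ) - z‖ := by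
        have e1 : (a : ℂ) - z = ((s : ℂ) - z) - ((s - a : ℝ) : ℂ) := by
          push_cast
          ring
        rw [e1]
        have h5 := norm_sub_le ((s : ℂ) - z) ((s - a : ℝ) : ℂ)
        rw [Complex.norm_real, Real.norm_eq_abs] at h5
        have h6 : B ≤ B / ρ * ‖(s : ℂ) - z‖ := by
          rw [div_mul_eq_mul_div, le_div_iff₀ hρ]
          exact mul_le_mul_of_nonneg_left h3 hB0
        calc _ ≤ ‖(s : ℂ) - z‖ + |s - a| := h5
          _ ≤ ‖(s : ℂ) - z‖ + B / ρ * ‖(s : ℂ) - z‖ := by linarith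
          _ = _ := by ring
      rw [Multiset.map_cons, Multiset.prod_cons, Multiset.card_cons, Polynomial.eval_mul,
        Polynomial.eval_mul, Polynomial.eval_sub, Polynomial.eval_X, Polynomial.eval_C,
        Polynomial.eval_sub, Polynomial.eval_X, Polynomial.eval_C, norm_mul, norm_mul]
      have h7 : 0 ≤ B / ρ := by positivity
      calc _ ≤ ((1 + B / ρ) * ‖(s : ℂ) - z‖) * ((1 + B / ρ) ^ (Multiset.card m) *
            ‖((m.map (fun z => Polynomial.X - Polynomial.C z)).prod).eval (s : ℂ)‖) :=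
            mul_le_mul h4 h1 (norm_nonneg _) (by positivity)
        _ = _ := by ring
  have h1 := key Q.roots hr
  have h2 : ∀ x : ℝ, |q.eval x| = ‖Q.leadingCoeff‖ *
      ‖((Q.roots.map (fun z => Polynomial.X - Polynomial.C z)).prod).eval (x : ℂ)‖ := by
    intro x
    rw [← hev x]
    conv_lhs => rw [hfac]
    rw [Polynomial.eval_mul, Polynomial.eval_C, norm_mul]
  have h0 : 0 ≤ B / ρ := by positivity
  rw [h2 a, h2 s]
  have h3 : (1 + B / ρ) ^ (Multiset.card Q.roots) ≤ (1 + B / ρ) ^ D :=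
    pow_le_pow_right₀ (by linarith) hcard
  calc _ ≤ ‖Q.leadingCoeff‖ * ((1 + B / ρ) ^ (Multiset.card Q.roots) *
        ‖((Q.roots.map (fun z => Polynomial.X - Polynomial.C z)).prod).eval (s : ℂ)‖) :=
        mul_le_mul_of_nonneg_left h1 (norm_nonneg _)
    _ ≤ ‖Q.leadingCoeff‖ * ((1 + B / ρ) ^ D *
        ‖((Q.roots.map (fun z => Polynomial.X - Polynomial.C z)).prod).eval (s : ℂ)‖) := by
        refine mul_le_mul_of_nonneg_left ?_ (norm_nonneg _)
        exact mul_le_mul_of_nonneg_right h3 (norm_nonneg _)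
    _ = _ := by ring

/-- The real parts of the roots. -/
noncomputable def rts (q : ℝ[X]) : Finset ℝ :=
  ((q.map (algebraMap ℝ ℂ)).roots.toFinset).image Complex.re

theorem card_rts (q : ℝ[X]) {K : ℕ} (hq : q.natDegree ≤ K) : (rts q).card ≤ K := by
  classical
  unfold rts
  refine Finset.card_image_le.trans ((Multiset.toFinset_card_le _).trans ?_)
  exact (card_roots' _).trans ((natDegree_map_le).trans hq)

theorem far_rts {K : ℕ} {q : ℝ[X]} (hq : q.natDegree ≤ K) {s a B ρ : ℝ} (hρ : 0 < ρ)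
    (hB : |s - a| ≤ B) (h : ∀ z ∈ rts q, ρ ≤ |s - z|) :
    |q.eval a| ≤ (1 + B / ρ) ^ K * |q.eval s| := by
  classical
  refine far_roots q hq hρ hB fun z hz => h _ ?_
  unfold rts
  exact Finset.mem_image_of_mem _ (Multiset.mem_toFinset.2 hz)

/-- **Small derivatives of order at most `r` at one point.** -/
theorem wr (r : ℕ) : ∀ K : ℕ, ∃ n : ℕ, ∀ h : ℝ, 0 < h → h ≤ 1 → ∃ C₀ : ℝ, 1 ≤ C₀ ∧
    ∀ a : ℕ → ℝ[X], (∀ k ≤ r, (a k).natDegree ≤ K) → ∃ Z : Finset ℝ, Z.card ≤ n ∧
      ∀ t ∈ Icc (0 : ℝ) 1, (∀ z ∈ Z, h ≤ |t - z|) → ∀ (c : ℕ → ℝ) (ε : ℝ),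
        (∀ i ≤ r, |(taylor t (∑ k ∈ range (r + 1), C (c k) * a k)).coeff i| ≤ ε) →
        ∀ s ∈ Icc (0 : ℝ) 1, |(∑ k ∈ range (r + 1), C (c k) * a k).eval s| ≤ C₀ * ε := by
  classical
  induction r with
  | zero =>
    intro K
    refine ⟨K, fun h hh hh1 => ⟨(1 + 1 / h) ^ K, one_le_pow₀ (by
      have : 0 ≤ 1 / h := by positivity
      linarith), fun a ha => ⟨rts (a 0), card_rts _ (ha 0 le_rfl), ?_⟩⟩⟩
    intro t ht hZ c ε hc s hs
    have h1 : (∑ k ∈ range (0 + 1), C (c k) * a k) = C (c 0) * a 0 := by simp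
    rw [h1] at hc ⊢
    have h2 := hc 0 le_rfl
    rw [taylor_coeff_zero, eval_mul, eval_C, abs_mul] at h2
    rw [eval_mul, eval_C, abs_mul]
    have h3 := far_rts (ha 0 le_rfl) hh (s := t) (a := s) (B := 1) (by
      rw [abs_le]
      constructor <;> linarith [ht.1, ht.2, hs.1, hs.2]) hZ
    calc |c 0| * |(a 0).eval s| ≤ |c 0| * ((1 + 1 / h) ^ K * |(a 0).eval t|) :=
          mul_le_mul_of_nonneg_left h3 (abs_nonneg _)
      _ = (1 + 1 / h) ^ K * (|c 0| * |(a 0).eval t|) := by ring
      _ ≤ _ := mul_le_mul_of_nonneg_left h2 (by positivity)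
  | succ r ih =>
    intro K
    obtain ⟨n₁, h₁⟩ := ih K
    obtain ⟨n₂, h₂⟩ := ih (2 * K)
    refine ⟨max n₁ (n₂ + K), fun h hh hh1 => ?_⟩
    obtain ⟨C₁, hC₁, h₁⟩ := h₁ h hh hh1
    obtain ⟨C₂, hC₂, h₂⟩ := h₂ h hh hh1
    obtain ⟨C₃, hC₃, h₃⟩ := tay_near K hh hh1
    obtain ⟨C₄, hC₄, h₄⟩ := tay_le K
    obtain ⟨c₂, hc₂⟩ : ∃ c₂ : ℝ, c₂ = (1 + 2 / h) ^ K := ⟨_, rfl⟩
    have hc₂1 : 1 ≤ c₂ := by
      rw [hc₂]
      exact one_le_pow₀ (by
        have : 0 ≤ 2 / h := by positivity
        linarith)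
    obtain ⟨c₁, hc₁⟩ : ∃ c₁ : ℝ, c₁ = (1 + 1 / h) ^ K := ⟨_, rfl⟩
    have hc₁1 : 1 ≤ c₁ := by
      rw [hc₁]
      exact one_le_pow₀ (by
        have : 0 ≤ 1 / h := by positivity
        linarith)
    obtain ⟨D, hD⟩ : ∃ D : ℝ, D = C₂ * (2 * ((r + 1) ^ 2 * (C₄ * c₁))) := ⟨_, rfl⟩
    have hD0 : 0 ≤ D := by
      rw [hD]
      positivity
    refine ⟨max C₁ ((K + 1) * (C₃ * ((1 + D * c₂ ^ 2) * c₁))), hC₁.trans (le_max_left _ _), ?_⟩
    intro a ha
    have hsum : ∀ c : ℕ → ℝ, (∑ k ∈ range (r + 1 + 1), C (c k) * a k) =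
        (∑ k ∈ range (r + 1), C (c (k + 1)) * a (k + 1)) + C (c 0) * a 0 := fun c =>
      Finset.sum_range_succ' _ _
    rcases eq_or_ne (a 0) 0 with h0 | h0
    · obtain ⟨Z, hZn, hZ⟩ := h₁ (fun k => a (k + 1)) (fun k hk => ha _ (by omega))
      refine ⟨Z, hZn.trans (le_max_left _ _), fun t ht hzt c ε hc s hs => ?_⟩
      rw [hsum, h0, mul_zero, add_zero] at hc ⊢
      have hε : 0 ≤ ε := (abs_nonneg _).trans (hc 0 (Nat.zero_le _))
      refine (hZ t ht hzt (fun k => c (k + 1)) ε (fun i hi => hc i (by omega)) s hs).trans ?_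
      exact mul_le_mul_of_nonneg_right (le_max_left _ _) hε
    · obtain ⟨q, hq⟩ : ∃ q, q = a 0 := ⟨_, rfl⟩
      have hqd : q.natDegree ≤ K := by
        rw [hq]
        exact ha 0 (Nat.zero_le _)
      obtain ⟨Z, hZn, hZ⟩ := h₂ (fun k => derivative (a (k + 1)) * q - a (k + 1) * derivative q)
        (fun k hk => by
          have e1 : (a (k + 1)).natDegree ≤ K := ha _ (by omega)
          have e2 := natDegree_derivative_le (a (k + 1))
          have e3 := natDegree_derivative_le q
          refine (natDegree_sub_le _ _).trans (max_le ?_ ?_)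
          · refine natDegree_mul_le.trans ?_
            omega
          · refine natDegree_mul_le.trans ?_
            omega)
      refine ⟨Z ∪ rts q, ?_, ?_⟩
      · refine (Finset.card_union_le _ _).trans (le_trans ?_ (le_max_right _ _))
        exact Nat.add_le_add hZn (card_rts q hqd)
      intro t ht hzt c ε hc s hs
      have hε : 0 ≤ ε := (abs_nonneg _).trans (hc 0 (Nat.zero_le _))
      have hz1 : ∀ z ∈ Z, h ≤ |t - z| := fun z hz => hzt z (Finset.mem_union_left _ hz)
      have hz2 : ∀ z ∈ rts q, h ≤ |t - z| := fun z hz => hzt z (Finset.mem_union_right _ hz)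
      obtain ⟨p, hp⟩ : ∃ p, p = ∑ k ∈ range (r + 1 + 1), C (c k) * a k := ⟨_, rfl⟩
      rw [← hp] at hc ⊢
      have hpd : p.natDegree ≤ K := by
        rw [hp]
        refine natDegree_sum_le_of_forall_le _ _ fun k hk => ?_
        exact (natDegree_C_mul_le _ _).trans (ha k (Nat.lt_succ_iff.1 (Finset.mem_range.1 hk)))
      obtain ⟨A₀, hA₀⟩ : ∃ A₀, A₀ = |q.eval t| := ⟨_, rfl⟩
      have hup : ∀ x ∈ Icc (0 : ℝ) 1, |q.eval x| ≤ c₁ * A₀ := by
        intro x hx
        rw [hA₀, hc₁]
        exact far_rts hqd hh (by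
          rw [abs_le]
          constructor <;> linarith [ht.1, ht.2, hx.1, hx.2]) hz2
      have hA₀p : 0 < A₀ := by
        rcases (show 0 ≤ A₀ by rw [hA₀]; exact abs_nonneg _).eq_or_lt with h5 | h5
        · exfalso
          apply h0
          rw [← hq]
          refine eq_zero_of_infinite_isRoot q ?_
          refine (Set.Icc_infinite (show (0 : ℝ) < 1 by norm_num)).mono fun x hx => ?_
          have h6 := hup x hx
          rw [← h5, mul_zero] at h6
          exact abs_nonpos_iff.1 h6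
        · exact h5
      have hAc : ∀ i, |(taylor t q).coeff i| ≤ C₄ * (c₁ * A₀) :=
        h₄ q t _ hqd ht fun x hx _ => hup x hx
      -- the wronskian
      obtain ⟨w, hw⟩ : ∃ w, w = derivative p * q - p * derivative q := ⟨_, rfl⟩
      have hws : w = ∑ k ∈ range (r + 1), C (c (k + 1)) *
          (derivative (a (k + 1)) * q - a (k + 1) * derivative q) := by
        rw [hw, hp, hsum, ← hq]
        simp only [derivative_add, derivative_sum, derivative_mul, derivative_C, zero_mul,
          zero_add, mul_sub, Finset.sum_sub_distrib]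
        have e1 : ∑ k ∈ range (r + 1), C (c (k + 1)) * (derivative (a (k + 1)) * q) =
            (∑ k ∈ range (r + 1), C (c (k + 1)) * derivative (a (k + 1))) * q := by
          rw [Finset.sum_mul]
          exact Finset.sum_congr rfl fun k _ => by ring
        have e2 : ∑ k ∈ range (r + 1), C (c (k + 1)) * (a (k + 1) * derivative q) =
            (∑ k ∈ range (r + 1), C (c (k + 1)) * a (k + 1)) * derivative q := by
          rw [Finset.sum_mul]
          exact Finset.sum_congr rfl fun k _ => by ring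
        rw [e1, e2]
        ring
      have hwt : taylor t w = derivative (taylor t p) * taylor t q -
          taylor t p * derivative (taylor t q) := by
        rw [hw, map_sub, taylor_mul, taylor_mul, tay_der, tay_der]
      have hwb : ∀ x ∈ Icc (0 : ℝ) 1, |w.eval x| ≤ D * (ε * A₀) := by
        intro x hx
        have h5 := hZ t ht hz1 (fun k => c (k + 1)) (2 * ((r + 1) ^ 2 * (ε * (C₄ * (c₁ * A₀)))))
          (fun i hi => by
            have h6 := cf_wr (r := r) (P := taylor t p) (A := taylor t q) (ε := ε)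
              (M := C₄ * (c₁ * A₀)) (fun j hj => hc j hj) hAc hi
            rw [← hwt, hws] at h6
            exact h6) x hx
        rw [← hws] at h5
        refine h5.trans (le_of_eq ?_)
        rw [hD]
        ring
      -- the quotient
      have hlow : ∀ x ∈ Icc (0 : ℝ) 1, |x - t| ≤ h / 2 → A₀ ≤ c₂ * |q.eval x| := by
        intro x hx hxt
        rw [hA₀, hc₂]
        have h5 := far_rts hqd (show 0 < h / 2 by linarith) (s := x) (a := t) (B := 1) (by
          rw [abs_le]
          constructor <;> linarith [ht.1, ht.2, hx.1, hx.2]) (fun z hz => by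
          have h6 := hz2 z hz
          have h7 : |t - z| ≤ |x - t| + |x - z| := by
            have : t - z = -(x - t) + (x - z) := by ring
            rw [this]
            refine (abs_add_le _ _).trans ?_
            rw [abs_neg]
          linarith)
        have h8 : (1 : ℝ) / (h / 2) = 2 / h := by
          field_simp
        rwa [h8] at h5
      have hnear : ∀ x ∈ Icc (0 : ℝ) 1, |x - t| ≤ h / 2 →
          |p.eval x| ≤ (1 + D * c₂ ^ 2) * c₁ * ε := by
        intro x hx hxt
        obtain ⟨I, hI⟩ : ∃ I : Set ℝ, I = Icc (0 : ℝ) 1 ∩ Icc (t - h / 2) (t + h / 2) := ⟨_, rfl⟩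
        have hmem : ∀ y ∈ I, y ∈ Icc (0 : ℝ) 1 ∧ |y - t| ≤ h / 2 := by
          intro y hy
          rw [hI] at hy
          refine ⟨hy.1, ?_⟩
          rw [abs_le]
          constructor <;> linarith [hy.2.1, hy.2.2]
        have hqne : ∀ y ∈ I, 0 < |q.eval y| := by
          intro y hy
          have h5 := hlow y (hmem y hy).1 (hmem y hy).2
          have h6 : 0 < c₂ * |q.eval y| := lt_of_lt_of_le hA₀p h5
          exact pos_of_mul_pos_right h6 (by linarith)
        have hconv : Convex ℝ I := by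
          rw [hI]
          exact (convex_Icc _ _).inter (convex_Icc _ _)
        have hxI : x ∈ I := by
          rw [hI]
          refine ⟨hx, ?_⟩
          rw [abs_le] at hxt
          constructor <;> linarith [hxt.1, hxt.2]
        have htI : t ∈ I := by
          rw [hI]
          refine ⟨ht, ?_⟩
          constructor <;> linarith
        have hmv := hconv.norm_image_sub_le_of_norm_hasDerivWithin_le
          (f := fun y => p.eval y / q.eval y)
          (f' := fun y => ((derivative p).eval y * q.eval y - p.eval y * (derivative q).eval y) /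
            q.eval y ^ 2) (C := D * c₂ ^ 2 * (ε / A₀)) (fun y hy => by
            have h5 := (p.hasDerivAt y).div (q.hasDerivAt y) (abs_pos.1 (hqne y hy))
            exact h5.hasDerivWithinAt) (fun y hy => by
            have h5 : (derivative p).eval y * q.eval y - p.eval y * (derivative q).eval y =
                w.eval y := by
              rw [hw, eval_sub, eval_mul, eval_mul]
            rw [h5, Real.norm_eq_abs, abs_div, abs_pow, div_le_iff₀ (pow_pos (hqne y hy) 2)]
            have h6 := hlow y (hmem y hy).1 (hmem y hy).2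
            have h7 := hwb y (hmem y hy).1
            have h8 : A₀ ^ 2 ≤ (c₂ * |q.eval y|) ^ 2 := pow_le_pow_left₀ hA₀p.le h6 2
            calc |w.eval y| ≤ D * (ε * A₀) := h7
              _ = D * (ε / A₀) * A₀ ^ 2 := by
                field_simp
              _ ≤ D * (ε / A₀) * (c₂ * |q.eval y|) ^ 2 :=
                mul_le_mul_of_nonneg_left h8 (by positivity)
              _ = _ := by ring) htI hxI
        rw [Real.norm_eq_abs, Real.norm_eq_abs] at hmv
        have h5 : |p.eval t / q.eval t| ≤ ε / A₀ := by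
          have h6 := hc 0 (Nat.zero_le _)
          rw [taylor_coeff_zero] at h6
          rw [abs_div, ← hA₀]
          exact div_le_div_of_nonneg_right h6 hA₀p.le
        have h6 : |p.eval x / q.eval x| ≤ (1 + D * c₂ ^ 2) * (ε / A₀) := by
          have h7 : |x - t| ≤ 1 := by linarith
          have h8 : D * c₂ ^ 2 * (ε / A₀) * |x - t| ≤ D * c₂ ^ 2 * (ε / A₀) * 1 :=
            mul_le_mul_of_nonneg_left h7 (by positivity)
          have h9 : |p.eval x / q.eval x| ≤ |p.eval x / q.eval x - p.eval t / q.eval t| +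
              |p.eval t / q.eval t| := by
            have : p.eval x / q.eval x = (p.eval x / q.eval x - p.eval t / q.eval t) +
              p.eval t / q.eval t := by ring
            conv_lhs => rw [this]
            exact abs_add_le _ _
          calc _ ≤ _ := h9
            _ ≤ D * c₂ ^ 2 * (ε / A₀) * 1 + ε / A₀ := by linarith
            _ = _ := by ring
        have h7 : p.eval x = (p.eval x / q.eval x) * q.eval x := by
          rw [div_mul_cancel₀ _ (abs_pos.1 (hqne x hxI))]
        rw [h7, abs_mul]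
        calc _ ≤ (1 + D * c₂ ^ 2) * (ε / A₀) * (c₁ * A₀) :=
              mul_le_mul h6 (hup x hx) (abs_nonneg _) (by positivity)
          _ = _ := by
              field_simp
      have h5 := h₃ p t _ hpd ht hnear
      have h6 := tay_val (s := s) hpd (by positivity) h5 (by
        rw [abs_le]
        constructor <;> linarith [ht.1, ht.2, hs.1, hs.2])
      refine h6.trans ?_
      calc (K + 1) * (C₃ * ((1 + D * c₂ ^ 2) * c₁ * ε))
          = (K + 1) * (C₃ * ((1 + D * c₂ ^ 2) * c₁)) * ε := by ring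
        _ ≤ _ := mul_le_mul_of_nonneg_right (le_max_right _ _) hε

end Pool.AFF
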